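import Pool.Agent.Lib.VD.Gau

open MeasureTheory Set Module Metric
open scoped RealInnerProductSpace ENNReal Pointwise

namespace Pool.Agent.Lib.VD

theorem st_BALL : St_BALL := by
  intro n r hn hr
  have hn0 : (0 : ℝ) < n := by exact_mod_cast hn
  have hs : 0 < √(n : ℝ) := Real.sqrt_pos.2 hn0
  constructor
  · have h1 := (PiLp.volume_preserving_ofLp (Fin n)).measure_preimage
      (s := univ.pi fun _ : Fin n => Icc (-(r / √n)) (r / √n))
      (MeasurableSet.univ_pi fun _ => measurableSet_Icc).nullMeasurableSet
    rw [volume_pi_pi] at h1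
    simp only [Real.volume_Icc, Finset.prod_const, Finset.card_univ, Fintype.card_fin] at h1
    rw [ENNReal.ofReal_pow (by positivity), show 2 * r / √n = r / √n - -(r / √n) by ring, ← h1]
    refine measure_mono fun x hx => ?_
    rw [mem_closedBall_zero_iff, ← sq_le_sq₀ (norm_nonneg _) hr, EuclideanSpace.real_norm_sq_eq]
    calc ∑ i, x i ^ 2 ≤ ∑ _i : Fin n, (r / √n) ^ 2 := Finset.sum_le_sum fun i _ => by
          have := hx i (mem_univ _)
          exact sq_le_sq' this.1 this.2
      _ = r ^ 2 := by
          rw [Finset.sum_const, Finset.card_univ, Fintype.card_fin, nsmul_eq_mul, div_pow,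
            Real.sq_sqrt hn0.le]
          field_simp
  · rcases hr.eq_or_lt with h0 | h0
    · subst h0
      have : Nonempty (Fin n) := ⟨⟨0, hn⟩⟩
      simp
    set a : ℝ := n / (2 * r ^ 2) with ha
    have ha0 : 0 < a := by positivity
    have h1 := Gau.lintegral_gauss (V := E n) ha0
    rw [finrank_euclideanSpace_fin] at h1
    have h2 : ENNReal.ofReal (Real.exp (-(n / 2))) * volume (closedBall (0 : E n) r) ≤
        ENNReal.ofReal (√(Real.pi / a) ^ n) := by
      rw [← h1, ← setLIntegral_const]
      refine le_trans (setLIntegral_mono' measurableSet_closedBall fun x hx => ?_)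
        (setLIntegral_le_lintegral _ _)
      refine ENNReal.ofReal_le_ofReal (Real.exp_le_exp.2 ?_)
      rw [mem_closedBall_zero_iff] at hx
      have h3 : ‖x‖ ^ 2 ≤ r ^ 2 := pow_le_pow_left₀ (norm_nonneg _) hx 2
      have h4 : a * r ^ 2 = n / 2 := by rw [ha]; field_simp
      nlinarith
    have h5 := mul_le_mul_right h2 (ENNReal.ofReal (Real.exp (n / 2)))
    rw [← mul_assoc, ← ENNReal.ofReal_mul (Real.exp_pos _).le, ← Real.exp_add, add_neg_cancel,
      Real.exp_zero, ENNReal.ofReal_one, one_mul, ← ENNReal.ofReal_mul (Real.exp_pos _).le] at h5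
    refine h5.trans (le_of_eq ?_)
    congr 1
    have h6 : Real.exp (n / 2) = Real.exp (1 / 2) ^ n := by
      rw [← Real.exp_nat_mul]; congr 1; ring
    rw [h6, ← mul_pow]
    congr 1
    rw [← sq_eq_sq₀ (by positivity) (by positivity), mul_pow, mul_pow, Real.sq_sqrt (by positivity),
      Real.sq_sqrt (by positivity), ← Real.exp_nat_mul, ha]
    norm_num
    field_simp

end Pool.Agent.Lib.VD
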