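import Pool.Agent.Lib.VD.Blue

open MeasureTheory Set Module Metric
open scoped RealInnerProductSpace ENNReal Pointwise

namespace Pool.Agent.Lib.VD

namespace T45

/-- greedy rounding of the coefficients -/
theorem round {N d : ℕ} (w : Fin N → E d) (t : Fin N → ℝ) (s : Finset (Fin N)) :
    ∃ z : Fin N → ℤ, (∀ i ∈ s, |t i - z i| ≤ 1) ∧
      ‖∑ i ∈ s, (t i - z i) • w i‖ ^ 2 ≤ ∑ i ∈ s, ‖w i‖ ^ 2 := by
  classical
  induction s using Finset.induction_on with
  | empty => exact ⟨0, by simp, by simp⟩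
  | insert j s hj ih =>
    obtain ⟨z, h1, h2⟩ := ih
    set v := ∑ i ∈ s, (t i - z i) • w i with hv
    obtain ⟨c, hc1, hc2⟩ : ∃ c : ℤ, |t j - c| ≤ 1 ∧ (t j - c) * ⟪v, w j⟫ ≤ 0 := by
      by_cases h : ⟪v, w j⟫ ≤ 0
      · have a1 := Int.floor_le (t j)
        have a2 := Int.lt_floor_add_one (t j)
        exact ⟨⌊t j⌋, abs_le.mpr ⟨by linarith, by linarith⟩,
          mul_nonpos_of_nonneg_of_nonpos (by linarith) h⟩
      · have a1 := Int.le_ceil (t j)
        have a2 := Int.ceil_lt_add_one (t j)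
        exact ⟨⌈t j⌉, abs_le.mpr ⟨by linarith, by linarith⟩,
          mul_nonpos_of_nonpos_of_nonneg (by linarith) (le_of_not_ge h)⟩
    have hne : ∀ i ∈ s, Function.update z j c i = z i := fun i hi =>
      Function.update_of_ne (fun h : i = j => hj (h ▸ hi)) _ _
    refine ⟨Function.update z j c, fun i hi => ?_, ?_⟩
    · rcases Finset.mem_insert.mp hi with rfl | hi
      · simpa using hc1
      · rw [hne i hi]; exact h1 i hi
    · rw [Finset.sum_insert hj, Finset.sum_insert hj, Function.update_self,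
        Finset.sum_congr rfl fun i hi => by rw [hne i hi], ← hv, add_comm, norm_add_sq_real,
        inner_smul_right, norm_smul, mul_pow, Real.norm_eq_abs]
      have h3 : |t j - c| ^ 2 ≤ 1 := pow_le_one₀ (abs_nonneg _) hc1
      have h4 := mul_le_mul_of_nonneg_right h3 (sq_nonneg ‖w j‖)
      linarith

variable {N d : ℕ} (w : Fin N → E d)

noncomputable def lm : (Fin N → ℝ) →ₗ[ℝ] E d where
  toFun l := ∑ i, l i • w i
  map_add' a b := by simp [add_smul, Finset.sum_add_distrib]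
  map_smul' c a := by simp [Finset.smul_sum, smul_smul]

def oct (N : ℕ) : Set (Fin N → ℝ) := {l | ∑ i, |l i| ≤ 1}

theorem absc_eq : absc w = lm w '' oct N := by
  ext x
  exact ⟨fun ⟨l, h1, h2⟩ => ⟨l, h1, h2.symm⟩, fun ⟨l, h1, h2⟩ => ⟨l, h1, h2.symm⟩⟩

theorem oct_compact (N : ℕ) : IsCompact (oct N) := by
  refine (isCompact_closedBall (0 : Fin N → ℝ) 1).of_isClosed_subset
    (isClosed_le (by fun_prop) continuous_const) fun l hl => ?_
  rw [mem_closedBall_zero_iff, pi_norm_le_iff_of_nonneg zero_le_one]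
  intro i
  exact (Finset.single_le_sum (f := fun i => |l i|) (fun _ _ => abs_nonneg _)
    (Finset.mem_univ i)).trans hl

theorem oct_convex (N : ℕ) : Convex ℝ (oct N) := by
  intro x hx y hy a b ha hb hab
  have h : ∑ i, |(a • x + b • y) i| ≤ a * ∑ i, |x i| + b * ∑ i, |y i| := by
    rw [Finset.mul_sum, Finset.mul_sum, ← Finset.sum_add_distrib]
    refine Finset.sum_le_sum fun i _ => ?_
    simp only [Pi.add_apply, Pi.smul_apply, smul_eq_mul]
    refine (abs_add_le _ _).trans ?_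
    rw [abs_mul, abs_mul, abs_of_nonneg ha, abs_of_nonneg hb]
  have h1 := mul_le_mul_of_nonneg_left (show ∑ i, |x i| ≤ 1 from hx) ha
  have h2 := mul_le_mul_of_nonneg_left (show ∑ i, |y i| ≤ 1 from hy) hb
  change ∑ i, |(a • x + b • y) i| ≤ 1
  linarith

theorem base_eq : base w = absc w + closedBall (0 : E d) 3 := by
  ext x
  constructor
  · rintro ⟨a, ha, h⟩
    exact ⟨a, ha, x - a, mem_closedBall_zero_iff.mpr h, by simp⟩
  · rintro ⟨a, ha, y, hy, rfl⟩
    exact ⟨a, ha, by simpa using hy⟩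

theorem neg_base {x : E d} (hx : x ∈ base w) : -x ∈ base w := by
  obtain ⟨a, ⟨l, h1, rfl⟩, h⟩ := hx
  refine ⟨_, ⟨-l, by simpa using h1, rfl⟩, ?_⟩
  have : -x - ∑ i, (-l) i • w i = -(x - ∑ i, l i • w i) := by
    simp only [Pi.neg_apply, neg_smul, Finset.sum_neg_distrib]; abel
  rwa [this, norm_neg]

theorem base_body : IsSymBody (base w) := by
  have hc : IsCompact (absc w) := by
    rw [absc_eq]; exact (oct_compact N).image (lm w).continuous_of_finiteDimensional
  have hv : Convex ℝ (absc w) := by rw [absc_eq]; exact (oct_convex N).linear_image _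
  refine ⟨?_, ?_, ⟨0, ?_⟩, ?_⟩
  · rw [base_eq]; exact hc.add (isCompact_closedBall _ _)
  · rw [base_eq]; exact hv.add (convex_closedBall _ _)
  · refine mem_interior_iff_mem_nhds.mpr (Filter.mem_of_superset
      (closedBall_mem_nhds (0 : E d) (by norm_num : (0 : ℝ) < 3)) fun x hx => ?_)
    exact ⟨0, ⟨0, by simp, by simp⟩, by simpa using hx⟩
  · ext x
    exact ⟨fun h => mem_neg.mpr (neg_base w h), fun h => by simpa using neg_base w (mem_neg.mp h)⟩

theorem absc_norm (hw : ∀ i, ‖w i‖ ^ 2 ≤ d) {a : E d} (ha : a ∈ absc w) : ‖a‖ ≤ √d := by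
  obtain ⟨l, h1, rfl⟩ := ha
  calc ‖∑ i, l i • w i‖ ≤ ∑ i, |l i| * √d := by
        refine (norm_sum_le _ _).trans (Finset.sum_le_sum fun i _ => ?_)
        rw [norm_smul, Real.norm_eq_abs]
        exact mul_le_mul_of_nonneg_left (Real.le_sqrt_of_sq_le (hw i)) (abs_nonneg _)
    _ ≤ 1 * √d := by
        rw [← Finset.sum_mul]; exact mul_le_mul_of_nonneg_right h1 (Real.sqrt_nonneg _)
    _ = √d := one_mul _

theorem near {A : ℕ} (hd : 1 ≤ d) (hN : N ≤ A * d) (hw : ∀ i, ‖w i‖ ^ 2 ≤ d) {a : E d}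
    (ha : a ∈ absc w) : ∃ z : Fin N → ℤ, ∑ i, |z i| ≤ (d + N : ℕ) ∧
      ‖a - ∑ i, ((z i : ℝ) / d) • w i‖ ≤ √A := by
  obtain ⟨l, h1, rfl⟩ := ha
  have hd0 : (0 : ℝ) < d := by exact_mod_cast hd
  obtain ⟨z, h2, h3⟩ := round w (fun i => d * l i) Finset.univ
  refine ⟨z, ?_, Real.le_sqrt_of_sq_le ?_⟩
  · have h4 : ∑ i, |(z i : ℝ)| ≤ ∑ i : Fin N, (d * |l i| + 1) := by
      refine Finset.sum_le_sum fun i _ => ?_
      have h5 := h2 i (Finset.mem_univ i)
      have h6 := abs_sub_abs_le_abs_sub (z i : ℝ) (d * l i)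
      rw [abs_sub_comm, abs_mul, abs_of_pos hd0] at h6
      linarith
    rw [Finset.sum_add_distrib, ← Finset.mul_sum] at h4
    have h7 := mul_le_mul_of_nonneg_left h1 hd0.le
    have h8 : ∑ i, |(z i : ℝ)| ≤ (d : ℝ) + N := by
      simp only [Finset.sum_const, Finset.card_univ, Fintype.card_fin, nsmul_eq_mul] at h4
      linarith
    exact_mod_cast h8
  · have e : ∑ i, l i • w i - ∑ i, ((z i : ℝ) / d) • w i =
        (d : ℝ)⁻¹ • ∑ i, (d * l i - z i) • w i := by
      rw [Finset.smul_sum, ← Finset.sum_sub_distrib]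
      refine Finset.sum_congr rfl fun i _ => ?_
      rw [smul_smul, ← sub_smul]
      congr 1
      field_simp
    have h4 : ∑ i, ‖w i‖ ^ 2 ≤ (N : ℝ) * d := by
      simpa using Finset.sum_le_sum (s := Finset.univ) fun i _ => hw i
    have h5 : (N : ℝ) ≤ A * d := by exact_mod_cast hN
    rw [e, norm_smul, mul_pow, norm_inv, Real.norm_eq_abs, abs_of_pos hd0, inv_pow,
      inv_mul_le_iff₀ (by positivity)]
    nlinarith

end T45

open T45 in
theorem st_BASE (hC : St_CNT) (hB : St_BALL) : St_BASE := by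
  intro A
  refine ⟨6 ^ A * 2 * ((3 + √A) * √(2 * Real.pi * Real.exp 1)), by positivity, ?_⟩
  intro d N w hd hN hw
  have hd1 : (1 : ℝ) ≤ √d := Real.one_le_sqrt.mpr (by exact_mod_cast hd)
  refine ⟨base_body w, ?_, fun a ha => ?_, ?_⟩
  · rintro x ⟨a, ha, h⟩
    have h1 := absc_norm w hw ha
    have h2 := norm_sub_norm_le x a
    rw [mem_closedBall_zero_iff]; linarith
  · have h1 := absc_norm w hw ha
    rw [mem_closedBall_zero_iff]; linarith
  · obtain ⟨S, hS, hS'⟩ := hC N (d + N)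
    have hsub : base w ⊆ ⋃ z ∈ S, closedBall (∑ i, ((z i : ℝ) / d) • w i) (3 + √A) := by
      rintro x ⟨a, ha, h⟩
      obtain ⟨z, h1, h2⟩ := near w hd hN hw ha
      refine mem_biUnion (hS' z h1) ?_
      rw [mem_closedBall_iff_norm]
      have := norm_sub_le_norm_sub_add_norm_sub x a (∑ i, ((z i : ℝ) / d) • w i)
      linarith
    have hr : (0 : ℝ) ≤ 3 + √A := by positivity
    refine (measure_mono hsub).trans ((measure_biUnion_finset_le _ _).trans ?_)
    simp only [Measure.addHaar_closedBall_center, Finset.sum_const, nsmul_eq_mul]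
    refine (mul_le_mul_right (hB d _ hd hr).2 _).trans ?_
    rw [← ENNReal.ofReal_natCast, ← ENNReal.ofReal_mul (Nat.cast_nonneg _)]
    refine ENNReal.ofReal_le_ofReal ?_
    have h1 : (S.card : ℝ) ≤ (6 ^ A * 2) ^ d := by
      have h2 : (S.card : ℝ) ≤ 3 ^ N * 2 ^ (d + N) := by exact_mod_cast hS
      have h3 : (6 : ℝ) ^ N ≤ 6 ^ (A * d) := pow_le_pow_right₀ (by norm_num) hN
      calc (S.card : ℝ) ≤ 3 ^ N * 2 ^ (d + N) := h2
        _ = 6 ^ N * 2 ^ d := by
          rw [pow_add, show (6 : ℝ) = 3 * 2 by norm_num, mul_pow]; ring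
        _ ≤ 6 ^ (A * d) * 2 ^ d := by gcongr
        _ = (6 ^ A * 2) ^ d := by rw [mul_pow, pow_mul]
    refine (mul_le_mul_of_nonneg_right h1 (by positivity)).trans (le_of_eq ?_)
    rw [← mul_pow, Real.sqrt_div (by positivity)]
    congr 1
    ring

end Pool.Agent.Lib.VD
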