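import Pool.Agent.Lib.VD.Blue

open MeasureTheory Set Module Metric
open scoped RealInnerProductSpace ENNReal Pointwise

namespace Pool.Agent.Lib.VD
namespace T35

variable {d : ℕ}

lemma hor_cont : Continuous (hor : E (d + 1) → E d) := by
  unfold hor
  fun_prop

lemma pt_cont : Continuous fun q : ℝ × E d => pt q.1 q.2 := by
  unfold pt
  refine (PiLp.continuous_toLp 2 _).comp (continuous_pi fun i => ?_)
  cases i using Fin.cases with
  | zero => simpa using continuous_fst
  | succ i =>
    simp only [Fin.cons_succ]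
    fun_prop

lemma hor_pt (s : ℝ) (y : E d) : hor (pt s y) = y := by
  ext i
  simp [hor, pt]

lemma pt_zero (s : ℝ) (y : E d) : pt s y 0 = s := by simp [pt]

lemma pt_hor (p : E (d + 1)) : pt (p 0) (hor p) = p := by
  ext i
  cases i using Fin.cases <;> simp [hor, pt]

lemma hor_comb (a b : ℝ) (p q : E (d + 1)) : hor (a • p + b • q) = a • hor p + b • hor q := by
  ext i
  simp [hor]

lemma hor_neg (p : E (d + 1)) : hor (-p) = -hor p := by
  ext i
  simp [hor]

lemma mp : MeasurePreserving (fun p : E (d + 1) => (p 0, hor p)) volume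
    ((volume : Measure ℝ).prod (volume : Measure (E d))) := by
  have h1 := PiLp.volume_preserving_ofLp (Fin (d + 1))
  have h2 := volume_preserving_piFinSuccAbove (fun _ : Fin (d + 1) => ℝ) 0
  have h3 := (MeasurePreserving.id (volume : Measure ℝ)).prod
    (PiLp.volume_preserving_toLp (Fin d))
  exact (h3.comp h2).comp h1

end T35
open T35

theorem st_BODY : St_BODY := by
  intro d K ψ hK hc hcv hs hp
  obtain ⟨k1, k2, ⟨x, hx⟩, k4⟩ := hK
  have c0 : Continuous fun p : E (d + 1) => |p 0| := by fun_prop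
  have hcl : IsClosed (lay K ψ) :=
    (k1.isClosed.preimage hor_cont).inter (isClosed_le c0 (hc.comp hor_cont))
  refine ⟨⟨?_, ?_, ?_, ?_⟩, ?_⟩
  · obtain ⟨B, hB⟩ := k1.bddAbove_image hc.continuousOn
    refine (((isCompact_Icc (a := -B) (b := B)).prod k1).image pt_cont).of_isClosed_subset hcl ?_
    intro p h
    exact ⟨(p 0, hor p), ⟨abs_le.1 (h.2.trans (hB ⟨_, h.1, rfl⟩)), h.1⟩, pt_hor p⟩
  · intro p h q h' a b ha hb hab
    refine ⟨by rw [hor_comb]; exact k2 h.1 h'.1 ha hb hab, ?_⟩
    rw [hor_comb]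
    refine le_trans ?_ (hcv.2 h.1 h'.1 ha hb hab)
    have e : (a • p + b • q) 0 = a * p 0 + b * q 0 := by simp
    rw [e, smul_eq_mul, smul_eq_mul]
    refine (abs_add_le _ _).trans (add_le_add ?_ ?_)
    · rw [abs_mul, abs_of_nonneg ha]
      exact mul_le_mul_of_nonneg_left h.2 ha
    · rw [abs_mul, abs_of_nonneg hb]
      exact mul_le_mul_of_nonneg_left h'.2 hb
  · have ho : IsOpen {p : E (d + 1) | hor p ∈ interior K ∧ |p 0| < ψ (hor p)} :=
      (isOpen_interior.preimage hor_cont).inter (isOpen_lt c0 (hc.comp hor_cont))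
    refine ⟨pt 0 x, interior_maximal (fun p h => And.intro (interior_subset h.1) h.2.le) ho ?_⟩
    simp only [mem_ofPred_eq, hor_pt, pt_zero, abs_zero]
    exact ⟨hx, hp x (interior_subset hx)⟩
  · ext p
    have e : (-p) 0 = -p 0 := by simp
    have e2 : -hor p ∈ K ↔ hor p ∈ K := by
      conv_rhs => rw [k4]
      rfl
    simp only [lay, mem_neg, mem_ofPred_eq, hor_neg, hs, e, abs_neg, e2]
  · have hm : MeasurableSet {q : ℝ × E d | q.2 ∈ K ∧ |q.1| ≤ ψ q.2} :=
      ((k1.isClosed.preimage continuous_snd).inter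
        (isClosed_le (by fun_prop) (hc.comp continuous_snd))).measurableSet
    have := mp.measure_preimage hm.nullMeasurableSet
    rw [Measure.prod_apply_symm hm] at this
    rw [← lintegral_indicator k1.measurableSet]
    refine this.trans (lintegral_congr fun y => ?_)
    by_cases hy : y ∈ K
    · have e : (fun s : ℝ => (s, y)) ⁻¹' {q : ℝ × E d | q.2 ∈ K ∧ |q.1| ≤ ψ q.2} =
          Icc (-ψ y) (ψ y) := by
        ext s
        simp [hy, abs_le]
      rw [e, indicator_of_mem hy, Real.volume_Icc]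
      congr 1
      ring
    · have e : (fun s : ℝ => (s, y)) ⁻¹' {q : ℝ × E d | q.2 ∈ K ∧ |q.1| ≤ ψ q.2} = ∅ := by
        ext s
        simp [hy]
      rw [e, indicator_of_notMem hy, measure_empty]

end Pool.Agent.Lib.VD
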