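import Pool.Agent.Lib.VD.Blue

open MeasureTheory Set Module Metric
open scoped RealInnerProductSpace ENNReal

namespace Pool.Agent.Lib.VD

namespace C94
variable {N d : ℕ}

/-- `f` is the characteristic function of a symmetric family in `t • absc w` -/
def Rep (w : Fin N → E d) (t : ℝ) (f : E d → ℝ) : Prop :=
  ∃ (P : ℕ) (X : Fin P → E d), 1 ≤ P ∧ Sym X ∧
    (∀ i, ∃ l : Fin N → ℝ, ∑ j, |l j| ≤ t ∧ X i = ∑ j, l j • w j) ∧ ∀ ξ, chi X ξ = f ξ

lemma sin_zero {P : ℕ} {X : Fin P → E d} (h : Sym X) (ξ : E d) :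
    ∑ i, Real.sin ⟪X i, ξ⟫ = 0 := by
  obtain ⟨σ, hσ⟩ := h
  have h1 := Equiv.sum_comp σ fun i => Real.sin ⟪X i, ξ⟫
  simp only [hσ, inner_neg_left, Real.sin_neg, Finset.sum_neg_distrib] at h1
  linarith

lemma chi_le {P : ℕ} (X : Fin P → E d) (ξ : E d) : chi X ξ ≤ 1 := by
  unfold chi avg
  refine div_le_one_of_le₀ ?_ (Nat.cast_nonneg _)
  simpa using Finset.sum_le_sum fun i (_ : i ∈ (Finset.univ : Finset (Fin P))) =>
    Real.cos_le_one ⟪X i, ξ⟫

lemma rep_one (w : Fin N → E d) : Rep w 0 fun _ => 1 :=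
  ⟨1, fun _ => 0, le_rfl, ⟨1, fun _ => by simp⟩, fun _ => ⟨0, by simp, by simp⟩,
    fun ξ => by simp [chi, avg]⟩

lemma rep_base {w : Fin N → E d} (hN : 1 ≤ N) (hw : Sym w) {r : ℝ} (hr : 0 ≤ r) :
    Rep w r fun ξ => chi w (r • ξ) := by
  obtain ⟨σ, hσ⟩ := hw
  refine ⟨N, fun i => r • w i, hN, ⟨σ, fun i => by simp [hσ]⟩, fun i => ⟨Pi.single i r, ?_, ?_⟩,
    fun ξ => by simp [chi, inner_smul_left, inner_smul_right]⟩
  · rw [Finset.sum_eq_single i (fun j _ hj => by simp [hj]) (by simp)]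
    simp [abs_of_nonneg hr]
  · rw [Finset.sum_eq_single i (fun j _ hj => by simp [hj]) (by simp)]
    simp

lemma rep_mul {w : Fin N → E d} {t u : ℝ} {f g : E d → ℝ} (hf : Rep w t f) (hg : Rep w u g) :
    Rep w (t + u) fun ξ => f ξ * g ξ := by
  obtain ⟨P, X, hP, hX, lX, cX⟩ := hf
  obtain ⟨Q, Y, hQ, hY, lY, cY⟩ := hg
  have sX := sin_zero hX
  obtain ⟨σ, hσ⟩ := hX
  obtain ⟨τ, hτ⟩ := hY
  refine ⟨P * Q, fun i => X (finProdFinEquiv.symm i).1 + Y (finProdFinEquiv.symm i).2,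
    Nat.mul_pos hP hQ, ⟨finProdFinEquiv.symm.trans ((σ.prodCongr τ).trans finProdFinEquiv),
      fun i => ?_⟩, fun i => ?_, fun ξ => ?_⟩
  · simp only [Equiv.trans_apply, Equiv.symm_apply_apply, Equiv.prodCongr_apply, Prod.map_fst,
      Prod.map_snd, hσ, hτ]
    abel
  · obtain ⟨l, hl, e⟩ := lX (finProdFinEquiv.symm i).1
    obtain ⟨m, hm, e'⟩ := lY (finProdFinEquiv.symm i).2
    refine ⟨l + m, ?_, ?_⟩
    · refine le_trans (Finset.sum_le_sum fun j _ => abs_add_le (l j) (m j)) ?_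
      rw [Finset.sum_add_distrib]
      exact add_le_add hl hm
    · beta_reduce
      rw [e, e', ← Finset.sum_add_distrib]
      simp only [Pi.add_apply, add_smul]
  · beta_reduce
    rw [← cX, ← cY]
    unfold chi avg
    rw [Equiv.sum_comp finProdFinEquiv.symm fun p : Fin P × Fin Q => Real.cos ⟪X p.1 + Y p.2, ξ⟫,
      Fintype.sum_prod_type]
    simp only [inner_add_left, Real.cos_add, Finset.sum_sub_distrib, ← Finset.mul_sum,
      ← Finset.sum_mul, sX, zero_mul, sub_zero]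
    push_cast
    rw [div_mul_div_comm]

lemma rep_pow {w : Fin N → E d} {t : ℝ} {f : E d → ℝ} (hf : Rep w t f) (m : ℕ) :
    Rep w (m * t) fun ξ => f ξ ^ m := by
  induction m with
  | zero => simpa using rep_one w
  | succ m ih => simpa only [Nat.cast_succ, add_mul, one_mul, pow_succ] using rep_mul ih hf

lemma rep_prod {w : Fin N → E d} {t : ℕ → ℝ} {f : ℕ → E d → ℝ} (hf : ∀ j, Rep w (t j) (f j))
    (J : ℕ) : Rep w (∑ j ∈ Finset.range J, t j) fun ξ => ∏ j ∈ Finset.range J, f j ξ := by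
  induction J with
  | zero => simpa using rep_one w
  | succ m ih => simpa only [Finset.sum_range_succ, Finset.prod_range_succ] using rep_mul ih (hf m)

lemma sum_eq (J : ℕ) : ∑ j ∈ Finset.range J, ((j : ℝ) + 1) / 2 ^ (j + 1) = 2 - (J + 2) / 2 ^ J := by
  induction J with
  | zero => simp
  | succ m ih => rw [Finset.sum_range_succ, ih]; push_cast; field_simp; ring

end C94
open C94

theorem st_CHAR : St_CHAR := by
  intro κ hκ
  obtain ⟨n, hn⟩ := exists_pow_lt_of_lt_one (show (0 : ℝ) < 1 / 4 by norm_num)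
    (show 1 - κ < 1 by linarith)
  have hn0 : (0 : ℝ) < n := by
    rcases Nat.eq_zero_or_pos n with rfl | h
    · norm_num at hn
    · exact_mod_cast h
  refine ⟨1 / (2 * n), by positivity, fun d N k J w hN hk hw h0 h1 => ?_⟩
  have hk0 : (0 : ℝ) < k := by exact_mod_cast hk
  set r : ℕ → ℝ := fun j => 1 / (2 * n) / (2 ^ (j + 1) * k) with hr
  have r0 (j) : 0 < r j := by simp only [hr]; positivity
  obtain ⟨P, X, hP, hX, lX, cX⟩ :=
    rep_prod (fun j => rep_pow (rep_base hN hw (r0 j).le) (n * (k * (j + 1)))) J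
  refine ⟨P, X, hP, hX, fun i => ?_, fun ξ => ⟨?_, fun j hj a b => ?_⟩⟩
  · obtain ⟨l, hl, e⟩ := lX i
    refine ⟨l, hl.trans ?_, e⟩
    have : ∀ j : ℕ, ((n * (k * (j + 1)) : ℕ) : ℝ) * r j = ((j : ℝ) + 1) / 2 ^ (j + 1) / 2 := by
      intro j; simp only [hr]; push_cast; field_simp
    simp only [this]
    rw [← Finset.sum_div, sum_eq]
    have : (0 : ℝ) ≤ (J + 2) / 2 ^ J := by positivity
    linarith
  · rw [cX]
    exact Finset.prod_nonneg fun j _ => pow_nonneg (h0 _) _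
  · rw [cX]
    beta_reduce
    rw [← Finset.mul_prod_erase _ _ (Finset.mem_range.mpr hj)]
    refine (mul_le_of_le_one_right (pow_nonneg (h0 _) _) (Finset.prod_le_one
      (fun j _ => pow_nonneg (h0 _) _) fun j _ => pow_le_one₀ (h0 _) (chi_le _ _))).trans ?_
    rw [pow_mul]
    refine pow_le_pow_left₀ (pow_nonneg (h0 _) _) (le_trans (pow_le_pow_left₀ (h0 _)
      (h1 _ ?_ ?_) n) hn.le) _
    · rw [norm_smul, Real.norm_of_nonneg (r0 j).le]
      refine le_trans (le_of_eq ?_) (mul_le_mul_of_nonneg_left a (r0 j).le)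
      simp only [hr]; field_simp; ring
    · rw [norm_smul, Real.norm_of_nonneg (r0 j).le]
      refine le_trans (mul_le_mul_of_nonneg_left b (r0 j).le) (le_of_eq ?_)
      simp only [hr]; field_simp

end Pool.Agent.Lib.VD
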