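import Pool.Agent.Lib.VD.Blue

open MeasureTheory Set Module Metric
open scoped RealInnerProductSpace ENNReal Pointwise

namespace Pool.Agent.Lib.VD

namespace T28

theorem phi_mono {s t : ℝ} (hs : 0 ≤ s) (hst : s ≤ t) :
    s + Real.exp (-s) ≤ t + Real.exp (-t) := by
  have h1 : Real.exp (-s) ≤ 1 := Real.exp_le_one_iff.mpr (by linarith)
  have h2 : Real.exp (-t) = Real.exp (-s) * Real.exp (-(t - s)) := by
    rw [← Real.exp_add]; congr 1; ring
  have h3 : -(t - s) + 1 ≤ Real.exp (-(t - s)) := Real.add_one_le_exp _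
  have h4 : 0 < Real.exp (-s) := Real.exp_pos _
  have h5 : Real.exp (-s) * (-(t - s) + 1) ≤ Real.exp (-s) * Real.exp (-(t - s)) :=
    mul_le_mul_of_nonneg_left h3 h4.le
  have h6 : Real.exp (-s) * (t - s) ≤ 1 * (t - s) :=
    mul_le_mul_of_nonneg_right h1 (by linarith)
  rw [h2]; nlinarith

theorem phi_conv {s t u v : ℝ} (hu : 0 ≤ u) (hv : 0 ≤ v) (huv : u + v = 1) :
    (u * s + v * t) + Real.exp (-(u * s + v * t)) ≤
      u * (s + Real.exp (-s)) + v * (t + Real.exp (-t)) := by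
  have h := convexOn_exp.2 (mem_univ (-s)) (mem_univ (-t)) hu hv huv
  simp only [smul_eq_mul] at h
  have e : u * -s + v * -t = -(u * s + v * t) := by ring
  rw [e] at h
  nlinarith

theorem sq_conv {d : ℕ} (x y : E d) {u v : ℝ} (huv : u + v = 1) :
    ‖u • x + v • y‖ ^ 2 = u * ‖x‖ ^ 2 + v * ‖y‖ ^ 2 - u * v * ‖x - y‖ ^ 2 := by
  have hv : v = 1 - u := by linarith
  rw [norm_add_sq_real, norm_sub_sq_real, norm_smul, norm_smul, mul_pow, mul_pow,
    Real.norm_eq_abs, Real.norm_eq_abs, sq_abs, sq_abs, real_inner_smul_left,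
    real_inner_smul_right, hv]
  ring

theorem term_conv {d : ℕ} {b : ℝ} (hb : 0 < b) (a : E d) :
    ConvexOn ℝ univ (fun x : E d => b * ‖x‖ ^ 2 + Real.exp (-b * ‖x - a‖ ^ 2)) := by
  refine ⟨convex_univ, fun x _ y _ u v hu hv huv => ?_⟩
  simp only [smul_eq_mul]
  have e0 : u • x + v • y - a = u • (x - a) + v • (y - a) := by
    have : a = u • a + v • a := by rw [← add_smul, huv, one_smul]
    rw [smul_sub, smul_sub]
    nth_rewrite 1 [this]
    abel
  have e1 := sq_conv x y huv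
  have e2 := sq_conv (x - a) (y - a) huv
  have e3 : x - a - (y - a) = x - y := by abel
  rw [e3, ← e0] at e2
  have hw : 0 ≤ u * v * ‖x - y‖ ^ 2 := by positivity
  have m := phi_mono (s := b * ‖u • x + v • y - a‖ ^ 2)
    (t := u * (b * ‖x - a‖ ^ 2) + v * (b * ‖y - a‖ ^ 2)) (by positivity)
    (by rw [e2]; nlinarith [mul_nonneg hb.le hw])
  have c := phi_conv (s := b * ‖x - a‖ ^ 2) (t := b * ‖y - a‖ ^ 2) hu hv huv
  simp only [neg_mul]
  rw [e1]
  have e4 : b * ‖u • x + v • y - a‖ ^ 2 =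
      b * (u * ‖x - a‖ ^ 2 + v * ‖y - a‖ ^ 2 - u * v * ‖x - y‖ ^ 2) := by rw [e2]
  nlinarith

theorem conv_sum {d : ℕ} {ι : Type} (s : Finset ι) (f : ι → E d → ℝ)
    (h : ∀ i, ConvexOn ℝ univ (f i)) : ConvexOn ℝ univ (fun x => ∑ i ∈ s, f i x) := by
  refine ⟨convex_univ, fun x _ y _ u v hu hv huv => ?_⟩
  simp only [smul_eq_mul, Finset.mul_sum, ← Finset.sum_add_distrib]
  refine Finset.sum_le_sum fun i _ => ?_
  simpa only [smul_eq_mul] using (h i).2 (mem_univ x) (mem_univ y) hu hv huv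

end T28

open T28 in
theorem st_CONC : St_CONC := by
  intro d P b X hP hb hX
  have hP0 : (0 : ℝ) < P := by exact_mod_cast hP
  refine ⟨?_, ?_, ?_, ?_, ?_⟩
  · have h := (conv_sum Finset.univ _ fun i => term_conv hb (X i)).smul (c := (P : ℝ)⁻¹)
      (by positivity)
    have e : (fun x : E d => b * ‖x‖ ^ 2 + bump b X x) = fun x => (P : ℝ)⁻¹ •
        ∑ i, (b * ‖x‖ ^ 2 + Real.exp (-b * ‖x - X i‖ ^ 2)) := by
      funext x
      simp only [bump, avg, smul_eq_mul, Finset.sum_add_distrib, Finset.sum_const,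
        Finset.card_univ, Fintype.card_fin, nsmul_eq_mul]
      field_simp
    rw [e]; exact h
  · unfold bump avg
    fun_prop
  · intro x
    obtain ⟨σ, hσ⟩ := hX
    unfold bump avg
    congr 1
    rw [← Equiv.sum_comp σ]
    refine Finset.sum_congr rfl fun i _ => ?_
    rw [hσ i]
    have : -x - -X i = -(x - X i) := by abel
    rw [this, norm_neg]
  · intro x
    unfold bump avg
    constructor
    · refine div_pos (Finset.sum_pos (fun i _ => Real.exp_pos _) ?_) hP0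
      exact ⟨⟨0, hP⟩, Finset.mem_univ _⟩
    · rw [div_le_one hP0]
      calc ∑ i, Real.exp (-b * ‖x - X i‖ ^ 2) ≤ ∑ _i : Fin P, (1 : ℝ) := by
            refine Finset.sum_le_sum fun i _ => Real.exp_le_one_iff.mpr ?_
            have : 0 ≤ b * ‖x - X i‖ ^ 2 := by positivity
            linarith
        _ = P := by simp
  · intro R hR hXR
    refine ⟨min R (1 / (10 * b * R)), lt_min hR (by positivity), fun x x' hx hxx => ?_⟩
    unfold bump avg
    rw [← mul_div_assoc, Finset.mul_sum]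
    refine div_le_div_of_nonneg_right (Finset.sum_le_sum fun i _ => ?_) hP0.le
    have h1 : ‖x - x'‖ ≤ R := hxx.trans (min_le_left _ _)
    have h2 : ‖x - x'‖ ≤ 1 / (10 * b * R) := hxx.trans (min_le_right _ _)
    have h2' : 10 * b * R * ‖x - x'‖ ≤ 1 := by
      rw [le_div_iff₀ (by positivity)] at h2; linarith
    have h3 : ‖x - X i‖ ≤ 2 * R := (norm_sub_le _ _).trans (by linarith [hXR i])
    have h4 : ‖x' - X i‖ ≤ ‖x - X i‖ + ‖x - x'‖ := by
      have : x' - X i = (x - X i) - (x - x') := by abel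
      rw [this]; exact norm_sub_le _ _
    have h5 : ‖x' - X i‖ ^ 2 ≤ (‖x - X i‖ + ‖x - x'‖) ^ 2 :=
      pow_le_pow_left₀ (norm_nonneg _) h4 2
    have h6 : (‖x - X i‖ + ‖x - x'‖) ^ 2 ≤ ‖x - X i‖ ^ 2 + 5 * R * ‖x - x'‖ := by
      nlinarith [norm_nonneg (x - x'), norm_nonneg (x - X i)]
    have h7 : -b * ‖x - X i‖ ^ 2 + -(1 / 2) ≤ -b * ‖x' - X i‖ ^ 2 := by
      nlinarith [mul_le_mul_of_nonneg_left (h5.trans h6) hb.le]
    have h8 := Real.exp_le_exp.mpr h7
    rw [Real.exp_add] at h8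
    have h9 : -(1 / 2) + 1 ≤ Real.exp (-(1 / 2)) := Real.add_one_le_exp _
    have h10 := Real.exp_pos (-b * ‖x - X i‖ ^ 2)
    nlinarith [mul_le_mul_of_nonneg_left h9 h10.le]

end Pool.Agent.Lib.VD
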