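import Pool.Agent.Lib.VD.Blue

open MeasureTheory Set Module Metric
open scoped RealInnerProductSpace ENNReal Pointwise

namespace Pool.Agent.Lib.VD

namespace T77C

theorem two_add_sq_le (t : ℝ) : 2 + t ^ 2 ≤ Real.exp t + Real.exp (-t) := by
  have h1 : |t / 2| ≤ |Real.sinh (t / 2)| := by
    rw [Real.abs_sinh]; exact Real.self_le_sinh_iff.2 (abs_nonneg _)
  have h2 : (t / 2) ^ 2 ≤ Real.sinh (t / 2) ^ 2 := sq_le_sq.2 h1
  have h3 := Real.cosh_two_mul (t / 2)
  have h4 := Real.cosh_sq (t / 2)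
  rw [show 2 * (t / 2) = t by ring, Real.cosh_eq] at h3
  nlinarith

theorem exists_frame {n : ℕ} (Q : LinearMap.BilinForm ℝ (E n)) (hQ : Q.IsSymm)
    (hp : ∀ x, x ≠ 0 → 0 < Q x x) :
    ∃ U : E n ≃ₗ[ℝ] E n, (∀ i, Q (U (EuclideanSpace.single i 1)) (U (EuclideanSpace.single i 1)) = 1) ∧
      ∀ x, ‖U.symm x‖ ^ 2 = Q x x := by
  obtain ⟨v0, hv0⟩ := LinearMap.BilinForm.exists_orthogonal_basis (B := Q)
    ⟨fun x y => hQ.eq x y⟩
  let v := v0.reindex (finCongr finrank_euclideanSpace_fin)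
  have hv : ∀ i j, i ≠ j → Q (v i) (v j) = 0 := by
    intro i j hij
    simp only [v, Basis.reindex_apply]
    exact hv0 ((finCongr finrank_euclideanSpace_fin).symm.injective.ne hij)
  have hq : ∀ i, 0 < Q (v i) (v i) := fun i => hp _ (v.ne_zero i)
  have hu : ∀ i, IsUnit (√(Q (v i) (v i)))⁻¹ := fun i =>
    (inv_ne_zero (Real.sqrt_pos.2 (hq i)).ne').isUnit
  let u := v.isUnitSMul hu
  have huu : ∀ i j, Q (u i) (u j) = if i = j then 1 else 0 := by
    intro i j
    simp only [u, Basis.isUnitSMul_apply, map_smul, LinearMap.smul_apply, smul_eq_mul]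
    split_ifs with h
    · subst h
      have h1 := Real.mul_self_sqrt (hq i).le
      have h2 := Real.sqrt_pos.2 (hq i)
      field_simp
      nlinarith
    · rw [hv i j h]; ring
  let U : E n ≃ₗ[ℝ] E n := (EuclideanSpace.basisFun (Fin n) ℝ).toBasis.equiv u (Equiv.refl _)
  have hU : ∀ i, U (EuclideanSpace.single i 1) = u i := by
    intro i
    have := (EuclideanSpace.basisFun (Fin n) ℝ).toBasis.equiv_apply i u (Equiv.refl _)
    simpa using this
  refine ⟨U, fun i => by rw [hU, huu, if_pos rfl], fun x => ?_⟩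
  obtain ⟨c, rfl⟩ := U.surjective x
  have hc : U c = ∑ i, c i • u i := by
    conv_lhs => rw [← (EuclideanSpace.basisFun (Fin n) ℝ).sum_repr c]
    simp [map_sum, hU]
  rw [U.symm_apply_apply, hc, EuclideanSpace.real_norm_sq_eq]
  simp [map_sum, huu, sq]

end T77C

open T77C in
theorem st_COV : St_COV := by
  intro n T ξ ε hT hvol hε
  have hI : ∀ {f : E n → ℝ}, Continuous f → IntegrableOn f T := fun hf =>
    hf.continuousOn.integrableOn_compact hT
  have hZ : 0 < Z T ξ := by
    unfold Z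
    rw [setIntegral_pos_iff_support_of_nonneg_ae
      (Filter.Eventually.of_forall fun _ => (Real.exp_pos _).le) (hI (by fun_prop))]
    have : Function.support (fun y : E n => Real.exp ⟪ξ, y⟫) = univ := by
      ext y; simp
    rwa [this, univ_inter]
  set Z0 := Z T ξ with hZ0
  have hZd : ∫ y in T, Real.exp ⟪ξ, y⟫ = Z0 := rfl
  set b0 : E n := Z0⁻¹ • ∫ y in T, Real.exp ⟪ξ, y⟫ • y with hb0
  have hmean : ∀ x : E n, ∫ y in T, ⟪x, y - b0⟫ * Real.exp ⟪ξ, y⟫ = 0 := by
    intro x
    have h1 : ⟪x, ∫ y in T, Real.exp ⟪ξ, y⟫ • y⟫ = ∫ y in T, ⟪x, y⟫ * Real.exp ⟪ξ, y⟫ := by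
      rw [← integral_inner (Continuous.continuousOn (by fun_prop) |>.integrableOn_compact hT)]
      simp_rw [real_inner_smul_right, mul_comm]
    simp_rw [inner_sub_right, sub_mul]
    rw [integral_sub (hI (by fun_prop)) (hI (by fun_prop)), integral_const_mul, hZd, hb0,
      real_inner_smul_right, h1]
    field_simp
    ring
  let Q : LinearMap.BilinForm ℝ (E n) := LinearMap.mk₂ ℝ
    (fun x x' => (∫ y in T, ⟪x, y - b0⟫ * ⟪x', y - b0⟫ * Real.exp ⟪ξ, y⟫) / Z0 + ε * ⟪x, x'⟫)
    (fun x z x' => by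
      simp_rw [inner_add_left, add_mul]
      rw [integral_add (hI (by fun_prop)) (hI (by fun_prop))]; ring)
    (fun c x x' => by
      simp_rw [real_inner_smul_left, mul_assoc c]
      rw [integral_const_mul, smul_eq_mul]; ring)
    (fun x x' z => by
      simp_rw [inner_add_left, inner_add_right, mul_add, add_mul]
      rw [integral_add (hI (by fun_prop)) (hI (by fun_prop))]; ring)
    (fun c x x' => by
      simp_rw [real_inner_smul_left, real_inner_smul_right, mul_left_comm _ c, mul_assoc c]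
      rw [integral_const_mul, smul_eq_mul]; ring)
  have hQd : ∀ x, Q x x = (∫ y in T, ⟪x, y - b0⟫ ^ 2 * Real.exp ⟪ξ, y⟫) / Z0 + ε * ‖x‖ ^ 2 := by
    intro x
    simp only [Q, LinearMap.mk₂_apply, real_inner_self_eq_norm_sq, sq]
  have hV : ∀ x : E n, 0 ≤ ∫ y in T, ⟪x, y - b0⟫ ^ 2 * Real.exp ⟪ξ, y⟫ := fun x =>
    integral_nonneg fun y => by positivity
  obtain ⟨U, hU1, hU2⟩ := exists_frame Q ⟨fun x x' => by
      simp only [Q, LinearMap.mk₂_apply, mul_comm ⟪x, _⟫, real_inner_comm x x']⟩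
    (fun x hx => by
      have := hV x
      have := norm_pos_iff.2 hx
      rw [hQd]; positivity)
  refine ⟨U, LinearMap.adjoint (U : E n →ₗ[ℝ] E n) b0, ?_, fun x => ?_⟩
  · have e : ∀ y : E n, ‖LinearMap.adjoint (U : E n →ₗ[ℝ] E n) y -
        LinearMap.adjoint (U : E n →ₗ[ℝ] E n) b0‖ ^ 2 * Real.exp ⟪ξ, y⟫ =
        ∑ i, ⟪U (EuclideanSpace.single i 1), y - b0⟫ ^ 2 * Real.exp ⟪ξ, y⟫ := by
      intro y
      rw [← map_sub, EuclideanSpace.real_norm_sq_eq, Finset.sum_mul]
      refine Finset.sum_congr rfl fun i _ => ?_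
      congr 2
      have := LinearMap.adjoint_inner_right (U : E n →ₗ[ℝ] E n) (EuclideanSpace.single i 1) (y - b0)
      rw [EuclideanSpace.inner_single_left] at this
      simpa using this
    simp_rw [e]
    rw [integral_finsetSum _ fun i _ => hI (by fun_prop)]
    calc _ ≤ ∑ _i : Fin n, Z0 := Finset.sum_le_sum fun i _ => by
          have h1 := hU1 i
          rw [hQd] at h1
          rw [← div_le_one hZ]
          have : 0 ≤ ε * ‖U (EuclideanSpace.single i 1)‖ ^ 2 := by positivity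
          linarith
      _ = _ := by simp
  · rw [hU2, hQd]
    set V := ∫ y in T, ⟪x, y - b0⟫ ^ 2 * Real.exp ⟪ξ, y⟫ with hVd
    set A := ∫ y in T, Real.exp ⟪x, y - b0⟫ * Real.exp ⟪ξ, y⟫ with hA
    set A' := ∫ y in T, Real.exp (-⟪x, y - b0⟫) * Real.exp ⟪ξ, y⟫ with hA'
    have h1 : Z T (ξ + x) = Real.exp ⟪x, b0⟫ * A := by
      rw [hA, ← integral_const_mul, Z]
      refine integral_congr_ae (Filter.Eventually.of_forall fun y => ?_)
      simp only [← Real.exp_add, inner_add_left, inner_sub_right]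
      congr 1; ring
    have h2 : Z T (ξ - x) = Real.exp (-⟪x, b0⟫) * A' := by
      rw [hA', ← integral_const_mul, Z]
      refine integral_congr_ae (Filter.Eventually.of_forall fun y => ?_)
      simp only [← Real.exp_add, inner_sub_left, inner_sub_right]
      congr 1; ring
    have h3 : Z T (ξ + x) * Z T (ξ - x) = A * A' := by
      rw [h1, h2, mul_mul_mul_comm, ← Real.exp_add, add_neg_cancel, Real.exp_zero, one_mul]
    have h4 : Z0 ≤ A := by
      have : Z0 = ∫ y in T, (⟪x, y - b0⟫ * Real.exp ⟪ξ, y⟫ + Real.exp ⟪ξ, y⟫) := by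
        rw [integral_add (hI (by fun_prop)) (hI (by fun_prop)), hmean, hZd, zero_add]
      rw [this]
      refine integral_mono (hI (by fun_prop)) (hI (by fun_prop)) fun y => ?_
      have := Real.add_one_le_exp ⟪x, y - b0⟫
      have := Real.exp_pos ⟪ξ, y⟫
      simp only
      nlinarith
    have h5 : Z0 ≤ A' := by
      have : Z0 = ∫ y in T, (Real.exp ⟪ξ, y⟫ - ⟪x, y - b0⟫ * Real.exp ⟪ξ, y⟫) := by
        rw [integral_sub (hI (by fun_prop)) (hI (by fun_prop)), hmean, hZd, sub_zero]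
      rw [this]
      refine integral_mono (hI (by fun_prop)) (hI (by fun_prop)) fun y => ?_
      have := Real.add_one_le_exp (-⟪x, y - b0⟫)
      have := Real.exp_pos ⟪ξ, y⟫
      simp only
      nlinarith
    have h6 : 2 * Z0 + V ≤ A + A' := by
      rw [← hZd, ← integral_const_mul, ← integral_add (hI (by fun_prop)) (hI (by fun_prop)),
        ← integral_add (hI (by fun_prop)) (hI (by fun_prop))]
      refine integral_mono (hI (by fun_prop)) (hI (by fun_prop)) fun y => ?_
      have := two_add_sq_le ⟪x, y - b0⟫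
      have := Real.exp_pos ⟪ξ, y⟫
      simp only
      nlinarith
    rw [h3]
    have h7 : (V / Z0 + ε * ‖x‖ ^ 2) * Z0 ^ 2 = V * Z0 + ε * ‖x‖ ^ 2 * Z0 ^ 2 := by field_simp
    rw [h7]
    nlinarith [mul_nonneg (sub_nonneg.2 h4) (sub_nonneg.2 h5), mul_le_mul_of_nonneg_left h6 hZ.le]

end Pool.Agent.Lib.VD
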