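import Pool.Agent.Lib.VD.Blue

open MeasureTheory Set Module Metric
open scoped RealInnerProductSpace ENNReal Pointwise

namespace Pool.Agent.Lib.VD

namespace T37

theorem det_pos {n : ℕ} (U : E n ≃ₗ[ℝ] E n) : 0 < |LinearMap.det (U : E n →ₗ[ℝ] E n)| :=
  abs_pos.2 (LinearEquiv.isUnit_det' U).ne_zero

theorem vol_pre {n : ℕ} (U : E n ≃ₗ[ℝ] E n) (A : Set (E n)) :
    volume (U ⁻¹' A) = ENNReal.ofReal (|LinearMap.det (U : E n →ₗ[ℝ] E n)|⁻¹) * volume A := by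
  rw [Measure.addHaar_preimage_linearEquiv, LinearEquiv.det_coe_symm, abs_inv]

theorem pol_pre {n : ℕ} (U : E n ≃ₗ[ℝ] E n) (K : Set (E n)) {z : E n} (hz : z ∈ pol (U ⁻¹' K)) :
    ∃ y ∈ pol K, LinearMap.adjoint (U : E n →ₗ[ℝ] E n) y = z := by
  refine ⟨LinearMap.adjoint (U.symm : E n →ₗ[ℝ] E n) z, fun x hx => ?_, ?_⟩
  · rw [LinearMap.adjoint_inner_right]
    exact hz _ (by simpa using hx)
  · refine ext_inner_left ℝ fun v => ?_
    rw [LinearMap.adjoint_inner_right, LinearMap.adjoint_inner_right]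
    simp

theorem ball_pre {n : ℕ} (U : E n ≃ₗ[ℝ] E n) {K : Set (E n)} {r : ℝ} (hr : 0 < r)
    (h : closedBall (0 : E n) r ⊆ K) : ∃ s > 0, closedBall (0 : E n) s ⊆ U ⁻¹' K := by
  have hc : Continuous U := U.toContinuousLinearEquiv.continuous
  have h1 : U ⁻¹' K ∈ nhds (0 : E n) := by
    refine hc.continuousAt.preimage_mem_nhds ?_
    rw [map_zero]
    exact Filter.mem_of_superset (closedBall_mem_nhds _ hr) h
  obtain ⟨s, hs, h2⟩ := nhds_basis_closedBall.mem_iff.1 h1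
  exact ⟨s, hs, h2⟩

end T37

open T37 in
theorem st_DET (hPOL : St_POL) (hPACK : St_PACK) (hDUAL : St_DUAL) (hCOV : St_COV) : St_DET := by
  intro n K ξ ε hn hK hε hξ
  obtain ⟨⟨r, hr, hrK⟩, hv, hP, hvP, -, -, -⟩ := hPOL n K hK
  obtain ⟨U, b, hU1, hU2⟩ := hCOV n (pol K) ξ ε hP.1 hvP hε
  refine ⟨U, ?_, hU2⟩
  have hcpt : IsCompact (U ⁻¹' K) := U.toContinuousLinearEquiv.toHomeomorph.isCompact_preimage.2 hK.1
  have hcv : Convex ℝ (U ⁻¹' K) := hK.2.1.linear_preimage (U : E n →ₗ[ℝ] E n)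
  have hd := hDUAL n (U ⁻¹' K) hn hcpt hcv (ball_pre U hr hrK) (fun j => by
    have h2 : (1 : ℝ) ≤ 2 ^ j := one_le_pow₀ (by norm_num)
    have h4 : (4 : ℝ) ^ j = 2 ^ j * 2 ^ j := by rw [← mul_pow]; norm_num
    obtain ⟨P, hP1, hP2⟩ := hPACK n (pol K) ξ (LinearMap.adjoint (U : E n →ₗ[ℝ] E n)) b
      (1 / (2 * 2 ^ j)) (2 * 2 ^ j) hn hP.1 hP.2.1 hvP hξ hU1 (by positivity)
      (one_div_le_one_div_of_le (by norm_num) (by linarith)) (by positivity) (by nlinarith)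
    refine ⟨P, hP1.trans (le_of_eq ?_), fun z hz => ?_⟩
    · congr 1
      rw [h4]; field_simp; ring
    · obtain ⟨y, hy, rfl⟩ := pol_pre U K hz
      obtain ⟨p, hp, h⟩ := hP2 y hy
      refine ⟨p, hp, h.trans (le_of_eq ?_)⟩
      rw [h4]; field_simp; ring)
  have hD := det_pos U
  rw [vol_pre, ← ENNReal.ofReal_toReal hK.1.measure_lt_top.ne,
    ← ENNReal.ofReal_mul (by positivity),
    ENNReal.ofReal_le_ofReal_iff (by positivity), one_div, inv_pow] at hd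
  have hn0 : (0 : ℝ) < n := by exact_mod_cast hn
  have hq : (0 : ℝ) < (16 * Real.exp 7 * n) ^ n := by positivity
  rw [inv_le_iff_one_le_mul₀' hq, ← mul_assoc, mul_right_comm, ← div_eq_mul_inv,
    one_le_div hD] at hd
  exact hd

end Pool.Agent.Lib.VD
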