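import Pool.Agent.Lib.VD.Blue

open MeasureTheory Set Module Metric
open scoped RealInnerProductSpace ENNReal Pointwise

namespace Pool.Agent.Lib.VD

namespace T66

/-- a point of the unit ball is a point of `a K` plus a point of `pol K / (4 a)` -/
theorem split {n : ℕ} {K : Set (E n)} (hK : IsCompact K) (hc : Convex ℝ K) (hne : K.Nonempty)
    {a : ℝ} (ha : 0 < a) {x : E n} (hx : ‖x‖ ≤ 1) :
    ∃ w ∈ K, (4 * a) • (x - a • w) ∈ pol K := by
  obtain ⟨w, hw, hmin⟩ := exists_norm_eq_iInf_of_complete_convex hne hK.isComplete hc (a⁻¹ • x)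
  have hv := (norm_eq_iInf_iff_real_inner_le_zero hc hw).1 hmin
  refine ⟨w, hw, fun y hy => ?_⟩
  have h1 := hv y hy
  set z := x - a • w with hz
  have e1 : a⁻¹ • x - w = a⁻¹ • z := by
    rw [hz, smul_sub, smul_smul, inv_mul_cancel₀ ha.ne', one_smul]
  rw [e1, real_inner_smul_left, inner_sub_right] at h1
  have h2 : ⟪z, y⟫ ≤ ⟪z, w⟫ := by
    have := (mul_nonpos_iff_pos_imp_nonpos.1 h1).1 (inv_pos.2 ha)
    linarith
  have e2 : a * ⟪z, w⟫ = ⟪z, x⟫ - ‖z‖ ^ 2 := by
    have : a • w = x - z := by rw [hz]; abel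
    rw [← real_inner_smul_right, this, inner_sub_right, real_inner_self_eq_norm_sq]
  have h3 : ⟪z, x⟫ ≤ ‖z‖ := by
    have := real_inner_le_norm z x
    nlinarith [norm_nonneg z]
  rw [real_inner_smul_right, real_inner_comm]
  nlinarith [sq_nonneg (2 * ‖z‖ - 1), mul_le_mul_of_nonneg_left h2 ha.le]

/-- the unit ball is covered by the translates `t + c K`, `t ∈ T` -/
def Cov {n : ℕ} (K : Set (E n)) (c : ℝ) (T : Finset (E n)) : Prop :=
  ∀ x : E n, ‖x‖ ≤ 1 → ∃ t ∈ T, ∃ w ∈ K, x = t + c • w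

theorem step {n : ℕ} {K : Set (E n)} (hK : IsCompact K) (hc : Convex ℝ K) (hne : K.Nonempty)
    {a : ℝ} (ha : 0 < a) {P T : Finset (E n)}
    (hP : ∀ y ∈ pol K, ∃ p ∈ P, ‖y - p‖ ≤ a / 2) (hT : Cov K (8 * a) T) :
    ∃ S : Finset (E n), S.card ≤ P.card * T.card ∧ Cov K (2 * a) S := by
  classical
  refine ⟨(P ×ˢ T).image fun q => (4 * a)⁻¹ • q.1 + (8 : ℝ)⁻¹ • q.2, ?_, fun x hx => ?_⟩
  · exact Finset.card_image_le.trans (Finset.card_product _ _).le
  obtain ⟨w, hw, hz⟩ := split hK hc hne ha hx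
  obtain ⟨p, hp, hd⟩ := hP _ hz
  have h4 : 0 < 4 * a := by positivity
  have hn : ‖(2 / a) • ((4 * a) • (x - a • w) - p)‖ ≤ 1 := by
    rw [norm_smul, Real.norm_of_nonneg (by positivity)]
    calc 2 / a * ‖(4 * a) • (x - a • w) - p‖ ≤ 2 / a * (a / 2) := by gcongr
      _ = 1 := by field_simp
  obtain ⟨t, ht, w', hw', he⟩ := hT _ hn
  refine ⟨_, Finset.mem_image.2 ⟨(p, t), Finset.mem_product.2 ⟨hp, ht⟩, rfl⟩,
    (1 / 2 : ℝ) • w + (1 / 2 : ℝ) • w', hc hw hw' (by norm_num) (by norm_num) (by norm_num), ?_⟩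
  have e : t = (2 / a) • ((4 * a) • (x - a • w) - p) - (8 * a) • w' := by rw [he]; abel
  simp only [e]
  match_scalars <;> field_simp <;> ring

end T66

open T66 in
theorem st_DUAL (hB : St_BALL) : St_DUAL := by
  intro n K hn hK hc ⟨r, hr, hrK⟩ hP
  have hne : K.Nonempty := ⟨0, hrK (mem_closedBall_self hr.le)⟩
  have hn' : (1 : ℝ) ≤ n := by exact_mod_cast hn
  have hs : 1 ≤ √(n : ℝ) := Real.one_le_sqrt.2 hn'
  have key : ∀ i j : ℕ, 1 / r ≤ 4 ^ (j + i) → ∃ T : Finset (E n),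
      (T.card : ℝ) ≤ Real.exp (6 * n / 2 ^ j + 2 / (3 * 4 ^ j)) ∧
        Cov K (2 * (16 * 4 ^ j * √n)) T := by
    intro i
    induction i with
    | zero =>
      intro j hj
      refine ⟨{0}, ?_, fun x hx => ⟨0, Finset.mem_singleton_self _,
        (2 * (16 * 4 ^ j * √(n : ℝ)))⁻¹ • x, hrK ?_, ?_⟩⟩
      · rw [Finset.card_singleton, Nat.cast_one]
        exact Real.one_le_exp (by positivity)
      · rw [mem_closedBall_zero_iff, norm_smul, Real.norm_of_nonneg (by positivity),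
          inv_mul_le_iff₀ (by positivity)]
        rw [add_zero, div_le_iff₀ hr] at hj
        have h0 : (0 : ℝ) ≤ 4 ^ j * r := by positivity
        nlinarith
      · rw [zero_add, smul_smul, mul_inv_cancel₀ (by positivity), one_smul]
    | succ i ih =>
      intro j hj
      obtain ⟨T, hT, hcov⟩ := ih (j + 1) (by rwa [add_right_comm, add_assoc])
      obtain ⟨P, hPc, hPd⟩ := hP j
      have e8 : (2 : ℝ) * (16 * 4 ^ (j + 1) * √n) = 8 * (16 * 4 ^ j * √n) := by ring
      rw [e8] at hcov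
      obtain ⟨S, hS, hSc⟩ := step hK hc hne (a := 16 * 4 ^ j * √n) (by positivity) (P := P)
        (fun y hy => by
          obtain ⟨p, hp, hd⟩ := hPd y hy
          exact ⟨p, hp, by linarith⟩) hcov
      refine ⟨S, ?_, hSc⟩
      have hS' : (S.card : ℝ) ≤ P.card * T.card := by exact_mod_cast hS
      refine hS'.trans ((mul_le_mul hPc hT (by positivity) (by positivity)).trans (le_of_eq ?_))
      rw [← Real.exp_add]
      congr 1
      field_simp
      ring
  obtain ⟨i, hi⟩ := pow_unbounded_of_one_lt (1 / r) (show (1 : ℝ) < 4 by norm_num)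
  obtain ⟨T, hT, hcov⟩ := key i 0 (by rw [zero_add]; exact hi.le)
  have hT' : (T.card : ℝ) ≤ Real.exp 7 ^ n := by
    refine hT.trans ?_
    rw [← Real.exp_nat_mul]
    refine Real.exp_le_exp.2 ?_
    norm_num
    linarith
  have hsub : closedBall (0 : E n) 1 ⊆ ⋃ t ∈ T, t +ᵥ ((32 * √(n : ℝ)) • K) := by
    intro x hx
    obtain ⟨t, ht, w, hw, he⟩ := hcov x (mem_closedBall_zero_iff.1 hx)
    refine mem_biUnion ht ⟨(32 * √(n : ℝ)) • w, ⟨w, hw, rfl⟩, ?_⟩
    rw [he]
    simp only [vadd_eq_add]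
    congr 2
    ring
  have h1 := ((hB n 1 hn zero_le_one).1.trans (measure_mono hsub)).trans
    (measure_biUnion_finset_le T _)
  simp only [measure_vadd, Measure.addHaar_smul, finrank_euclideanSpace_fin, Finset.sum_const,
    nsmul_eq_mul] at h1
  have hc' : (T.card : ℝ≥0∞) ≤ ENNReal.ofReal (Real.exp 7 ^ n) := by
    rw [← ENNReal.ofReal_natCast]
    exact ENNReal.ofReal_le_ofReal hT'
  have h2 := h1.trans (mul_le_mul_left hc' _)
  rw [← mul_assoc, ← ENNReal.ofReal_mul (by positivity), abs_of_nonneg (by positivity)] at h2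
  have hpos : 0 < Real.exp 7 ^ n * (32 * √(n : ℝ)) ^ n := by positivity
  have e : (2 * 1 / √(n : ℝ)) ^ n =
      Real.exp 7 ^ n * (32 * √(n : ℝ)) ^ n * (1 / (16 * Real.exp 7 * n)) ^ n := by
    rw [← mul_pow, ← mul_pow]
    congr 1
    have := Real.mul_self_sqrt (show (0 : ℝ) ≤ n by positivity)
    field_simp
    nlinarith
  rw [e, ENNReal.ofReal_mul hpos.le] at h2
  exact (ENNReal.mul_le_mul_iff_right (by simpa using hpos) ENNReal.ofReal_ne_top).1 h2

end Pool.Agent.Lib.VD
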