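import Pool.Agent.Lib.VD.Blue

open MeasureTheory Set Module Metric
open scoped RealInnerProductSpace ENNReal Pointwise

namespace Pool.Agent.Lib.VD

namespace T37E

theorem low {n k : ℕ} (hn : 1 ≤ n) {B : Set (E n)} (hB : MeasurableSet B) {ρ : ℝ}
    (h : ∀ x ∈ B, ‖x‖ ≤ ρ) :
    ENNReal.ofReal ((ρ ^ k)⁻¹) * volume B ≤
      ∫⁻ x, B.indicator (1 : E n → ℝ≥0∞) x * ENNReal.ofReal ((‖x‖ ^ k)⁻¹) := by
  have : Nontrivial (E n) := Module.nontrivial_of_finrank_pos (R := ℝ)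
    (by rw [finrank_euclideanSpace_fin]; exact hn)
  rw [← lintegral_indicator_one hB, ← lintegral_const_mul _ (measurable_one.indicator hB)]
  refine lintegral_mono_ae ?_
  have h0 : ∀ᵐ x : E n, x ≠ 0 := by
    rw [ae_iff]; simp
  filter_upwards [h0] with x hx
  by_cases hxB : x ∈ B
  · rw [indicator_of_mem hxB, Pi.one_apply, mul_one, one_mul]
    have hp : 0 < ‖x‖ := norm_pos_iff.2 hx
    exact ENNReal.ofReal_le_ofReal
      (inv_anti₀ (by positivity) (pow_le_pow_left₀ hp.le (h x hxB) k))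
  · rw [indicator_of_notMem hxB]; simp

theorem sqrt_two_pi_le : √(2 * Real.pi) ≤ 3 := by
  rw [Real.sqrt_le_iff]
  exact ⟨by norm_num, by nlinarith [Real.pi_lt_d2]⟩

end T37E

open T37E in
theorem st_ELL (hSEC : St_SEC) (hKER : St_KER) (hSING : St_SING) : St_ELL := by
  intro n k U A ρ M hk hkn hA hρ hM hAρ hsec
  have hUc : Continuous U := U.toContinuousLinearEquiv.continuous
  have hB : MeasurableSet (U ⁻¹' A) := hUc.measurable hA
  have hnk : n - (n - k) = k := by omega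
  have hker := hKER n (n - k) ((U ⁻¹' A).indicator 1)
    (fun x => ENNReal.ofReal (Real.exp (-‖U x‖ ^ 2 / 2)))
    (ENNReal.ofReal (√(2 * Real.pi) ^ (n - k))) (ENNReal.ofReal M) (by omega) (by omega)
    (measurable_one.indicator hB) (by fun_prop) (fun Y => by
      have hY : Measurable Y := (LinearMap.continuous_of_finiteDimensional Y).measurable
      have h1 := hSEC n (n - k) ((U : E n →ₗ[ℝ] E n) ∘ₗ Y) A (ENNReal.ofReal M) hA
        (by simpa using hM) hsec
      have h2 : ∫⁻ u, (U ⁻¹' A).indicator (1 : E n → ℝ≥0∞) (Y u) =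
          volume (((U : E n →ₗ[ℝ] E n) ∘ₗ Y) ⁻¹' A) := by
        rw [← lintegral_indicator_one
          ((LinearMap.continuous_of_finiteDimensional _).measurable hA)]
        rfl
      rw [h2]
      exact h1)
  rw [hnk] at hker
  have hD : 0 < |LinearMap.det (U : E n →ₗ[ℝ] E n)| :=
    abs_pos.2 (LinearEquiv.isUnit_det' U).ne_zero
  have hvol : volume (U ⁻¹' A) =
      ENNReal.ofReal (|LinearMap.det (U : E n →ₗ[ℝ] E n)|⁻¹) * volume A := by
    rw [Measure.addHaar_preimage_linearEquiv, LinearEquiv.det_coe_symm, abs_inv]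
  have hlow := low (k := k) (ρ := ρ) (by omega : 1 ≤ n) hB (fun x hx => by
    simpa using hAρ (U x) hx)
  have hs := hSING n k U hk hkn
  set D := |LinearMap.det (U : E n →ₗ[ℝ] E n)| with hDdef
  set s := √(2 * Real.pi) with hsdef
  have hs0 : 0 < s := Real.sqrt_pos.2 (by positivity)
  have hn0 : (0 : ℝ) < n := by exact_mod_cast (by omega : 0 < n)
  have hq : 0 < D ^ ((k : ℝ) / n) := Real.rpow_pos_of_pos hD _
  have hall : ENNReal.ofReal (s ^ (n - k) * ((ρ ^ k)⁻¹ * D⁻¹)) * volume A ≤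
      ENNReal.ofReal (M * (s ^ n * (9 / √n) ^ k * D ^ ((k : ℝ) / n) / D)) := by
    rw [ENNReal.ofReal_mul (by positivity), ENNReal.ofReal_mul (by positivity),
      ENNReal.ofReal_mul hM.le, mul_assoc, mul_assoc, ← hvol]
    exact (mul_le_mul_right hlow _).trans (hker.trans (mul_le_mul_right hs _))
  have hc : 0 < s ^ (n - k) * ((ρ ^ k)⁻¹ * D⁻¹) := by positivity
  have hfin : volume A ≤ ENNReal.ofReal ((s ^ (n - k) * ((ρ ^ k)⁻¹ * D⁻¹))⁻¹ *
      (M * (s ^ n * (9 / √n) ^ k * D ^ ((k : ℝ) / n) / D))) := by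
    rw [ENNReal.ofReal_mul (by positivity), ENNReal.ofReal_inv_of_pos hc]
    exact (ENNReal.mul_le_iff_le_inv (by simpa using hc) ENNReal.ofReal_ne_top).1 hall
  refine hfin.trans (ENNReal.ofReal_le_ofReal ?_)
  have hsn : s ^ n = s ^ (n - k) * s ^ k := by rw [← pow_add]; congr 1; omega
  have e : (s ^ (n - k) * ((ρ ^ k)⁻¹ * D⁻¹))⁻¹ *
      (M * (s ^ n * (9 / √n) ^ k * D ^ ((k : ℝ) / n) / D)) =
      M * (s * (9 * ρ / √n)) ^ k * D ^ ((k : ℝ) / n) := by
    rw [hsn, mul_pow, div_pow, div_pow, mul_pow]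
    field_simp
  rw [e]
  have h3 : s * (9 * ρ / √n) ≤ 27 * ρ / √n := by
    have h4 : 0 ≤ 9 * ρ / √n := by positivity
    calc s * (9 * ρ / √n) ≤ 3 * (9 * ρ / √n) := mul_le_mul_of_nonneg_right sqrt_two_pi_le h4
      _ = 27 * ρ / √n := by ring
  gcongr

end Pool.Agent.Lib.VD
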