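import Pool.Agent.Lib.VD.Blue

open MeasureTheory Set Module Metric
open scoped RealInnerProductSpace ENNReal Pointwise

namespace Pool.Agent.Lib.VD

namespace T84

section gauss
variable {V : Type*} [NormedAddCommGroup V] [InnerProductSpace ℝ V] [FiniteDimensional ℝ V]
  [MeasurableSpace V] [BorelSpace V]

theorem sqrt_pow_eq {a : ℝ} (ha : 0 ≤ a) (m : ℕ) : a ^ ((m : ℝ) / 2) = √a ^ m := by
  rw [Real.sqrt_eq_rpow, ← Real.rpow_natCast, ← Real.rpow_mul ha]; congr 1; ring

omit [FiniteDimensional ℝ V] [MeasurableSpace V] [BorelSpace V] in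
theorem re_cexp (a : ℝ) (w v : V) :
    (Complex.exp (-(a : ℂ) * ‖v‖ ^ 2 + Complex.I * ⟪w, v⟫)).re =
      Real.exp (-a * ‖v‖ ^ 2) * Real.cos ⟪w, v⟫ := by
  rw [Complex.exp_re]
  simp [← Complex.ofReal_pow]

theorem integrable_gauss_cos {a : ℝ} (ha : 0 < a) (w : V) :
    Integrable fun v : V => Real.exp (-a * ‖v‖ ^ 2) * Real.cos ⟪w, v⟫ := by
  have h := (GaussianFourier.integrable_cexp_neg_mul_sq_norm_add (b := (a : ℂ)) ha Complex.I w).re
  simpa only [RCLike.re_to_complex, re_cexp] using h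

theorem integrable_gauss {a : ℝ} (ha : 0 < a) :
    Integrable fun v : V => Real.exp (-a * ‖v‖ ^ 2) := by
  simpa using integrable_gauss_cos ha (0 : V)

theorem integral_gauss {a : ℝ} (ha : 0 < a) :
    ∫ v : V, Real.exp (-a * ‖v‖ ^ 2) = √(Real.pi / a) ^ finrank ℝ V := by
  rw [GaussianFourier.integral_rexp_neg_mul_sq_norm ha, sqrt_pow_eq (by positivity)]

theorem integral_gauss_cos {a : ℝ} (ha : 0 < a) (w : V) :
    ∫ v : V, Real.exp (-a * ‖v‖ ^ 2) * Real.cos ⟪w, v⟫ =
      √(Real.pi / a) ^ finrank ℝ V * Real.exp (-‖w‖ ^ 2 / (4 * a)) := by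
  have h := GaussianFourier.integral_cexp_neg_mul_sq_norm_add (b := (a : ℂ)) ha Complex.I w
  have h2 := integral_re
    (GaussianFourier.integrable_cexp_neg_mul_sq_norm_add (b := (a : ℂ)) ha Complex.I w)
  simp only [RCLike.re_to_complex, re_cexp] at h2
  have h3 : ((Real.pi : ℂ) / a) ^ (finrank ℝ V / 2 : ℂ) *
      Complex.exp (Complex.I ^ 2 * ‖w‖ ^ 2 / (4 * a)) =
      ((√(Real.pi / a) ^ finrank ℝ V * Real.exp (-‖w‖ ^ 2 / (4 * a)) : ℝ) : ℂ) := by
    rw [← sqrt_pow_eq (by positivity), Complex.ofReal_mul, Complex.ofReal_cpow (by positivity)]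
    simp
  rw [h2, h, h3, Complex.ofReal_re]

end gauss

variable {d : ℕ}

theorem norm_split (F : Submodule ℝ (E d)) (u : E d) (y : F) :
    ‖(y : E d) + u‖ ^ 2 = ‖y + F.orthogonalProjectionOnto u‖ ^ 2 + ‖Fᗮ.orthogonalProjectionOnto u‖ ^ 2 := by
  have h := F.starProjection_add_starProjection_orthogonal u
  have h0 : ⟪((y + F.orthogonalProjectionOnto u : F) : E d), (Fᗮ.orthogonalProjectionOnto u : E d)⟫ = 0 :=
    Submodule.inner_right_of_mem_orthogonal (Subtype.coe_prop _) (Subtype.coe_prop _)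
  have h1 := norm_add_sq_eq_norm_sq_add_norm_sq_real h0
  have h2 : ((y + F.orthogonalProjectionOnto u : F) : E d) + (Fᗮ.orthogonalProjectionOnto u : E d) =
      y + u := by
    rw [Submodule.coe_add, add_assoc]; congr 1
  rw [h2] at h1
  simpa only [sq, Submodule.coe_norm] using h1

theorem slice (F : Submodule ℝ (E d)) {b : ℝ} (hb : 0 < b) (u : E d) :
    Integrable (fun y : F => Real.exp (-b * ‖(y : E d) + u‖ ^ 2)) ∧
    ∫ y : F, Real.exp (-b * ‖(y : E d) + u‖ ^ 2) =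
      √(Real.pi / b) ^ finrank ℝ F * Real.exp (-b * ‖Fᗮ.orthogonalProjectionOnto u‖ ^ 2) := by
  simp only [norm_split F u, mul_add, Real.exp_add]
  refine ⟨((integrable_gauss hb).comp_add_right _).mul_const _, ?_⟩
  rw [integral_mul_const,
    integral_add_right_eq_self (fun y : F => Real.exp (-b * ‖y‖ ^ 2)), integral_gauss hb]

theorem inner_proj (H : Submodule ℝ (E d)) (u : E d) (ξ : H) :
    ⟪H.orthogonalProjectionOnto u, ξ⟫ = ⟪u, (ξ : E d)⟫ :=
  H.inner_orthogonalProjectionOnto_eq_of_mem_right ξ u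

theorem sum_cos {P : ℕ} {X : Fin P → E d} (hS : Sym X) (z ξ : E d) :
    ∑ i, Real.cos ⟪z - X i, ξ⟫ = Real.cos ⟪z, ξ⟫ * ∑ i, Real.cos ⟪X i, ξ⟫ := by
  obtain ⟨σ, hσ⟩ := hS
  have h : ∑ i, Real.sin ⟪X i, ξ⟫ = 0 := by
    have h1 := Equiv.sum_comp σ fun i => Real.sin ⟪X i, ξ⟫
    simp only [hσ, inner_neg_left, Real.sin_neg, Finset.sum_neg_distrib] at h1
    linarith
  simp only [inner_sub_left, Real.cos_sub, Finset.sum_add_distrib, ← Finset.mul_sum, h, mul_zero,
    add_zero]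

end T84

open T84 in
theorem st_FOUR : St_FOUR := by
  intro d k P b X F z hP hk hb hS hchi hF
  have hH : finrank ℝ Fᗮ = k := by
    have := F.finrank_add_finrank_orthogonal
    rw [finrank_euclideanSpace_fin] at this; omega
  have ha : 0 < 1 / (4 * b) := by positivity
  have hP0 : (0 : ℝ) < P := by exact_mod_cast hP
  have hpi := Real.pi_pos
  have eg : ∀ ξ : Fᗮ, Real.exp (-‖(ξ : E d)‖ ^ 2 / (4 * b)) =
      Real.exp (-(1 / (4 * b)) * ‖ξ‖ ^ 2) := fun ξ => by
    rw [Submodule.coe_norm]; congr 1; ring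
  have hi : ∀ u : E d, Integrable fun ξ : Fᗮ =>
      Real.exp (-(1 / (4 * b)) * ‖ξ‖ ^ 2) * Real.cos ⟪u, (ξ : E d)⟫ := fun u => by
    simpa only [inner_proj] using integrable_gauss_cos ha (Fᗮ.orthogonalProjectionOnto u)
  have hc : √(Real.pi / b) ^ (d - k) =
      √(Real.pi / b) ^ d / (2 * Real.pi) ^ k * √(Real.pi / (1 / (4 * b))) ^ k := by
    have e : √(Real.pi / b) * √(Real.pi / (1 / (4 * b))) = 2 * Real.pi := by
      rw [← Real.sqrt_mul (by positivity), Real.sqrt_eq_iff_mul_self_eq (by positivity)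
        (by positivity)]
      field_simp; norm_num
    have e0 : 0 < √(Real.pi / b) := Real.sqrt_pos.mpr (by positivity)
    have e1 : 0 < √(Real.pi / (1 / (4 * b))) := Real.sqrt_pos.mpr (by positivity)
    rw [pow_sub₀ _ e0.ne' hk, ← e, mul_pow]
    field_simp
  have key : ∀ u : E d, ∫ y : F, Real.exp (-b * ‖(y : E d) + u‖ ^ 2) =
      √(Real.pi / b) ^ d / (2 * Real.pi) ^ k *
        ∫ ξ : Fᗮ, Real.exp (-(1 / (4 * b)) * ‖ξ‖ ^ 2) * Real.cos ⟪u, (ξ : E d)⟫ := fun u => by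
    have h := integral_gauss_cos ha (Fᗮ.orthogonalProjectionOnto u)
    simp only [inner_proj] at h
    rw [(slice F hb u).2, h, hF, hH, hc, mul_assoc]
    congr 3; field_simp
  have hg := integrable_gauss (V := Fᗮ) ha
  have hb1 : ∀ y : F, bump b X ((y : E d) + z) =
      (∑ i, Real.exp (-b * ‖(y : E d) + (z - X i)‖ ^ 2)) / P := fun y => by
    simp only [bump, avg, add_sub_assoc]
  have hc1 : ∀ ξ : Fᗮ, Real.exp (-(1 / (4 * b)) * ‖ξ‖ ^ 2) * chi X ξ =
      (∑ i, Real.exp (-(1 / (4 * b)) * ‖ξ‖ ^ 2) * Real.cos ⟪X i, (ξ : E d)⟫) / P := fun ξ => by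
    simp only [chi, avg, ← Finset.mul_sum, mul_div_assoc]
  have hI1 : Integrable fun y : F => bump b X ((y : E d) + z) := by
    simp only [hb1]
    exact (integrable_finsetSum _ fun i _ => (slice F hb _).1).div_const _
  have hI2 : Integrable fun ξ : Fᗮ => Real.exp (-(1 / (4 * b)) * ‖ξ‖ ^ 2) * chi X ξ := by
    simp only [hc1]
    exact (integrable_finsetSum _ fun i _ => hi _).div_const _
  simp only [eg]
  rw [← ofReal_integral_eq_lintegral_ofReal hI1 (Filter.Eventually.of_forall fun y => by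
      simp only [hb1, Pi.zero_apply]; positivity),
    ← ofReal_integral_eq_lintegral_ofReal hI2 (Filter.Eventually.of_forall fun ξ =>
      mul_nonneg (Real.exp_pos _).le (hchi _)), ← ENNReal.ofReal_mul (by positivity)]
  refine ENNReal.ofReal_le_ofReal ?_
  simp only [hb1]
  rw [integral_div, integral_finsetSum _ fun i _ => (slice F hb _).1]
  simp only [key]
  rw [← Finset.mul_sum, mul_div_assoc, ← integral_finsetSum _ fun i _ => hi _, ← integral_div]
  refine mul_le_mul_of_nonneg_left (integral_mono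
    ((integrable_finsetSum _ fun i _ => hi _).div_const _) hI2 fun ξ => ?_) (by positivity)
  simp only [← Finset.mul_sum, sum_cos hS, mul_div_assoc]
  refine mul_le_mul_of_nonneg_left ?_ (Real.exp_pos _).le
  exact mul_le_of_le_one_left (hchi _) (Real.cos_le_one _)

end Pool.Agent.Lib.VD
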