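import Pool.Agent.Lib.VD.Blue

/-! A symmetric family with nonnegative characteristic function. -/

open scoped RealInnerProductSpace

namespace Pool.Agent.Lib.VD

namespace T97

/-- the family `(g, -g, 0, 0)` -/
noncomputable def quad {P d : ℕ} (g : Fin P → E d) (j : Fin (P * 4)) : E d :=
  (![1, -1, 0, 0] : Fin 4 → ℝ) (finProdFinEquiv.symm j).2 • g (finProdFinEquiv.symm j).1

lemma quad_sym {P d : ℕ} (g : Fin P → E d) : Sym (quad g) := by
  refine ⟨finProdFinEquiv.symm.trans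
    (((Equiv.refl (Fin P)).prodCongr (Equiv.swap (0 : Fin 4) 1)).trans finProdFinEquiv),
    fun j => ?_⟩
  obtain ⟨⟨i, t⟩, rfl⟩ := finProdFinEquiv.surjective j
  simp only [quad, Equiv.trans_apply, Equiv.symm_apply_apply, Equiv.prodCongr_apply, Prod.map,
    Equiv.refl_apply]
  fin_cases t <;> simp [Equiv.swap_apply_def]

lemma quad_norm {P d : ℕ} (g : Fin P → E d) (h : ∀ i, ‖g i‖ ^ 2 = d) (j : Fin (P * 4)) :
    ‖quad g j‖ ^ 2 ≤ d := by
  obtain ⟨⟨i, t⟩, rfl⟩ := finProdFinEquiv.surjective j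
  simp only [quad, Equiv.symm_apply_apply]
  fin_cases t <;> simp [h i]

lemma chi_quad {P d : ℕ} (hP : 1 ≤ P) (g : Fin P → E d) (ξ : E d) :
    chi (quad g) ξ = (1 + chi g ξ) / 2 := by
  have hP' : (P : ℝ) ≠ 0 := by positivity
  simp only [chi, avg]
  rw [← finProdFinEquiv.sum_comp, Fintype.sum_prod_type]
  simp only [quad, Equiv.symm_apply_apply, Fin.sum_univ_four]
  simp [Finset.sum_add_distrib]
  field_simp
  ring

lemma chi_ge {P d : ℕ} (hP : 1 ≤ P) (g : Fin P → E d) (ξ : E d) : -1 ≤ chi g ξ := by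
  have hP' : (0 : ℝ) < P := by positivity
  simp only [chi, avg]
  rw [le_div_iff₀ hP']
  calc -1 * (P : ℝ) = ∑ _i : Fin P, (-1 : ℝ) := by simp
    _ ≤ _ := Finset.sum_le_sum fun i _ => Real.neg_one_le_cos _

end T97

theorem st_FRAME (hSIGN : St_SIGN) : St_FRAME := by
  obtain ⟨A, κ, hA, hκ, H⟩ := hSIGN
  refine ⟨A * 4, κ / 2, by positivity, fun d hd => ?_⟩
  obtain ⟨g, h1, h2⟩ := H d hd
  have hP : 1 ≤ A * d := Nat.mul_pos hA hd
  refine ⟨A * d * 4, T97.quad g, by omega, le_of_eq (by ring), T97.quad_sym g,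
    T97.quad_norm g h1, fun ξ => ?_, fun ξ a b => ?_⟩
  · rw [T97.chi_quad hP]
    linarith [T97.chi_ge hP g ξ]
  · rw [T97.chi_quad hP]
    linarith [h2 ξ a b]

end Pool.Agent.Lib.VD
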