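import Pool.Agent.Lib.VD.Blue

open MeasureTheory Set Module Metric
open scoped RealInnerProductSpace ENNReal Pointwise

namespace Pool.Agent.Lib.VD

namespace T45

theorem Z_shift {n : ℕ} {T : Set (E n)} (hT : IsCompact T) {x : E n} (hx : ∀ y ∈ T, ⟪x, y⟫ ≤ 1)
    (ξ : E n) : Z T (ξ + x) ≤ Real.exp 1 * Z T ξ := by
  have hi : ∀ η : E n, IntegrableOn (fun y => Real.exp ⟪η, y⟫) T := fun η =>
    (by fun_prop : Continuous fun y : E n => Real.exp ⟪η, y⟫).continuousOn.integrableOn_compact hT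
  rw [Z, Z, ← integral_const_mul]
  refine setIntegral_mono_on (hi _) ((hi ξ).const_mul _) hT.measurableSet fun y hy => ?_
  rw [← Real.exp_add, inner_add_left]
  exact Real.exp_le_exp.mpr (by linarith [hx y hy])

theorem second_diff (r : ℕ → ℝ) {k : ℕ} (hk : 1 ≤ k) (h : r k - r 0 ≤ 2) :
    ∃ t ∈ Finset.range k, r (t + 1) - r t ≤ 2 / k := by
  have hk0 : (0 : ℝ) < k := by exact_mod_cast hk
  refine Finset.exists_le_of_sum_le ⟨0, Finset.mem_range.mpr hk⟩ ?_
  rw [Finset.sum_range_sub, Finset.sum_const, Finset.card_range, nsmul_eq_mul,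
    mul_div_cancel₀ _ hk0.ne']
  exact h

theorem pow_bound {n : ℕ} (hn : 1 ≤ n) (k : ℕ) : ((n : ℝ) + k) ^ n ≤ Real.exp k * (n : ℝ) ^ n := by
  have hn0 : (0 : ℝ) < n := by exact_mod_cast hn
  have h1 : (n : ℝ) + k ≤ Real.exp (k / n) * n := by
    have h := mul_le_mul_of_nonneg_right (Real.add_one_le_exp ((k : ℝ) / n)) hn0.le
    rwa [add_mul, div_mul_cancel₀ _ hn0.ne', one_mul, add_comm] at h
  calc ((n : ℝ) + k) ^ n ≤ (Real.exp (k / n) * n) ^ n := by gcongr
    _ = Real.exp k * (n : ℝ) ^ n := by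
      rw [mul_pow, ← Real.exp_nat_mul, mul_div_cancel₀ _ hn0.ne']

end T45

open T45 in
theorem st_GOOD (hP : St_POL) : St_GOOD := by
  intro n k K x hn hk hK hx
  obtain ⟨⟨r, hr, hrK⟩, -, hT, -, hxy, -, hZ⟩ := hP n K hK
  set T := pol K
  set G := {ξ | ξ ∈ ((n : ℝ) + k) • K ∧
    Z T (ξ + x) * Z T (ξ - x) ≤ Real.exp (2 / k) * Z T ξ ^ 2} with hG
  have hk0 : (0 : ℝ) < k := by exact_mod_cast hk
  have h0 : (0 : E n) ∈ K := hrK (mem_closedBall_self hr.le)
  have up : ∀ ξ, Real.log (Z T (ξ + x)) - Real.log (Z T ξ) ≤ 1 := fun ξ => by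
    have h := Real.log_le_log (hZ _)
      (Z_shift hT.1 (fun y hy => (abs_le.mp (hxy x hx y hy)).2) ξ)
    rw [Real.log_mul (Real.exp_pos _).ne' (hZ _).ne', Real.log_exp] at h
    linarith
  have dn : ∀ ξ, Real.log (Z T ξ) - Real.log (Z T (ξ + x)) ≤ 1 := fun ξ => by
    have h := Real.log_le_log (hZ _) (Z_shift hT.1 (x := -x) (fun y hy => by
      rw [inner_neg_left]; linarith [(abs_le.mp (hxy x hx y hy)).1]) (ξ + x))
    rw [Real.log_mul (Real.exp_pos _).ne' (hZ _).ne', Real.log_exp, add_neg_cancel_right] at h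
    linarith
  have hsub : (n : ℝ) • K ⊆ ⋃ t ∈ Finset.range k, (fun ξ => ξ + ((t : ℝ) + 1) • x) ⁻¹' G := by
    intro ξ hξ
    obtain ⟨t, ht, h⟩ := second_diff
      (fun t => Real.log (Z T (ξ + (t : ℝ) • x + x)) - Real.log (Z T (ξ + (t : ℝ) • x))) hk
      (by linarith [up (ξ + (k : ℝ) • x), dn (ξ + ((0 : ℕ) : ℝ) • x)])
    refine mem_biUnion ht ⟨?_, ?_⟩
    · have ht' : (t : ℝ) + 1 ≤ k := by exact_mod_cast Finset.mem_range.mp ht
      rw [hK.2.1.add_smul (Nat.cast_nonneg n) hk0.le]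
      refine add_mem_add hξ ⟨(((t : ℝ) + 1) / k) • x, hK.2.1.smul_mem_of_zero_mem h0 hx
        ⟨by positivity, (div_le_one hk0).mpr ht'⟩, ?_⟩
      simp only [smul_smul]
      rw [mul_div_cancel₀ _ hk0.ne']
    · have e1 : ξ + (t : ℝ) • x + x = ξ + ((t : ℝ) + 1) • x := by rw [add_smul, one_smul, add_assoc]
      have e2 : ξ + ((t : ℝ) + 1) • x - x = ξ + (t : ℝ) • x := by rw [← e1, add_sub_cancel_right]
      simp only [Nat.cast_add, Nat.cast_one, e1] at h
      simp only [e2]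
      rw [← Real.log_le_log_iff (mul_pos (hZ _) (hZ _))
        (mul_pos (Real.exp_pos _) (pow_pos (hZ _) 2)), Real.log_mul (hZ _).ne' (hZ _).ne',
        Real.log_mul (Real.exp_pos _).ne' (pow_pos (hZ _) 2).ne', Real.log_exp, Real.log_pow]
      push_cast
      linarith
  have h1 : volume ((n : ℝ) • K) ≤ k * volume G := by
    refine (measure_mono hsub).trans ((measure_biUnion_finset_le _ _).trans (le_of_eq ?_))
    simp only [measure_preimage_add_right, Finset.sum_const, Finset.card_range, nsmul_eq_mul]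
  have h2 : volume (((n : ℝ) + k) • K) ≤ ENNReal.ofReal (Real.exp k) * volume ((n : ℝ) • K) := by
    rw [Measure.addHaar_smul, Measure.addHaar_smul, finrank_euclideanSpace_fin, ← mul_assoc,
      ← ENNReal.ofReal_mul (Real.exp_pos _).le, abs_of_nonneg (by positivity),
      abs_of_nonneg (by positivity)]
    exact mul_le_mul_left (ENNReal.ofReal_le_ofReal (pow_bound hn k)) _
  refine h2.trans ((mul_le_mul_right h1 _).trans (le_of_eq ?_))
  rw [ENNReal.ofReal_mul hk0.le, ENNReal.ofReal_natCast]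
  ring

end Pool.Agent.Lib.VD
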