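import Pool.Agent.Lib.VD.Blue

open MeasureTheory Set Module Metric ProbabilityTheory
open scoped RealInnerProductSpace ENNReal Pointwise

namespace Pool.Agent.Lib.VD

namespace T77K

/-- scaling of Lebesgue integrals -/
theorem lint_smul {d : ℕ} (f : E d → ℝ≥0∞) (hf : Measurable f) {r : ℝ} (hr : 0 < r) :
    ∫⁻ x, f (r • x) = ENNReal.ofReal ((r ^ d)⁻¹) * ∫⁻ x, f x := by
  have h := Measure.map_addHaar_smul (volume : Measure (E d)) hr.ne'
  rw [finrank_euclideanSpace_fin, abs_of_pos (by positivity)] at h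
  rw [← lintegral_map hf (measurable_const_smul r), h, lintegral_smul_measure, smul_eq_mul]

noncomputable def gd (n : ℕ) : Measure (E n) :=
  volume.withDensity fun z => ENNReal.ofReal (Real.exp (-‖z‖ ^ 2 / 2))

theorem meas_g (n : ℕ) : Measurable fun z : E n => ENNReal.ofReal (Real.exp (-‖z‖ ^ 2 / 2)) := by
  fun_prop

theorem integ_g (n : ℕ) : Integrable fun z : E n => Real.exp (-‖z‖ ^ 2 / 2) := by
  have h := (GaussianFourier.integrable_cexp_neg_mul_sq_norm_add (V := E n) (b := (1 / 2 : ℂ))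
    (by norm_num) 0 0).norm
  refine h.congr (Filter.Eventually.of_forall fun z => ?_)
  simp only [zero_mul, add_zero, Complex.norm_exp]
  congr 1
  have : (-(1 / 2 : ℂ) * (‖z‖ : ℂ) ^ 2) = ((-‖z‖ ^ 2 / 2 : ℝ) : ℂ) := by push_cast; ring
  rw [this, Complex.ofReal_re]

instance (n : ℕ) : IsFiniteMeasure (gd n) :=
  isFiniteMeasure_withDensity_ofReal (integ_g n).2

theorem char_gd (n : ℕ) (t : E n) :
    charFun (gd n) t = ((Real.pi : ℂ) / (1 / 2)) ^ ((n : ℂ) / 2) * Complex.exp (-‖t‖ ^ 2 / 2) := by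
  have h := GaussianFourier.integral_cexp_neg_mul_sq_norm_add (V := E n) (b := (1 / 2 : ℂ))
    (by norm_num) Complex.I t
  rw [finrank_euclideanSpace_fin] at h
  rw [charFun_apply, gd, integral_withDensity_eq_integral_toReal_smul (meas_g n)
    (Filter.Eventually.of_forall fun _ => ENNReal.ofReal_lt_top)]
  have e1 : Complex.I ^ 2 * (‖t‖ : ℂ) ^ 2 / (4 * (1 / 2)) = -(‖t‖ : ℂ) ^ 2 / 2 := by
    rw [Complex.I_sq]; ring
  rw [e1] at h
  rw [← h]
  refine integral_congr_ae (Filter.Eventually.of_forall fun z => ?_)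
  simp only
  rw [ENNReal.toReal_ofReal (Real.exp_pos _).le, Complex.real_smul, Complex.ofReal_exp,
    ← Complex.exp_add, real_inner_comm]
  congr 1
  push_cast; ring

theorem gd_eq (n : ℕ) : gd n = (gd n univ) • stdGaussian (E n) := by
  have hfin : gd n univ ≠ ⊤ := measure_ne_top _ _
  have : IsFiniteMeasure ((gd n univ) • stdGaussian (E n)) := Measure.smul_finite _ hfin
  refine Measure.ext_of_charFun (funext fun t => ?_)
  have h0 := char_gd n 0
  rw [charFun_zero] at h0
  simp only [norm_zero, Complex.ofReal_zero, ne_eq, OfNat.ofNat_ne_zero, not_false_eq_true,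
    zero_pow, neg_zero, zero_div, Complex.exp_zero, mul_one] at h0
  rw [char_gd, ← h0, charFun_apply, integral_smul_measure, ← charFun_apply, charFun_stdGaussian,
    Complex.real_smul]
  rfl

/-- the linear map with columns `z j` -/
noncomputable def col {n m : ℕ} (z : Fin m → E n) : E m →ₗ[ℝ] E n where
  toFun u := ∑ j, u j • z j
  map_add' u v := by simp [add_smul, Finset.sum_add_distrib]
  map_smul' c u := by simp [Finset.smul_sum, mul_smul]

theorem law {n m : ℕ} (u : E m) :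
    (Measure.pi fun _ : Fin m => stdGaussian (E n)).map (fun z => col z u) =
      (stdGaussian (E n)).map (‖u‖ • ·) := by
  have hm : Measurable fun z : Fin m → E n => col z u := by
    show Measurable fun z : Fin m → E n => ∑ j, u j • z j
    fun_prop
  refine Measure.ext_of_charFun (funext fun t => ?_)
  rw [charFun_map_smul, charFun_stdGaussian, charFun_apply, integral_map hm.aemeasurable
    (by fun_prop)]
  have e : ∀ z : Fin m → E n, Complex.exp (⟪col z u, t⟫ * Complex.I) =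
      ∏ j, Complex.exp (⟪z j, u j • t⟫ * Complex.I) := by
    intro z
    rw [← Complex.exp_sum]
    congr 1
    show ((⟪∑ j, u j • z j, t⟫ : ℝ) : ℂ) * Complex.I = _
    rw [sum_inner]
    simp only [real_inner_smul_left, real_inner_smul_right]
    push_cast
    rw [Finset.sum_mul]
  simp_rw [e]
  rw [integral_fintype_prod_eq_prod (fun j (x : E n) => Complex.exp (⟪x, u j • t⟫ * Complex.I))]
  simp_rw [← charFun_apply, charFun_stdGaussian, ← Complex.exp_sum]
  congr 1
  have h2 : ‖u‖ ^ 2 = ∑ j, u j ^ 2 := by rw [EuclideanSpace.real_norm_sq_eq]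
  have e2 : ∀ r : ℝ, ((‖r • t‖ : ℝ) : ℂ) ^ 2 = ((r ^ 2 * ‖t‖ ^ 2 : ℝ) : ℂ) := by
    intro r
    rw [← Complex.ofReal_pow, norm_smul, mul_pow, Real.norm_eq_abs, sq_abs]
  simp_rw [e2]
  rw [h2]
  push_cast
  rw [Finset.sum_mul, ← Finset.sum_div, Finset.sum_neg_distrib]

/-- the kernel -/
noncomputable def kr (n : ℕ) (r s : ℝ) : ℝ≥0∞ :=
  ENNReal.ofReal ((s ^ n)⁻¹) * ENNReal.ofReal (Real.exp (-(r / s) ^ 2 / 2))

noncomputable def kap (n m : ℕ) : ℝ≥0∞ := ∫⁻ w : E m, kr n 1 ‖w‖

theorem meas_kr (n m : ℕ) : Measurable fun p : E n × E m => kr n ‖p.1‖ ‖p.2‖ := by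
  unfold kr; fun_prop

theorem kr_scale {n m : ℕ} (hmn : m < n) {r : ℝ} (hr : 0 < r) :
    ∫⁻ u : E m, kr n r ‖u‖ = kap n m * ENNReal.ofReal ((r ^ (n - m))⁻¹) := by
  have hf : Measurable fun u : E m => kr n r ‖u‖ := by unfold kr; fun_prop
  have h := lint_smul _ hf hr
  have e : ∀ w : E m, kr n r ‖r • w‖ = ENNReal.ofReal ((r ^ n)⁻¹) * kr n 1 ‖w‖ := by
    intro w
    unfold kr
    rw [norm_smul, Real.norm_eq_abs, abs_of_pos hr, mul_pow, mul_inv,
      ENNReal.ofReal_mul (by positivity), mul_assoc, div_mul_eq_div_div, div_self hr.ne']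
  simp_rw [e] at h
  rw [lintegral_const_mul' _ _ ENNReal.ofReal_ne_top] at h
  have h1 : ENNReal.ofReal (r ^ m) * ENNReal.ofReal ((r ^ m)⁻¹) = 1 := by
    rw [← ENNReal.ofReal_mul (by positivity), mul_inv_cancel₀ (by positivity), ENNReal.ofReal_one]
  have h2 : ENNReal.ofReal (r ^ m) * ENNReal.ofReal ((r ^ n)⁻¹) =
      ENNReal.ofReal ((r ^ (n - m))⁻¹) := by
    rw [← ENNReal.ofReal_mul (by positivity)]
    congr 1
    rw [pow_sub₀ _ hr.ne' hmn.le]
    field_simp
  calc ∫⁻ u : E m, kr n r ‖u‖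
      = ENNReal.ofReal (r ^ m) * (ENNReal.ofReal ((r ^ m)⁻¹) * ∫⁻ u : E m, kr n r ‖u‖) := by
        rw [← mul_assoc, h1, one_mul]
    _ = _ := by rw [← h, ← mul_assoc, h2, mul_comm]; rfl

theorem kap_ne_zero {n m : ℕ} (hm : 1 ≤ m) : kap n m ≠ 0 := by
  have : Nonempty (Fin m) := ⟨⟨0, hm⟩⟩
  intro h
  have hf : Measurable fun w : E m => kr n 1 ‖w‖ := by unfold kr; fun_prop
  rw [kap, lintegral_eq_zero_iff hf] at h
  have h0 : ∀ᵐ w : E m, w ≠ 0 := by simp [ae_iff]
  obtain ⟨w, hw, hw0⟩ := (h.and h0).exists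
  have hp : 0 < ‖w‖ := norm_pos_iff.2 hw0
  simp only [kr, Pi.zero_apply, mul_eq_zero, ENNReal.ofReal_eq_zero] at hw
  rcases hw with hw | hw
  · exact absurd hw (not_le.2 (by positivity))
  · exact absurd hw (not_le.2 (Real.exp_pos _))

theorem kr_le (n : ℕ) {s : ℝ} (hs : 0 ≤ s) :
    kr n 1 s ≤ ENNReal.ofReal (n.factorial * 4 ^ n) * ENNReal.ofReal ((1 + s) ^ (-(n : ℝ))) := by
  unfold kr
  rw [← ENNReal.ofReal_mul (by positivity), ← ENNReal.ofReal_mul (by positivity)]
  refine ENNReal.ofReal_le_ofReal ?_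
  rw [Real.rpow_neg (by positivity), Real.rpow_natCast]
  have hf : (1 : ℝ) ≤ n.factorial := by exact_mod_cast n.factorial_pos
  have h1s : 0 < (1 + s) ^ n := by positivity
  rw [← div_eq_mul_inv, le_div_iff₀ h1s]
  rcases le_total 1 s with h1 | h1
  · have he : Real.exp (-(1 / s) ^ 2 / 2) ≤ 1 := Real.exp_le_one_iff.2 (by
      have := sq_nonneg (1 / s); linarith)
    have hs0 : 0 < s ^ n := by positivity
    have h3 : (1 + s) ^ n ≤ 4 ^ n * s ^ n := by
      rw [← mul_pow]; exact pow_le_pow_left₀ (by positivity) (by linarith) n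
    calc (s ^ n)⁻¹ * Real.exp (-(1 / s) ^ 2 / 2) * (1 + s) ^ n
        ≤ (s ^ n)⁻¹ * 1 * (4 ^ n * s ^ n) := by gcongr
      _ = 1 * 4 ^ n := by field_simp
      _ ≤ _ := by gcongr
  · rcases hs.eq_or_lt with h0 | h0
    · subst h0
      rcases Nat.eq_zero_or_pos n with hn | hn
      · subst hn; simp
      · simp [hn.ne']
    have hs0 : 0 < s ^ n := by positivity
    have h3 : (1 + s) ^ n ≤ 2 ^ n := pow_le_pow_left₀ (by positivity) (by linarith) n
    have h4 := Real.pow_div_factorial_le_exp ((1 / s) ^ 2 / 2) (by positivity) n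
    have h5 : Real.exp (-(1 / s) ^ 2 / 2) ≤ n.factorial * (2 ^ n * (s ^ n * s ^ n)) := by
      rw [neg_div, Real.exp_neg, inv_le_comm₀ (Real.exp_pos _) (by positivity)]
      refine le_trans (le_of_eq ?_) h4
      rw [div_pow, ← pow_mul, mul_comm 2 n, pow_mul, div_pow, one_pow]
      field_simp
    have h6 : s ^ n ≤ 1 := pow_le_one₀ hs h1
    calc (s ^ n)⁻¹ * Real.exp (-(1 / s) ^ 2 / 2) * (1 + s) ^ n
        ≤ (s ^ n)⁻¹ * (n.factorial * (2 ^ n * (s ^ n * s ^ n))) * 2 ^ n := by gcongr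
      _ = n.factorial * (2 ^ n * 2 ^ n) * s ^ n := by field_simp
      _ ≤ n.factorial * (2 ^ n * 2 ^ n) * 1 := by gcongr
      _ = _ := by rw [← mul_pow]; norm_num

theorem kap_ne_top {n m : ℕ} (hmn : m < n) : kap n m ≠ ⊤ := by
  have h := finite_integral_one_add_norm (E := E m) (μ := volume) (r := (n : ℝ))
    (by rw [finrank_euclideanSpace_fin]; exact_mod_cast hmn)
  refine ne_top_of_le_ne_top ?_ (lintegral_mono fun w => kr_le n (norm_nonneg w))
  rw [lintegral_const_mul' _ _ ENNReal.ofReal_ne_top]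
  exact ENNReal.mul_ne_top ENNReal.ofReal_ne_top h.ne

theorem meas_col {n m : ℕ} : Measurable fun p : (Fin m → E n) × E m => col p.1 p.2 := by
  show Measurable fun p : (Fin m → E n) × E m => ∑ j, p.2 j • p.1 j
  fun_prop

theorem main {n m : ℕ} (hm : 1 ≤ m) (hmn : m < n) (F : E n → ℝ≥0∞) (hF : Measurable F) :
    gd n univ * ∫⁻ z, (∫⁻ u : E m, F (col z u)) ∂(Measure.pi fun _ : Fin m => stdGaussian (E n)) =
      kap n m * ∫⁻ x, F x * ENNReal.ofReal ((‖x‖ ^ (n - m))⁻¹) := by
  have : Nonempty (Fin m) := ⟨⟨0, hm⟩⟩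
  have : Nonempty (Fin n) := ⟨⟨0, by omega⟩⟩
  have h0 : ∀ᵐ w : E m, w ≠ 0 := by simp [ae_iff]
  have h0' : ∀ᵐ x : E n, x ≠ 0 := by simp [ae_iff]
  rw [lintegral_lintegral_swap (f := fun (z : Fin m → E n) (u : E m) => F (col z u))
    (hF.comp meas_col).aemeasurable,
    ← lintegral_const_mul' _ _ (measure_ne_top _ _)]
  have e1 : ∀ᵐ u : E m, gd n univ *
      ∫⁻ z, F (col z u) ∂(Measure.pi fun _ : Fin m => stdGaussian (E n)) =
      ∫⁻ x : E n, F x * kr n ‖x‖ ‖u‖ := by
    filter_upwards [h0] with u hu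
    have hp : 0 < ‖u‖ := norm_pos_iff.2 hu
    have hmu : Measurable fun z : Fin m → E n => col z u :=
      meas_col.comp (measurable_id.prodMk measurable_const)
    rw [← lintegral_map hF hmu, law, lintegral_map hF (measurable_const_smul _), ← smul_eq_mul,
      ← lintegral_smul_measure, ← gd_eq, gd, lintegral_withDensity_eq_lintegral_mul _ (meas_g n)
        (g := fun a : E n => F (‖u‖ • a)) (hF.comp (measurable_const_smul _))]
    have hg : Measurable fun x : E n =>
        F x * ENNReal.ofReal (Real.exp (-(‖x‖ / ‖u‖) ^ 2 / 2)) := by fun_prop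
    have h := lint_smul _ hg hp
    rw [← lintegral_const_mul' _ _ ENNReal.ofReal_ne_top] at h
    refine Eq.trans (lintegral_congr fun z => ?_) (h.trans (lintegral_congr fun x => ?_))
    · simp only [Pi.mul_apply]
      rw [norm_smul, norm_norm, mul_div_cancel_left₀ _ hp.ne', mul_comm]
    · unfold kr; ring
  rw [lintegral_congr_ae e1, ← lintegral_lintegral_swap
    (f := fun (x : E n) (u : E m) => F x * kr n ‖x‖ ‖u‖) ((hF.comp measurable_fst).mul (meas_kr n m)).aemeasurable,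
    ← lintegral_const_mul' _ _ (kap_ne_top hmn)]
  refine lintegral_congr_ae ?_
  filter_upwards [h0'] with x hx
  have hk : Measurable fun u : E m => kr n ‖x‖ ‖u‖ := by unfold kr; fun_prop
  rw [lintegral_const_mul _ hk, kr_scale hmn (norm_pos_iff.2 hx)]
  ring

end T77K

open T77K in
theorem st_KER : St_KER := by
  intro n m F G a c hm hmn hF hG h
  have hF' : Measurable fun z : Fin m → E n => ∫⁻ u : E m, F (col z u) :=
    (hF.comp meas_col).lintegral_prod_right'
  have hG' : Measurable fun z : Fin m → E n => ∫⁻ u : E m, G (col z u) :=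
    (hG.comp meas_col).lintegral_prod_right'
  have h1 := lintegral_mono (μ := Measure.pi fun _ : Fin m => stdGaussian (E n))
    fun z : Fin m → E n => h (col z)
  rw [lintegral_const_mul _ hF', lintegral_const_mul _ hG'] at h1
  have h2 := mul_le_mul_right h1 (gd n univ)
  rw [mul_left_comm, main hm hmn F hF, mul_left_comm (gd n univ), main hm hmn G hG,
    mul_left_comm, mul_left_comm c] at h2
  exact (ENNReal.mul_le_mul_iff_right (kap_ne_zero hm) (kap_ne_top hmn)).1 h2

end Pool.Agent.Lib.VD
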