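import Pool.Agent.Lib.VD.H77

open MeasureTheory Set Module Metric
open scoped RealInnerProductSpace ENNReal Pointwise

namespace Pool.Agent.Lib.VD

namespace T77L

theorem vol_root {C : ℝ} (hC : 0 < C) {d : ℕ} (hd : 1 ≤ d) :
    √d * (C / √d) ^ d ≤ (2 * (2 * C + 1) / √((d + 1 : ℕ) : ℝ)) ^ (d + 1) := by
  have hd0 : (1 : ℝ) ≤ d := by exact_mod_cast hd
  have hs : 0 < √(d : ℝ) := Real.sqrt_pos.2 (by linarith)
  have h1 : √((d + 1 : ℕ) : ℝ) ≤ 2 * √d := by
    rw [Real.sqrt_le_left (by positivity), mul_pow, Real.sq_sqrt (by linarith)]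
    push_cast; linarith
  have h2 : (2 * C + 1) / √d ≤ 2 * (2 * C + 1) / √((d + 1 : ℕ) : ℝ) := by
    rw [div_le_div_iff₀ hs (Real.sqrt_pos.2 (by positivity))]
    nlinarith
  refine le_trans ?_ (pow_le_pow_left₀ (by positivity) h2 _)
  have h3 : (d : ℝ) ≤ 2 ^ d := by exact_mod_cast Nat.lt_two_pow_self.le
  have h4 : (2 * C) ^ d ≤ (2 * C + 1) ^ d := pow_le_pow_left₀ (by positivity) (by linarith) _
  have h5 : √(d : ℝ) * √d = d := Real.mul_self_sqrt (by linarith)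
  rw [pow_succ, div_pow, div_pow, div_mul_div_comm, ← mul_div_assoc,
    div_le_div_iff₀ (by positivity) (by positivity)]
  have h6 : (d : ℝ) * C ^ d ≤ (2 * C + 1) ^ d * (2 * C + 1) := by
    calc (d : ℝ) * C ^ d ≤ 2 ^ d * C ^ d := by gcongr
      _ = (2 * C) ^ d * 1 := by rw [mul_pow, mul_one]
      _ ≤ _ := by gcongr; linarith
  calc √(d : ℝ) * C ^ d * (√d ^ d * √d) = (√(d : ℝ) * √d * C ^ d) * √d ^ d := by ring
    _ ≤ _ := by rw [h5]; gcongr

end T77L

open T77 T77L in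
theorem st_LOW (hF : St_FIN) (hP : St_POL) (hR : St_PAIR) : St_LOW := by
  obtain ⟨C, hC, h⟩ := hR
  set C' := 2 * (2 * C + 1) with hC'
  have hC'0 : 0 < C' := by positivity
  refine ⟨1 / (2 * C * C'), by positivity, fun n k γ hk hkn hγ hV => ?_⟩
  obtain ⟨d, rfl⟩ : ∃ d, n = d + 1 := ⟨n - 1, by omega⟩
  obtain ⟨K, L, t, hK, hL, hLK, ht, hvol, hdiff, hsec⟩ := h d k hk (by omega)
  have hk0 : (0 : ℝ) < k := by exact_mod_cast hk
  have hn : (0 : ℝ) < ((d + 1 : ℕ) : ℝ) := by positivity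
  have hkn' : (k : ℝ) + 1 ≤ ((d + 1 : ℕ) : ℝ) := by exact_mod_cast hkn
  have h1 := hV K L hK hL hLK (t * (C * √k) ^ k) (by
    intro F hFr
    obtain ⟨h3, h4⟩ := sec_diff hF hK.1 hL.1 hLK F hFr
    rw [← h4, ← ENNReal.le_ofReal_iff_toReal_le h3 (by positivity)]
    exact hsec F hFr)
  set n : ℝ := ((d + 1 : ℕ) : ℝ) with hnd
  have hb : 0 < (volume L).toReal :=
    ENNReal.toReal_pos (hP _ L hL).2.1.ne' hL.1.measure_lt_top.ne
  have hba : (volume L).toReal ≤ (volume K).toReal :=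
    ENNReal.toReal_mono hK.1.measure_lt_top.ne (measure_mono hLK)
  have ha := hb.trans_le hba
  have e : (n - k) / n = 1 - k / n := by field_simp
  have hq1 : (k : ℝ) / n ≤ 1 := by rw [div_le_one hn]; linarith
  have h2 := rpow_low (q := (k : ℝ) / n) hb hba (by positivity) hq1
  rw [e] at h1
  have hsn : 0 < √n := Real.sqrt_pos.2 hn
  have h3 : (volume K).toReal ^ ((k : ℝ) / n) ≤ (C' / √n) ^ k := by
    have h4 := hvol.trans (vol_root hC (by omega))
    refine (Real.rpow_le_rpow ha.le h4 (by positivity)).trans (le_of_eq ?_)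
    rw [← Real.rpow_natCast, ← Real.rpow_mul (by positivity), ← Real.rpow_natCast]
    congr 1
    rw [← hnd]
    field_simp
  have h5 : (1 / 2 : ℝ) ^ k ≤ 1 - k / n := by
    have h6 : (k : ℝ) + 1 ≤ 2 ^ k := by exact_mod_cast Nat.lt_two_pow_self
    have h7 : (k : ℝ) / n ≤ k / (k + 1) := by gcongr
    have h8 : (1 / 2 : ℝ) ^ k ≤ 1 / (k + 1) := by
      rw [div_pow, one_pow]; gcongr
    have h9 : (1 : ℝ) / (k + 1) = 1 - k / (k + 1) := by field_simp; ring
    linarith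
  have h10 : (1 / 2 : ℝ) ^ k * t ≤ γ ^ k * (t * (C * √k) ^ k) * (C' / √n) ^ k := by
    calc (1 / 2 : ℝ) ^ k * t ≤ (1 - k / n) * ((volume K).toReal - (volume L).toReal) :=
          mul_le_mul h5 hdiff ht.le (by linarith)
      _ ≤ _ := h2
      _ ≤ γ ^ k * (t * (C * √k) ^ k) * (volume K).toReal ^ ((k : ℝ) / n) := by gcongr
      _ ≤ _ := by gcongr
  have h11 : (1 / 2 : ℝ) ^ k ≤ (γ * (C * √k) * (C' / √n)) ^ k := by
    refine le_of_mul_le_mul_right (h10.trans (le_of_eq ?_)) ht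
    rw [mul_pow (γ * _), mul_pow γ]; ring
  have h12 := (pow_le_pow_iff_left₀ (by positivity) (by positivity) (by omega)).1 h11
  have hsk : 0 < √(k : ℝ) := Real.sqrt_pos.2 hk0
  rw [Real.sqrt_div hn.le, div_mul_div_comm, one_mul, div_le_iff₀ (by positivity)]
  rw [← mul_div_assoc, le_div_iff₀ hsn] at h12
  nlinarith

end Pool.Agent.Lib.VD
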