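import Pool.Agent.Lib.VD.Gau

open MeasureTheory Set Module Metric
open scoped RealInnerProductSpace ENNReal Pointwise

namespace Pool.Agent.Lib.VD

namespace T56

theorem mass_one {d : ℕ} (hd : 1 ≤ d) {A : Set (E d)} (hA : MeasurableSet A) (a : E d)
    (ha : ∀ x, ‖x - a‖ ≤ 3 → x ∈ A) :
    ENNReal.ofReal (√(Real.pi / d) ^ d / 2) ≤
      ∫⁻ x in A, ENNReal.ofReal (Real.exp (-(d : ℝ) * ‖x - a‖ ^ 2)) := by
  have hd0 : (0 : ℝ) < d := by exact_mod_cast hd
  have g : ∀ b : ℝ, 0 < b → ∫⁻ x : E d, ENNReal.ofReal (Real.exp (-b * ‖x - a‖ ^ 2)) =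
      ENNReal.ofReal (√(Real.pi / b) ^ d) := fun b hb => by
    rw [lintegral_sub_right_eq_self (fun x : E d => ENNReal.ofReal (Real.exp (-b * ‖x‖ ^ 2))) a,
      Gau.lintegral_gauss hb, finrank_euclideanSpace_fin]
  have q : Real.exp (-(9 / 2)) * √2 ≤ 1 / 2 := by
    have h1 : √2 ≤ 2 := Real.sqrt_le_iff.2 (by norm_num)
    have h2 := Real.add_one_le_exp (9 / 2)
    have h3 : Real.exp (-(9 / 2)) * Real.exp (9 / 2) = 1 := by rw [← Real.exp_add]; simp
    have h4 := Real.exp_pos (-(9 / 2))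
    nlinarith
  have tail : ∫⁻ x in Aᶜ, ENNReal.ofReal (Real.exp (-(d : ℝ) * ‖x - a‖ ^ 2)) ≤
      ENNReal.ofReal (√(Real.pi / d) ^ d / 2) := by
    calc _ ≤ ∫⁻ x in Aᶜ, ENNReal.ofReal (Real.exp (-(9 / 2)) ^ d) *
          ENNReal.ofReal (Real.exp (-((d : ℝ) / 2) * ‖x - a‖ ^ 2)) := by
          refine setLIntegral_mono' hA.compl fun x hx => ?_
          rw [← ENNReal.ofReal_mul (by positivity), ← Real.exp_nat_mul, ← Real.exp_add]
          refine ENNReal.ofReal_le_ofReal (Real.exp_le_exp.2 ?_)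
          have h3 : 3 < ‖x - a‖ := not_le.1 fun h => hx (ha x h)
          have : 9 ≤ ‖x - a‖ ^ 2 := by nlinarith
          nlinarith
      _ ≤ ENNReal.ofReal (Real.exp (-(9 / 2)) ^ d) * ENNReal.ofReal (√(Real.pi / (d / 2)) ^ d) := by
          rw [← g _ (by positivity), ← lintegral_const_mul' _ _ ENNReal.ofReal_ne_top]
          exact setLIntegral_le_lintegral _ _
      _ ≤ _ := by
          rw [← ENNReal.ofReal_mul (by positivity), ← mul_pow,
            show Real.pi / (d / 2) = 2 * (Real.pi / d) by field_simp, Real.sqrt_mul (by norm_num),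
            ← mul_assoc, mul_pow]
          refine ENNReal.ofReal_le_ofReal ?_
          have h1 : (Real.exp (-(9 / 2)) * √2) ^ d ≤ 1 / 2 :=
            (pow_le_of_le_one (by positivity) (by linarith) (by omega)).trans q
          have h2 : 0 ≤ √(Real.pi / d) ^ d := by positivity
          nlinarith
  have e := lintegral_add_compl (μ := volume)
    (fun x : E d => ENNReal.ofReal (Real.exp (-(d : ℝ) * ‖x - a‖ ^ 2))) hA
  rw [g _ hd0, ← add_halves (√(Real.pi / d) ^ d),
    ENNReal.ofReal_add (by positivity) (by positivity)] at e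
  exact (ENNReal.add_le_add_iff_right ENNReal.ofReal_ne_top).1
    (e.symm.le.trans (add_le_add_right tail _))

end T56

theorem st_MASS : St_MASS := by
  intro d N P w X hd hP hA hX
  have hP0 : (0 : ℝ) < P := by exact_mod_cast hP
  have e : ∀ x, ENNReal.ofReal (bump d X x) = ENNReal.ofReal (P : ℝ)⁻¹ *
      ∑ i, ENNReal.ofReal (Real.exp (-(d : ℝ) * ‖x - X i‖ ^ 2)) := fun x => by
    rw [← ENNReal.ofReal_sum_of_nonneg fun _ _ => (Real.exp_pos _).le,
      ← ENNReal.ofReal_mul (by positivity), bump, avg, div_eq_inv_mul]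
  simp only [e]
  rw [lintegral_const_mul' _ _ ENNReal.ofReal_ne_top, lintegral_finsetSum _ fun i _ => by fun_prop]
  refine le_trans (le_of_eq ?_) (mul_le_mul_right (Finset.sum_le_sum fun i _ =>
    T56.mass_one hd hA (X i) fun x h => ⟨X i, hX i, h⟩) _)
  rw [← ENNReal.ofReal_sum_of_nonneg fun _ _ => by positivity, ← ENNReal.ofReal_mul (by positivity)]
  congr 1
  simp only [Finset.sum_const, Finset.card_univ, Fintype.card_fin, nsmul_eq_mul]
  field_simp

end Pool.Agent.Lib.VD
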