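import Pool.Agent.Lib.VD.Blue

open MeasureTheory Set Module Metric
open scoped RealInnerProductSpace ENNReal Pointwise

namespace Pool.Agent.Lib.VD

namespace P66

theorem exp_le_sub {t : ℝ} (h0 : 0 ≤ t) (h1 : t ≤ 1 / 2) : Real.exp (-(2 * t)) ≤ 1 - t := by
  rw [Real.exp_neg, inv_le_iff_one_le_mul₀ (Real.exp_pos _)]
  have := Real.add_one_le_exp (2 * t)
  nlinarith [mul_le_mul_of_nonneg_left this (show 0 ≤ 1 - t by linarith),
    mul_nonneg h0 (show 0 ≤ 1 - 2 * t by linarith)]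

theorem cont_f {n : ℕ} (ξ : E n) : Continuous fun y : E n => Real.exp ⟪ξ, y⟫ := by fun_prop

/-- Markov inequality for the tilted measure -/
theorem markov {n : ℕ} {T : Set (E n)} {ξ : E n} {Φ : E n →ₗ[ℝ] E n} {b : E n} {α : ℝ}
    (hn : 1 ≤ n) (hT : IsCompact T) (hα : 0 < α)
    (hI : ∫ y in T, ‖Φ y - b‖ ^ 2 * Real.exp ⟪ξ, y⟫ ≤ n * Z T ξ) :
    (1 - 1 / α ^ 2) * Z T ξ ≤ ∫ y in T ∩ {y | ‖Φ y - b‖ ≤ α * √n}, Real.exp ⟪ξ, y⟫ := by
  have hn' : (0 : ℝ) < n := by exact_mod_cast hn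
  have hΦ : Continuous Φ := Φ.continuous_of_finiteDimensional
  have hm : MeasurableSet {y : E n | ‖Φ y - b‖ ≤ α * √n} :=
    (isClosed_le (by fun_prop) continuous_const).measurableSet
  have hf : IntegrableOn (fun y : E n => Real.exp ⟪ξ, y⟫) T :=
    (cont_f ξ).continuousOn.integrableOn_compact hT
  have hg : IntegrableOn (fun y : E n => ‖Φ y - b‖ ^ 2 * Real.exp ⟪ξ, y⟫) T :=
    (Continuous.continuousOn (by fun_prop)).integrableOn_compact hT
  rw [← setIntegral_indicator hm]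
  have h1 : ∫ y in T, (Real.exp ⟪ξ, y⟫ - (α ^ 2 * n)⁻¹ * (‖Φ y - b‖ ^ 2 * Real.exp ⟪ξ, y⟫)) ≤
      ∫ y in T, {y : E n | ‖Φ y - b‖ ≤ α * √n}.indicator (fun y => Real.exp ⟪ξ, y⟫) y := by
    refine integral_mono (hf.sub (hg.const_mul _)) (hf.indicator hm) fun y => ?_
    by_cases hy : y ∈ {y : E n | ‖Φ y - b‖ ≤ α * √n}
    · simp only [indicator_of_mem hy]
      have : 0 ≤ (α ^ 2 * n)⁻¹ * (‖Φ y - b‖ ^ 2 * Real.exp ⟪ξ, y⟫) := by positivity
      linarith
    · simp only [indicator_of_notMem hy]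
      have hy' : α * √n < ‖Φ y - b‖ := not_le.1 hy
      have h2 : α ^ 2 * n ≤ ‖Φ y - b‖ ^ 2 := by
        have := pow_le_pow_left₀ (by positivity) hy'.le 2
        rwa [mul_pow, Real.sq_sqrt hn'.le] at this
      rw [sub_nonpos, ← mul_assoc]
      refine le_mul_of_one_le_left (Real.exp_pos _).le ?_
      rw [inv_mul_eq_div, one_le_div (by positivity)]
      exact h2
  refine le_trans ?_ h1
  rw [integral_sub hf (hg.const_mul _), integral_const_mul]
  have h3 : (α ^ 2 * n)⁻¹ * ∫ y in T, ‖Φ y - b‖ ^ 2 * Real.exp ⟪ξ, y⟫ ≤ 1 / α ^ 2 * Z T ξ := by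
    refine (mul_le_mul_of_nonneg_left hI (by positivity)).trans (le_of_eq ?_)
    field_simp
  unfold Z at h3 ⊢
  linarith

/-- separated families are small -/
theorem count {n : ℕ} {T V : Set (E n)} {ξ : E n} {Φ : E n →ₗ[ℝ] E n} {δ ρ : ℝ}
    (hT : IsCompact T) (hc : Convex ℝ T) (hV : IsCompact V) (hVT : V ⊆ T)
    (hξ : ∀ y ∈ T, |⟪ξ, y⟫| ≤ 2 * n) (h0 : 0 < δ) (h1 : δ ≤ 1 / 2)
    (hρ : ∀ y ∈ V, ∀ y' ∈ V, ‖Φ y - Φ y'‖ ≤ δ * ρ) (S : Finset (E n)) (hS : ∀ p ∈ S, p ∈ T)
    (hsep : ∀ p ∈ S, ∀ q ∈ S, p ≠ q → ρ < ‖Φ p - Φ q‖) :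
    S.card * (Real.exp (-(6 * δ * n)) * ∫ y in V, Real.exp ⟪ξ, y⟫) ≤ Z T ξ := by
  have hd : 0 < 1 - δ := by linarith
  set g : E n → ℝ := V.indicator fun y => Real.exp ⟪ξ, y⟫ with hg
  have hgi : Integrable g := (integrable_indicator_iff hV.measurableSet).2
    ((cont_f ξ).continuousOn.integrableOn_compact hV)
  set G : E n → E n → ℝ := fun p x => g ((1 - δ)⁻¹ • (x - δ • p)) with hG
  have hGi : ∀ p, Integrable (G p) := fun p =>
    (hgi.comp_smul (inv_pos.2 hd).ne').comp_sub_right (δ • p)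
  have hGI : ∀ p, ∫ x, G p x = (1 - δ) ^ n * ∫ y in V, Real.exp ⟪ξ, y⟫ := fun p => by
    rw [hG]
    simp only
    rw [integral_sub_right_eq_self (fun x => g ((1 - δ)⁻¹ • x)) (δ • p),
      Measure.integral_comp_inv_smul_of_nonneg volume g hd.le, finrank_euclideanSpace_fin,
      smul_eq_mul, hg, integral_indicator hV.measurableSet]
  have hfi : Integrable (T.indicator fun y => Real.exp ⟪ξ, y⟫) :=
    (integrable_indicator_iff hT.measurableSet).2 ((cont_f ξ).continuousOn.integrableOn_compact hT)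
  have hx : ∀ p x : E n, x = (1 - δ) • ((1 - δ)⁻¹ • (x - δ • p)) + δ • p := fun p x => by
    rw [smul_smul, mul_inv_cancel₀ hd.ne', one_smul, sub_add_cancel]
  have hpt : ∀ x, ∑ p ∈ S, Real.exp (-(4 * δ * n)) * G p x ≤
      T.indicator (fun y => Real.exp ⟪ξ, y⟫) x := fun x => by
    by_cases hex : ∃ p ∈ S, (1 - δ)⁻¹ • (x - δ • p) ∈ V
    · obtain ⟨p, hp, hy⟩ := hex
      rw [Finset.sum_eq_single_of_mem p hp]
      · set y := (1 - δ)⁻¹ • (x - δ • p) with hy0
        have hxe : x = (1 - δ) • y + δ • p := hx p x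
        have hxT : x ∈ T := by
          rw [hxe]; exact hc (hVT hy) (hS p hp) hd.le h0.le (by ring)
        rw [indicator_of_mem hxT, hG]
        simp only
        have e : ⟪ξ, x⟫ = (1 - δ) * ⟪ξ, y⟫ + δ * ⟪ξ, p⟫ := by
          rw [← real_inner_smul_right, ← real_inner_smul_right, ← inner_add_right, ← hxe]
        rw [← hy0, hg, indicator_of_mem hy, ← Real.exp_add, Real.exp_le_exp, e]
        have a1 := abs_le.1 (hξ y (hVT hy))
        have a2 := abs_le.1 (hξ p (hS p hp))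
        nlinarith [mul_le_mul_of_nonneg_left a1.2 h0.le, mul_le_mul_of_nonneg_left a2.1 h0.le]
      · intro q hq hqp
        have hq' : (1 - δ)⁻¹ • (x - δ • q) ∉ V := fun hy' => by
          have h2 := hρ _ hy _ hy'
          have h3 := hsep q hq p hp hqp
          have e : Φ ((1 - δ)⁻¹ • (x - δ • p)) - Φ ((1 - δ)⁻¹ • (x - δ • q)) =
              ((1 - δ)⁻¹ * δ) • (Φ q - Φ p) := by
            simp only [map_smul, map_sub]
            module
          rw [e, norm_smul, Real.norm_of_nonneg (by positivity), mul_assoc,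
            inv_mul_le_iff₀ hd] at h2
          have h4 : 0 ≤ δ * ρ := (norm_nonneg _).trans (hρ _ hy _ hy)
          nlinarith [mul_lt_mul_of_pos_left h3 h0, mul_nonneg h0.le h4]
        rw [hG]
        simp only
        rw [hg, indicator_of_notMem hq', mul_zero]
    · rw [Finset.sum_eq_zero fun p hp => ?_]
      · exact indicator_nonneg (fun y _ => (Real.exp_pos _).le) x
      · rw [hG]
        simp only
        rw [hg, indicator_of_notMem fun h => hex ⟨p, hp, h⟩, mul_zero]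
  have hint := integral_mono (integrable_finsetSum S fun p _ => (hGi p).const_mul _) hfi hpt
  rw [integral_finsetSum S fun p _ => (hGi p).const_mul _,
    integral_indicator hT.measurableSet] at hint
  simp only [integral_const_mul, hGI, Finset.sum_const, nsmul_eq_mul] at hint
  refine le_trans ?_ hint
  have hI : 0 ≤ ∫ y in V, Real.exp ⟪ξ, y⟫ := integral_nonneg fun y => (Real.exp_pos _).le
  refine mul_le_mul_of_nonneg_left ?_ (by positivity)
  rw [← mul_assoc]
  refine mul_le_mul_of_nonneg_right ?_ hI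
  have h5 := pow_le_pow_left₀ (Real.exp_pos _).le (exp_le_sub h0.le h1) n
  refine le_trans (le_of_eq ?_) (mul_le_mul_of_nonneg_left h5 (Real.exp_pos _).le)
  rw [← Real.exp_nat_mul, ← Real.exp_add]
  congr 1
  ring

end P66

open P66 in
theorem st_PACK : St_PACK := by
  classical
  intro n T ξ Φ b δ α hn hT hc hv hξ hI h0 h1 hα hα2
  have hΦ : Continuous Φ := Φ.continuous_of_finiteDimensional
  have hZ : 0 < Z T ξ := by
    unfold Z
    rw [setIntegral_pos_iff_support_of_nonneg_ae (ae_of_all _ fun y => (Real.exp_pos _).le)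
      ((cont_f ξ).continuousOn.integrableOn_compact hT)]
    have : (Function.support fun y : E n => Real.exp ⟪ξ, y⟫) = univ :=
      eq_univ_of_forall fun y => (Real.exp_pos _).ne'
    rwa [this, univ_inter]
  set ρ := 2 * α * √n / δ with hρ
  have hρ0 : 0 ≤ ρ := by positivity
  have hV : IsCompact (T ∩ {y | ‖Φ y - b‖ ≤ α * √n}) :=
    hT.inter_right (isClosed_le (by fun_prop) continuous_const)
  have hcard : ∀ S : Finset (E n), (∀ p ∈ S, p ∈ T) →
      (∀ p ∈ S, ∀ q ∈ S, p ≠ q → ρ < ‖Φ p - Φ q‖) →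
      (S.card : ℝ) ≤ Real.exp (6 * δ * n + 2 / α ^ 2) := fun S hS hsep => by
    have h2 := count (Φ := Φ) (ρ := ρ) hT hc hV inter_subset_left hξ h0 h1 (fun y hy y' hy' => by
      have e : δ * ρ = α * √n + α * √n := by rw [hρ]; field_simp; ring
      have e2 : Φ y - Φ y' = (Φ y - b) - (Φ y' - b) := by abel
      rw [e, e2]
      exact (norm_sub_le _ _).trans (add_le_add hy.2 hy'.2)) S hS hsep
    have h3 := markov hn hT hα hI
    have h4 : Real.exp (-(2 * (1 / α ^ 2))) ≤ 1 - 1 / α ^ 2 :=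
      exp_le_sub (by positivity) (one_div_le_one_div_of_le (by norm_num) hα2)
    have h5 := (mul_le_mul_of_nonneg_right h4 hZ.le).trans h3
    have h6 := (mul_le_mul_of_nonneg_left (mul_le_mul_of_nonneg_left h5
      (Real.exp_pos (-(6 * δ * n))).le) (Nat.cast_nonneg (α := ℝ) S.card)).trans h2
    rw [← mul_assoc (Real.exp _), ← mul_assoc, mul_le_iff_le_one_left hZ, ← Real.exp_add] at h6
    have e : -(6 * δ * n) + -(2 * (1 / α ^ 2)) = -(6 * δ * n + 2 / α ^ 2) := by ring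
    rwa [e, Real.exp_neg, mul_inv_le_iff₀ (Real.exp_pos _), one_mul] at h6
  set A : Set ℕ := {m | ∃ S : Finset (E n), S.card = m ∧ (∀ p ∈ S, p ∈ T) ∧
    ∀ p ∈ S, ∀ q ∈ S, p ≠ q → ρ < ‖Φ p - Φ q‖} with hA
  have hbd : BddAbove A := ⟨⌈Real.exp (6 * δ * n + 2 / α ^ 2)⌉₊, by
    rintro m ⟨S, rfl, hS, hsep⟩
    exact_mod_cast (hcard S hS hsep).trans (Nat.le_ceil _)⟩
  obtain ⟨S, hSc, hS, hsep⟩ := Nat.sSup_mem (s := A) ⟨0, ∅, rfl, by simp, by simp⟩ hbd
  refine ⟨S.image Φ, le_trans (by exact_mod_cast Finset.card_image_le) (hcard S hS hsep),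
    fun y hy => ?_⟩
  by_contra hno
  push Not at hno
  have hfar : ∀ p ∈ S, ρ < ‖Φ y - Φ p‖ := fun p hp => hno _ (Finset.mem_image_of_mem _ hp)
  have hyS : y ∉ S := fun h => by
    have := hfar y h
    rw [sub_self, norm_zero] at this
    linarith
  have hmem : (insert y S).card ∈ A := ⟨_, rfl, fun p hp => by
    rcases Finset.mem_insert.1 hp with rfl | hp
    exacts [hy, hS p hp], fun p hp q hq hpq => by
    rcases Finset.mem_insert.1 hp with h | h <;> rcases Finset.mem_insert.1 hq with h' | h'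
    · exact absurd (h.trans h'.symm) hpq
    · rw [h]; exact hfar q h'
    · rw [h', norm_sub_rev]; exact hfar p h
    · exact hsep p h q h' hpq⟩
  have := le_csSup hbd hmem
  rw [Finset.card_insert_of_notMem hyS] at this
  omega

end Pool.Agent.Lib.VD
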