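import Pool.Agent.Lib.VD.Blue

open MeasureTheory Set Module Metric
open scoped RealInnerProductSpace ENNReal Pointwise

namespace Pool.Agent.Lib.VD

theorem st_PAIR (hFr : St_FRAME) (hCh : St_CHAR) (hFo : St_FOUR) (hSh : St_SHELL) (hBa : St_BASE)
    (hMa : St_MASS) (hCo : St_CONC) (hBo : St_BODY) (hSe : St_SECT) : St_PAIR := by
  obtain ⟨A, κ, hκ, hFr⟩ := hFr
  obtain ⟨s, hs, hCh⟩ := hCh κ hκ
  obtain ⟨C1, hC1, hSh⟩ := hSh s hs
  obtain ⟨C2, hC2, hBa⟩ := hBa A
  refine ⟨16 * (C1 + C2), by positivity, fun d k hk hkd => ?_⟩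
  have hd : 1 ≤ d := hk.trans hkd
  have hd0 : (0 : ℝ) < d := by exact_mod_cast hd
  have hsd : 0 < √(d : ℝ) := Real.sqrt_pos.2 hd0
  obtain ⟨N, w, hN, hNA, hw, hwn, hw0, hw1⟩ := hFr d hd
  obtain ⟨J, hJ⟩ := hSh k d hk hd0
  obtain ⟨P, X, hP, hX, hXw, hXd⟩ := hCh d N k J w hN hk hw hw0 hw1
  obtain ⟨hK0, hK0R, hab, hK0v⟩ := hBa d N w hd hNA hwn
  set R : ℝ := 4 * √d with hR
  have hR0 : 0 < R := by positivity
  obtain ⟨hcv, hct, hev, hbd, hη⟩ := hCo d P d X hP hd0 hX
  obtain ⟨η, hη0, hη⟩ := hη R hR0 fun i => mem_closedBall_zero_iff.1 (hab (hXw i))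
  set G : ℝ := √(Real.pi / d) ^ d with hG
  have hG0 : 0 < G := by have := Real.pi_pos; positivity
  set D : ℝ := G / (2 * Real.pi) ^ k * (C1 * √k) ^ k with hD
  obtain ⟨ε, hε, hεR, hsec⟩ := hSe d k (base w) (bump d X) R d D η hk hkd hK0 hR0 hK0R hd0 hη0 hct
    hev hbd hη (by
      intro F z hF
      refine (hFo d k P d X F z hP hkd hd0 hX (fun ξ => (hXd ξ).1) hF).trans ?_
      have hr : finrank ℝ Fᗮ = k := by
        have := F.finrank_add_finrank_orthogonal
        rw [hF, finrank_euclideanSpace_fin] at this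
        omega
      rw [hD, ENNReal.ofReal_mul (by have := Real.pi_pos; positivity)]
      gcongr
      exact hJ d P X Fᗮ hP hr hXd)
  have hn : ∀ x ∈ base w, ‖x‖ ≤ R := fun x hx => mem_closedBall_zero_iff.1 (hK0R hx)
  have hp2 : ∀ x ∈ base w, R ≤ 2 * R - ε * (d * ‖x‖ ^ 2 + bump d X x) := by
    intro x hx
    have h1 : ε * (d * ‖x‖ ^ 2 + bump d X x) ≤ ε * (d * R ^ 2 + 1) := by
      gcongr
      · exact hn x hx
      · exact (hbd x).2
    linarith
  have hle : ∀ x : E d, 2 * R - ε * (d * ‖x‖ ^ 2 + bump d X x) ≤ 2 * R - ε * (d * ‖x‖ ^ 2) := by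
    intro x
    have := mul_pos hε (hbd x).1
    linarith
  have hsq : ConvexOn ℝ univ fun x : E d => (d : ℝ) * ‖x‖ ^ 2 :=
    (convexOn_univ_norm.pow (fun x _ => norm_nonneg x) 2).smul hd0.le
  have hcc : ∀ g : E d → ℝ, ConvexOn ℝ univ g → ConcaveOn ℝ (base w) fun x => 2 * R - ε * g x :=
    fun g hg => (concaveOn_const _ hK0.2.1).sub ((hg.subset (subset_univ _) hK0.2.1).smul hε.le)
  obtain ⟨hK, hKv⟩ := hBo d (base w) (fun x => 2 * R - ε * (d * ‖x‖ ^ 2)) hK0 (by fun_prop)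
    (hcc _ hsq) (fun x => by rw [norm_neg]) fun x hx => hR0.trans_le ((hp2 x hx).trans (hle x))
  obtain ⟨hL, hLv⟩ := hBo d (base w) (fun x => 2 * R - ε * (d * ‖x‖ ^ 2 + bump d X x)) hK0
    (by fun_prop) (hcc _ hcv) (fun x => by rw [norm_neg, hev]) fun x hx => hR0.trans_le (hp2 x hx)
  have hm := hK0.1.measurableSet
  refine ⟨_, _, ε * G, hK, hL, fun p hp => ⟨hp.1, hp.2.trans (hle _)⟩, by positivity, ?_, ?_, ?_⟩
  · refine ENNReal.toReal_le_of_le_ofReal (by positivity) ?_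
    rw [hKv]
    calc _ ≤ ∫⁻ _ in base w, ENNReal.ofReal (4 * R) :=
          setLIntegral_mono' hm fun x _ => ENNReal.ofReal_le_ofReal (by
            have : 0 ≤ ε * (d * ‖x‖ ^ 2) := by positivity
            linarith)
      _ ≤ ENNReal.ofReal (4 * R) * ENNReal.ofReal ((C2 / √d) ^ d) := by
          rw [setLIntegral_const]; gcongr
      _ ≤ _ := by
          rw [← ENNReal.ofReal_mul (by positivity)]
          refine ENNReal.ofReal_le_ofReal ?_
          have h1 : (16 : ℝ) ≤ 16 ^ d := le_self_pow₀ (by norm_num) (by omega)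
          calc 4 * R * (C2 / √d) ^ d = √d * (16 * (C2 / √d) ^ d) := by rw [hR]; ring
            _ ≤ √d * (16 ^ d * ((C1 + C2) / √d) ^ d) := by gcongr; linarith
            _ = _ := by rw [← mul_pow, mul_div_assoc]
  · have h1 : ENNReal.ofReal (ε * G) + volume (lay (base w)
        fun x => 2 * R - ε * (d * ‖x‖ ^ 2 + bump d X x)) ≤
        volume (lay (base w) fun x => 2 * R - ε * (d * ‖x‖ ^ 2)) := by
      have h2 : ENNReal.ofReal (ε * G) ≤
          ∫⁻ x in base w, ENNReal.ofReal (2 * ε) * ENNReal.ofReal (bump d X x) := by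
        rw [lintegral_const_mul' _ _ ENNReal.ofReal_ne_top,
          show ε * G = 2 * ε * (G / 2) by ring, ENNReal.ofReal_mul (by positivity)]
        gcongr
        exact hMa d N P w X hd hP hm hXw
      rw [hKv, hLv]
      refine (add_le_add_left h2 _).trans ?_
      rw [← lintegral_add_left (by have := hct.measurable; fun_prop)]
      refine setLIntegral_mono' hm fun x hx => le_of_eq ?_
      have h3 := hp2 x hx
      have h4 := (hbd x).1
      rw [← ENNReal.ofReal_mul (by positivity), ← ENNReal.ofReal_add (by positivity) (by linarith)]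
      congr 1; ring
    have h5 := ENNReal.toReal_mono hK.1.measure_lt_top.ne h1
    rw [ENNReal.toReal_add ENNReal.ofReal_ne_top hL.1.measure_lt_top.ne,
      ENNReal.toReal_ofReal (by positivity)] at h5
    linarith
  · intro F hF
    refine (hsec F hF).trans (ENNReal.ofReal_le_ofReal ?_)
    have h1 : (16 : ℝ) ≤ 16 ^ k := le_self_pow₀ (by norm_num) (by omega)
    have h2 : (1 : ℝ) ≤ (2 * Real.pi) ^ k := one_le_pow₀ (by linarith [Real.pi_gt_three])
    have h3 : G / (2 * Real.pi) ^ k ≤ G := div_le_self hG0.le h2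
    calc 16 * ε * D = ε * (G / (2 * Real.pi) ^ k) * (16 * (C1 * √k) ^ k) := by rw [hD]; ring
      _ ≤ ε * G * (16 ^ k * ((C1 + C2) * √k) ^ k) := by gcongr; linarith
      _ = _ := by rw [← mul_pow, mul_assoc 16]

end Pool.Agent.Lib.VD
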