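import Pool.Agent.Lib.VD.Blue

open MeasureTheory Set Module Metric
open scoped RealInnerProductSpace ENNReal Pointwise

namespace Pool.Agent.Lib.VD

theorem st_POL : St_POL := by
  intro n K ⟨hc, hv, ⟨x0, hx0⟩, hs⟩
  have hneg : ∀ x ∈ K, -x ∈ K := fun x hx => by rw [hs]; simpa using hx
  have h0 : (0 : E n) ∈ interior K := by
    have h1 := hv.combo_interior_self_mem_interior hx0 (hneg x0 (interior_subset hx0))
      (a := 1 / 2) (b := 1 / 2) (by norm_num) (by norm_num) (by norm_num)
    simpa using h1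
  obtain ⟨r, hr, hrK⟩ := nhds_basis_closedBall.mem_iff.1 (mem_interior_iff_mem_nhds.1 h0)
  obtain ⟨R, hR0, hR⟩ := hc.isBounded.subset_closedBall_lt 0 (0 : E n)
  have hcl : IsClosed (pol K) := by
    have : pol K = ⋂ x ∈ K, {y | ⟪x, y⟫ ≤ 1} := by ext y; simp [pol]
    rw [this]
    exact isClosed_biInter fun x _ => isClosed_le (by fun_prop) continuous_const
  have hsub : pol K ⊆ closedBall 0 (1 / r) := by
    intro y hy
    rw [mem_closedBall_zero_iff]
    rcases eq_or_ne y 0 with h | h
    · rw [h, norm_zero]; positivity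
    have hp : 0 < ‖y‖ := norm_pos_iff.2 h
    have h1 := hy ((r / ‖y‖) • y) (hrK (by
      rw [mem_closedBall_zero_iff, norm_smul, Real.norm_eq_abs, abs_of_pos (by positivity),
        div_mul_cancel₀ _ hp.ne']))
    rw [real_inner_smul_left, real_inner_self_eq_norm_sq] at h1
    rw [le_div_iff₀ hr]
    calc ‖y‖ * r = r / ‖y‖ * ‖y‖ ^ 2 := by field_simp
      _ ≤ 1 := h1
  have hcp : IsCompact (pol K) := (isCompact_closedBall _ _).of_isClosed_subset hcl hsub
  have hball : ball (0 : E n) (1 / R) ⊆ pol K := by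
    intro y hy x hx
    rw [mem_ball_zero_iff, lt_div_iff₀ hR0] at hy
    have h1 := hR hx
    rw [mem_closedBall_zero_iff] at h1
    calc ⟪x, y⟫ ≤ ‖x‖ * ‖y‖ := real_inner_le_norm _ _
      _ ≤ R * ‖y‖ := by gcongr
      _ ≤ 1 := by linarith
  have hint : (interior (pol K)).Nonempty :=
    ⟨0, mem_interior_iff_mem_nhds.2 (Filter.mem_of_superset (ball_mem_nhds _ (by positivity)) hball)⟩
  have hvol : 0 < volume (pol K) := Measure.measure_pos_of_nonempty_interior _ hint
  refine ⟨⟨r, hr, hrK⟩, Measure.measure_pos_of_nonempty_interior _ ⟨x0, hx0⟩,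
    ⟨hcp, ?_, hint, ?_⟩, hvol, fun x hx y hy => abs_le.2 ⟨?_, hy x hx⟩, ?_, fun ξ => ?_⟩
  · intro y hy z hz a b ha hb hab x hx
    rw [inner_add_right, real_inner_smul_right, real_inner_smul_right]
    nlinarith [hy x hx, hz x hx]
  · ext y
    simp only [mem_neg, pol, mem_ofPred_eq, inner_neg_right]
    constructor
    · intro h x hx
      have := h _ (hneg x hx)
      rwa [inner_neg_left] at this
    · intro h x hx
      have := h _ (hneg x hx)
      rwa [inner_neg_left, neg_neg] at this
  · have := hy _ (hneg x hx)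
    rw [inner_neg_left] at this
    linarith
  · exact continuous_parametric_integral_of_continuous
      (f := fun (ξ y : E n) => Real.exp ⟪ξ, y⟫) (by fun_prop) hcp
  · unfold Z
    rw [setIntegral_pos_iff_support_of_nonneg_ae
      (Filter.Eventually.of_forall fun _ => (Real.exp_pos _).le)
      (ContinuousOn.integrableOn_compact hcp (by fun_prop))]
    have : Function.support (fun y : E n => Real.exp ⟪ξ, y⟫) = univ := by
      ext y; simp
    rwa [this, univ_inter]

end Pool.Agent.Lib.VD
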