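import Pool.Agent.Lib.VD.Gau

open MeasureTheory Set Module Metric
open scoped RealInnerProductSpace ENNReal Pointwise

namespace Pool.Agent.Lib.VD

namespace T77S

theorem periodic_top {m : ℕ} (g : E m → ℝ≥0∞) (hg : Measurable g) (hpos : ∀ x, g x ≠ 0)
    (v : E m) (hv : v ≠ 0) (hper : ∀ (j : ℕ) x, g (x + (j : ℝ) • v) = g x) : ∫⁻ x, g x = ⊤ := by
  have hr : 0 < ‖v‖ / 2 := by have := norm_pos_iff.2 hv; linarith
  set c := ∫⁻ x in ball (0 : E m) (‖v‖ / 2), g x with hc
  have hc0 : c ≠ 0 := by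
    intro h
    rw [hc, lintegral_eq_zero_iff hg] at h
    have h1 : volume.restrict (ball (0 : E m) (‖v‖ / 2)) ≠ 0 := by
      rw [Ne, Measure.restrict_eq_zero]
      exact (measure_ball_pos _ _ hr).ne'
    have := ae_neBot.2 h1
    obtain ⟨x, hx⟩ := h.exists
    exact hpos x hx
  have h2 : ∀ j : ℕ, ∫⁻ x in ball ((j : ℝ) • v) (‖v‖ / 2), g x = c := by
    intro j
    rw [hc, ← lintegral_indicator measurableSet_ball, ← lintegral_indicator measurableSet_ball,
      ← lintegral_add_right_eq_self _ ((j : ℝ) • v)]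
    refine lintegral_congr fun x => ?_
    simp only [indicator, mem_ball, dist_eq_norm, add_sub_cancel_right, sub_zero, hper]
  have h3 : Pairwise (Function.onFun Disjoint fun j : ℕ => ball ((j : ℝ) • v) (‖v‖ / 2)) := by
    intro i j hij
    refine ball_disjoint_ball ?_
    rw [dist_eq_norm, ← sub_smul, norm_smul, Real.norm_eq_abs]
    have h4 : (1 : ℝ) ≤ |(i : ℝ) - j| := by
      have : (1 : ℤ) ≤ |(i : ℤ) - j| := Int.one_le_abs (by omega)
      exact_mod_cast this
    nlinarith [norm_nonneg v]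
  have h5 := lintegral_iUnion (μ := volume) (fun j : ℕ => measurableSet_ball) h3 g
  simp_rw [h2] at h5
  rw [ENNReal.tsum_const_eq_top_of_ne_zero hc0] at h5
  exact top_unique (h5 ▸ setLIntegral_le_lintegral _ _)

end T77S

open T77S in
theorem st_SEC : St_SEC := by
  intro n m Y A M hA hM hS
  have hY : Continuous Y := LinearMap.continuous_of_finiteDimensional _
  by_cases hinj : Function.Injective Y
  · have hr : finrank ℝ (LinearMap.range Y) = m := by
      rw [LinearMap.finrank_range_of_inj hinj, finrank_euclideanSpace_fin]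
    set F := LinearMap.range Y with hF
    let φ : F ≃ₗᵢ[ℝ] E m := ((stdOrthonormalBasis ℝ F).reindex (finCongr hr)).repr
    let B : E m ≃ₗ[ℝ] E m := (LinearEquiv.ofInjective Y hinj).trans φ.toLinearEquiv
    have hB : ∀ u, Y u = (φ.symm (B u) : F) := by
      intro u
      simp only [B, LinearEquiv.trans_apply, LinearIsometryEquiv.coe_toLinearEquiv,
        LinearIsometryEquiv.symm_apply_apply, LinearEquiv.ofInjective_apply]
    have h1 : ∫⁻ u, ENNReal.ofReal (Real.exp (-‖Y u‖ ^ 2 / 2)) =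
        ENNReal.ofReal (|LinearMap.det (B : E m →ₗ[ℝ] E m)|⁻¹) *
          ENNReal.ofReal (√(2 * Real.pi) ^ m) := by
      have h := Gau.lintegral_comp_equiv B (fun z => ENNReal.ofReal (Real.exp (-‖z‖ ^ 2 / 2)))
        (by fun_prop)
      rw [Gau.lintegral_gauss_half, finrank_euclideanSpace_fin] at h
      rw [← h]
      refine lintegral_congr fun u => ?_
      rw [hB, ← Submodule.coe_norm, LinearIsometryEquiv.norm_map]
    have h2 : volume (Y ⁻¹' A) =
        ENNReal.ofReal (|LinearMap.det (B : E m →ₗ[ℝ] E m)|⁻¹) * μHE[m] (A ∩ F) := by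
      have e : Y ⁻¹' A = B ⁻¹' (φ.symm ⁻¹' ((↑) ⁻¹' A : Set F)) := by
        ext u; simp only [mem_preimage, hB]
      rw [e, Measure.addHaar_preimage_linearEquiv, LinearEquiv.det_coe_symm, abs_inv,
        Gau.sec_eq F hr, φ.symm.measurePreserving.measure_preimage
          (hA.preimage measurable_subtype_coe).nullMeasurableSet]
    rw [h1, h2]
    calc _ = μHE[m] (A ∩ F) * (ENNReal.ofReal (|LinearMap.det (B : E m →ₗ[ℝ] E m)|⁻¹) *
          ENNReal.ofReal (√(2 * Real.pi) ^ m)) := by ring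
      _ ≤ _ := by gcongr; exact hS F hr
  · rw [← LinearMap.ker_eq_bot] at hinj
    obtain ⟨v, hv, hv0⟩ := Submodule.exists_mem_ne_zero_of_ne_bot hinj
    rw [periodic_top (fun u => ENNReal.ofReal (Real.exp (-‖Y u‖ ^ 2 / 2))) (by fun_prop)
      (fun x => by simp [Real.exp_pos]) v hv0
      (fun j x => by rw [map_add, map_smul, LinearMap.mem_ker.1 hv, smul_zero, add_zero]),
      ENNReal.mul_top hM]
    exact le_top

end Pool.Agent.Lib.VD
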