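import Pool.Agent.Lib.VD.Blue

open MeasureTheory Set Module Metric
open scoped RealInnerProductSpace ENNReal Pointwise

namespace Pool.Agent.Lib.VD

namespace S66

theorem hor_pt {d : ℕ} (s : ℝ) (y : E d) : hor (pt s y) = y := by
  ext i
  simp [hor, pt]

theorem pt_zero {d : ℕ} (s : ℝ) (y : E d) : pt s y 0 = s := by
  simp [pt]

theorem cont_hor {d : ℕ} : Continuous (hor : E (d + 1) → E d) := by
  unfold hor
  fun_prop

theorem meas_lay {d : ℕ} {K : Set (E d)} (hK : IsClosed K) {ψ : E d → ℝ} (hψ : Continuous ψ) :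
    MeasurableSet (lay K ψ) :=
  ((hK.preimage cont_hor).inter
    (isClosed_le (by fun_prop) (hψ.comp cont_hor))).measurableSet

theorem vol_le {S : Set ℝ} {c : ℝ} (h : ∀ s ∈ S, ∀ s' ∈ S, s' - s ≤ c) :
    volume S ≤ ENNReal.ofReal (2 * c) := by
  rcases S.eq_empty_or_nonempty with rfl | ⟨s, hs⟩
  · simp
  have : S ⊆ Icc (s - c) (s + c) := fun s' hs' =>
    ⟨by linarith [h s' hs' s hs], by linarith [h s hs s' hs']⟩
  refine (measure_mono this).trans (le_of_eq ?_)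
  rw [Real.volume_Icc]
  congr 1
  ring

/-- the upper layer along the line `y + s w` -/
def Q {d : ℕ} (K : Set (E d)) (f : E d → ℝ) (R b ε : ℝ) (y w : E d) : Set ℝ :=
  {s | y + s • w ∈ K ∧ 2 * R - ε * (b * ‖y + s • w‖ ^ 2 + f (y + s • w)) < s ∧
    s ≤ 2 * R - ε * (b * ‖y + s • w‖ ^ 2)}

theorem vol_Q {d : ℕ} {K : Set (E d)} {f : E d → ℝ} {R b ε η : ℝ} {y w : E d} (hR : 0 < R)
    (hK : K ⊆ closedBall 0 R) (hb : 0 < b) (hε : 0 < ε) (hf : ∀ x, 0 < f x ∧ f x ≤ 1)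
    (h2 : ∀ x x' : E d, ‖x‖ ≤ R → ‖x - x'‖ ≤ η → f x ≤ 2 * f x')
    (hεR : ε * (b * R ^ 2 + 1) ≤ R) (hεη : ε * (b * R ^ 2 + 1) ≤ η) (hyw : ⟪w, y⟫ = 0) :
    ENNReal.ofReal (√(1 + ‖w‖ ^ 2)) * volume (Q K f R b ε y w) ≤
      ENNReal.ofReal (8 * ε) * ENNReal.ofReal (f (y + (2 * R) • w)) := by
  have hn : ∀ s : ℝ, ‖y + s • w‖ ^ 2 = ‖y‖ ^ 2 + s ^ 2 * ‖w‖ ^ 2 := fun s => by
    rw [norm_add_sq_real, real_inner_smul_right, real_inner_comm, hyw, norm_smul, mul_pow,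
      Real.norm_eq_abs, sq_abs]
    ring
  have h1 : ∀ s ∈ Q K f R b ε y w, ‖y + s • w‖ ≤ R ∧ 2 * R - ε * (b * R ^ 2 + 1) < s ∧
      s ≤ 2 * R := fun s hs => by
    have a1 : ‖y + s • w‖ ≤ R := mem_closedBall_zero_iff.1 (hK hs.1)
    have a2 : ‖y + s • w‖ ^ 2 ≤ R ^ 2 := pow_le_pow_left₀ (norm_nonneg _) a1 2
    have a3 : ε * (b * ‖y + s • w‖ ^ 2 + f (y + s • w)) ≤ ε * (b * R ^ 2 + 1) := by
      gcongr
      exact (hf _).2
    have a4 : 0 ≤ ε * (b * ‖y + s • w‖ ^ 2) := by positivity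
    exact ⟨a1, by linarith [hs.2.1], by linarith [hs.2.2]⟩
  rcases (Q K f R b ε y w).eq_empty_or_nonempty with he | ⟨s0, hs0⟩
  · rw [he]; simp
  have hw : ‖w‖ ≤ 1 := by
    obtain ⟨a1, a2, -⟩ := h1 s0 hs0
    have a3 : ‖y + s0 • w‖ ^ 2 ≤ R ^ 2 := pow_le_pow_left₀ (norm_nonneg _) a1 2
    have a4 : R ^ 2 ≤ s0 ^ 2 := pow_le_pow_left₀ hR.le (by linarith) 2
    rw [hn] at a3
    have a5 : R ^ 2 * ‖w‖ ^ 2 ≤ R ^ 2 * 1 := by
      nlinarith [mul_le_mul_of_nonneg_right a4 (sq_nonneg ‖w‖), sq_nonneg ‖y‖]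
    have a6 := le_of_mul_le_mul_left a5 (by positivity)
    nlinarith [norm_nonneg w]
  have hv : volume (Q K f R b ε y w) ≤ ENNReal.ofReal (2 * (2 * ε * f (y + (2 * R) • w))) := by
    refine vol_le fun s hs s' hs' => ?_
    have hp := (hf (y + (2 * R) • w)).1
    by_cases hss : s' ≤ s
    · have : 0 ≤ 2 * ε * f (y + (2 * R) • w) := by positivity
      linarith
    obtain ⟨a1, a2, a3⟩ := h1 s hs
    have a4 : f (y + s • w) ≤ 2 * f (y + (2 * R) • w) := h2 _ _ a1 (by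
      rw [add_sub_add_left_eq_sub, ← sub_smul, norm_smul, Real.norm_eq_abs,
        abs_of_nonpos (by linarith)]
      nlinarith [mul_le_mul_of_nonneg_left hw (show 0 ≤ 2 * R - s by linarith)])
    have a5 : s ^ 2 ≤ s' ^ 2 := pow_le_pow_left₀ (by linarith) (not_le.1 hss).le 2
    have a6 : ε * (b * ‖y + s • w‖ ^ 2) ≤ ε * (b * ‖y + s' • w‖ ^ 2) := by
      rw [hn, hn]
      gcongr
    have b1 := hs.2.1
    have b2 := hs'.2.2
    nlinarith [mul_le_mul_of_nonneg_left a4 hε.le]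
  have hs : √(1 + ‖w‖ ^ 2) ≤ 2 := by
    rw [Real.sqrt_le_left (by norm_num)]
    nlinarith [norm_nonneg w]
  refine (mul_le_mul' (ENNReal.ofReal_le_ofReal hs) hv).trans (le_of_eq ?_)
  rw [← ENNReal.ofReal_mul (by norm_num), ← ENNReal.ofReal_mul (by positivity)]
  congr 1
  ring

end S66

open S66 in
theorem st_SECT (hS : St_SLICE) : St_SECT := by
  intro d k K f R b D η hk hkd hK hR hKR hb hη hf _ hf1 h2 hD
  have hc : 0 < b * R ^ 2 + 1 := by positivity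
  have hm : 0 < min R η := lt_min hR hη
  set ε := min R η / (b * R ^ 2 + 1) with hε
  have hε0 : 0 < ε := by positivity
  have he : ε * (b * R ^ 2 + 1) = min R η := by rw [hε]; field_simp
  have hεR : ε * (b * R ^ 2 + 1) ≤ R := he ▸ min_le_left _ _
  have hεη : ε * (b * R ^ 2 + 1) ≤ η := he ▸ min_le_right _ _
  refine ⟨ε, hε0, hεR, fun F hF => ?_⟩
  set A := lay K (fun x => 2 * R - ε * (b * ‖x‖ ^ 2)) \
    lay K (fun x => 2 * R - ε * (b * ‖x‖ ^ 2 + f x)) with hA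
  have hmem : ∀ p ∈ A, hor p ∈ K ∧ 2 * R - ε * (b * ‖hor p‖ ^ 2 + f (hor p)) < |p 0| ∧
      |p 0| ≤ 2 * R - ε * (b * ‖hor p‖ ^ 2) := fun p hp =>
    ⟨hp.1.1, not_le.1 fun h => hp.2 ⟨hp.1.1, h⟩, hp.1.2⟩
  by_cases h0 : ∃ p ∈ F, p 0 ≠ 0
  swap
  · have : A ∩ F = ∅ := eq_empty_of_forall_notMem fun p hp => h0 ⟨p, hp.2, fun hp0 => by
      obtain ⟨a1, a2, -⟩ := hmem p hp.1
      have a3 : ‖hor p‖ ^ 2 ≤ R ^ 2 :=
        pow_le_pow_left₀ (norm_nonneg _) (mem_closedBall_zero_iff.1 (hKR a1)) 2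
      have a4 : ε * (b * ‖hor p‖ ^ 2 + f (hor p)) ≤ ε * (b * R ^ 2 + 1) := by
        gcongr
        exact (hf1 _).2
      rw [hp0, abs_zero] at a2
      linarith⟩
    rw [this, measure_empty]
    exact zero_le
  have e : d + 1 - k = d - k + 1 := by omega
  rw [e] at hF ⊢
  obtain ⟨v, F₀, hF₀, hv, hsl⟩ := hS d (d - k) F hF h0
  have hAm : MeasurableSet A :=
    (meas_lay hK.1.isClosed (by fun_prop)).diff (meas_lay hK.1.isClosed (by fun_prop))
  rw [hsl A hAm, ← lintegral_const_mul' _ _ ENNReal.ofReal_ne_top]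
  have hpt : ∀ y : F₀, ENNReal.ofReal (√(1 + ‖v‖ ^ 2)) *
      volume {s : ℝ | pt s ((y : E d) + s • v) ∈ A} ≤
      ENNReal.ofReal (8 * ε) * ENNReal.ofReal (f ((y : E d) + (2 * R) • v)) +
      ENNReal.ofReal (8 * ε) * ENNReal.ofReal (f ((y : E d) + (2 * R) • -v)) := fun y => by
    have a1 := vol_Q (w := v) hR hKR hb hε0 hf1 h2 hεR hεη (hv y y.2)
    have a2 := vol_Q (w := -v) (y := (y : E d)) hR hKR hb hε0 hf1 h2 hεR hεη
      (by rw [inner_neg_left, hv y y.2, neg_zero])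
    rw [norm_neg, ← Measure.measure_neg] at a2
    refine le_trans ?_ (add_le_add a1 a2)
    rw [← mul_add]
    refine mul_le_mul_right ((measure_mono fun s hs => ?_).trans (measure_union_le _ _)) _
    have a3 := hmem _ hs
    rw [hor_pt, pt_zero] at a3
    rcases le_total 0 s with h | h
    · rw [abs_of_nonneg h] at a3
      exact Or.inl a3
    · rw [abs_of_nonpos h] at a3
      refine Or.inr ?_
      rw [mem_neg]
      unfold Q
      rw [mem_ofPred_eq, neg_smul_neg]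
      exact a3
  refine (lintegral_mono hpt).trans ?_
  rw [lintegral_add_left (by fun_prop), lintegral_const_mul' _ _ ENNReal.ofReal_ne_top,
    lintegral_const_mul' _ _ ENNReal.ofReal_ne_top]
  refine (add_le_add (mul_le_mul_right (hD F₀ _ hF₀) _) (mul_le_mul_right (hD F₀ _ hF₀) _)).trans
    (le_of_eq ?_)
  rw [← add_mul, ← ENNReal.ofReal_add (by positivity) (by positivity),
    ← ENNReal.ofReal_mul (by positivity)]
  congr 1
  ring

end Pool.Agent.Lib.VD
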