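import Pool.Agent.Lib.VD.Blue

open MeasureTheory Set Module Metric
open scoped RealInnerProductSpace ENNReal Pointwise

namespace Pool.Agent.Lib.VD

namespace T75

section gauss
variable {V : Type*} [NormedAddCommGroup V] [InnerProductSpace ℝ V] [FiniteDimensional ℝ V]
  [MeasurableSpace V] [BorelSpace V]

theorem gauss_int {a : ℝ} (ha : 0 < a) :
    Integrable (fun v : V => Real.exp (-a * ‖v‖ ^ 2)) := by
  by_contra h
  have h1 := GaussianFourier.integral_rexp_neg_mul_sq_norm (V := V) ha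
  rw [integral_undef h] at h1
  have : 0 < (Real.pi / a) ^ (finrank ℝ V / 2 : ℝ) := by positivity
  linarith

theorem gauss_val {a : ℝ} (ha : 0 < a) :
    ∫ v : V, Real.exp (-a * ‖v‖ ^ 2) = √(Real.pi / a) ^ finrank ℝ V := by
  rw [GaussianFourier.integral_rexp_neg_mul_sq_norm ha, Real.sqrt_eq_rpow, ← Real.rpow_natCast,
    ← Real.rpow_mul (by positivity)]
  congr 1
  ring

end gauss

theorem chi_le {P d : ℕ} (hP : 1 ≤ P) (X : Fin P → E d) (ξ : E d) : chi X ξ ≤ 1 := by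
  unfold chi avg
  have hP' : (0 : ℝ) < P := by exact_mod_cast hP
  rw [div_le_one hP']
  calc ∑ i, Real.cos ⟪X i, ξ⟫ ≤ ∑ _i : Fin P, (1 : ℝ) :=
        Finset.sum_le_sum fun i _ => Real.cos_le_one _
    _ = P := by simp

/-- the shell weights -/
noncomputable def wt (k i : ℕ) : ℝ := (1 / 4 : ℝ) ^ (k * i) * Real.exp (k / 2)

noncomputable def ex (s : ℝ) (k i : ℕ) : ℝ := k / (2 * (2 ^ i * k / s) ^ 2)

theorem ex_pos {s : ℝ} (hs : 0 < s) {k : ℕ} (hk : 1 ≤ k) (i : ℕ) : 0 < ex s k i := by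
  have : (0 : ℝ) < k := by exact_mod_cast hk
  unfold ex
  positivity

theorem wt_ge {s : ℝ} (hs : 0 < s) {k : ℕ} (hk : 1 ≤ k) (i : ℕ) {r : ℝ} (h0 : 0 ≤ r)
    (hr : r ≤ 2 ^ i * k / s) :
    (1 / 4 : ℝ) ^ (k * i) ≤ wt k i * Real.exp (-ex s k i * r ^ 2) := by
  have hk' : (0 : ℝ) < k := by exact_mod_cast hk
  have hρ : (0 : ℝ) < 2 ^ i * k / s := by positivity
  unfold wt ex
  rw [mul_assoc, ← Real.exp_add]
  refine le_mul_of_one_le_right (by positivity) (Real.one_le_exp ?_)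
  have h1 : r ^ 2 ≤ (2 ^ i * k / s) ^ 2 := pow_le_pow_left₀ h0 hr 2
  generalize (2 ^ i * k / s : ℝ) = ρ at hρ h1
  have h2 : (k : ℝ) / (2 * ρ ^ 2) * r ^ 2 ≤ k / (2 * ρ ^ 2) * ρ ^ 2 :=
    mul_le_mul_of_nonneg_left h1 (by positivity)
  have h3 : (k : ℝ) / (2 * ρ ^ 2) * ρ ^ 2 = k / 2 := by field_simp
  linarith

theorem wt_int {s : ℝ} (hs : 0 < s) {k : ℕ} (hk : 1 ≤ k) (i : ℕ) :
    wt k i * √(Real.pi / ex s k i) ^ k ≤
      (1 / 2 : ℝ) ^ i * (√(2 * Real.pi) * Real.exp (1 / 2) / s * √k) ^ k := by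
  have hk' : (0 : ℝ) < k := by exact_mod_cast hk
  have e1 : √(Real.pi / ex s k i) = 2 ^ i * (√(2 * Real.pi) / s * √k) := by
    rw [Real.sqrt_eq_iff_mul_self_eq (div_pos Real.pi_pos (ex_pos hs hk i)).le (by positivity)]
    have a1 := Real.mul_self_sqrt (show 0 ≤ 2 * Real.pi by positivity)
    have a2 := Real.mul_self_sqrt hk'.le
    unfold ex
    symm
    calc 2 ^ i * (√(2 * Real.pi) / s * √k) * (2 ^ i * (√(2 * Real.pi) / s * √k))
        = (2 ^ i) ^ 2 * (√(2 * Real.pi) * √(2 * Real.pi)) * (√k * √k) / s ^ 2 := by ring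
      _ = _ := by rw [a1, a2]; field_simp
  have e2 : Real.exp ((k : ℝ) / 2) = Real.exp (1 / 2) ^ k := by
    rw [← Real.exp_nat_mul]; congr 1; ring
  have e3 : (1 / 4 : ℝ) ^ (k * i) * (2 ^ i) ^ k = ((1 / 2 : ℝ) ^ i) ^ k := by
    rw [mul_comm k i, pow_mul, ← mul_pow, ← mul_pow]; norm_num
  have e4 : ((1 / 2 : ℝ) ^ i) ^ k ≤ (1 / 2 : ℝ) ^ i :=
    pow_le_of_le_one (by positivity) (pow_le_one₀ (by norm_num) (by norm_num)) (by omega)
  unfold wt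
  rw [e1, e2]
  calc (1 / 4 : ℝ) ^ (k * i) * Real.exp (1 / 2) ^ k * (2 ^ i * (√(2 * Real.pi) / s * √k)) ^ k
      = ((1 / 4 : ℝ) ^ (k * i) * (2 ^ i) ^ k) *
        (√(2 * Real.pi) * Real.exp (1 / 2) / s * √k) ^ k := by
        rw [show √(2 * Real.pi) * Real.exp (1 / 2) / s * √k =
          Real.exp (1 / 2) * (√(2 * Real.pi) / s * √k) by ring, mul_pow, mul_pow (Real.exp _)]
        ring
    _ ≤ _ := by rw [e3]; exact mul_le_mul_of_nonneg_right e4 (by positivity)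

theorem shell_find {s : ℝ} {k : ℕ} {r : ℝ} : ∀ J : ℕ, 2 ^ 0 * k / s ≤ r → r ≤ 2 ^ J * k / s →
    r ≤ 2 ^ 0 * k / s ∨ ∃ j, j < J ∧ 2 ^ j * k / s ≤ r ∧ r ≤ 2 ^ (j + 1) * k / s
  | 0, _, h => Or.inl h
  | J + 1, h0, h => by
    by_cases h1 : r ≤ 2 ^ J * k / s
    · rcases shell_find J h0 h1 with h2 | ⟨j, hj, h2⟩
      · exact Or.inl h2
      · exact Or.inr ⟨j, by omega, h2⟩
    · exact Or.inr ⟨J, by omega, (not_le.1 h1).le, h⟩

theorem exists_J {s b M : ℝ} (hs : 0 < s) (hb : 0 < b) {k : ℕ} (hk : 1 ≤ k) :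
    ∃ J : ℕ, Real.exp (-(2 ^ J * k / s) ^ 2 / (8 * b)) * M ≤ 1 := by
  have hk' : (1 : ℝ) ≤ k := by exact_mod_cast hk
  obtain ⟨J, hJ⟩ := pow_unbounded_of_one_lt (8 * b * s ^ 2 * |M|) (show (1 : ℝ) < 2 by norm_num)
  refine ⟨J, ?_⟩
  have h1 : (1 : ℝ) ≤ 2 ^ J := one_le_pow₀ (by norm_num)
  have h2 : |M| ≤ (2 ^ J * k / s) ^ 2 / (8 * b) := by
    rw [div_pow, div_div, le_div_iff₀ (by positivity), mul_pow]
    have h3 : (2 : ℝ) ^ J ≤ (2 ^ J) ^ 2 := by nlinarith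
    have h4 : (1 : ℝ) ≤ (k : ℝ) ^ 2 := by nlinarith
    nlinarith
  rw [neg_div, Real.exp_neg, inv_mul_le_iff₀ (Real.exp_pos _), mul_one]
  have := Real.add_one_le_exp ((2 ^ J * k / s) ^ 2 / (8 * b))
  have := le_abs_self M
  linarith

theorem point {s b : ℝ} (hs : 0 < s) (hb : 0 < b) {k J d P : ℕ} (hk : 1 ≤ k) (hP : 1 ≤ P)
    {X : Fin P → E d} (hD : Decay s k J X) (ξ : E d) :
    Real.exp (-‖ξ‖ ^ 2 / (4 * b)) * chi X ξ ≤
      ∑ i ∈ Finset.range (J + 1), wt k i * Real.exp (-ex s k i * ‖ξ‖ ^ 2) +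
        Real.exp (-(2 ^ J * k / s) ^ 2 / (8 * b)) * Real.exp (-(1 / (8 * b)) * ‖ξ‖ ^ 2) := by
  have hc0 := (hD ξ).1
  have hc1 := chi_le hP X ξ
  have he : Real.exp (-‖ξ‖ ^ 2 / (4 * b)) ≤ 1 := by
    rw [Real.exp_le_one_iff, neg_div]
    have : 0 ≤ ‖ξ‖ ^ 2 / (4 * b) := by positivity
    linarith
  have hnn : ∀ i ∈ Finset.range (J + 1), 0 ≤ wt k i * Real.exp (-ex s k i * ‖ξ‖ ^ 2) := by
    intro i _
    unfold wt
    positivity
  have key : ∀ i, i ≤ J → ‖ξ‖ ≤ 2 ^ i * k / s → chi X ξ ≤ (1 / 4 : ℝ) ^ (k * i) →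
      Real.exp (-‖ξ‖ ^ 2 / (4 * b)) * chi X ξ ≤
      ∑ i ∈ Finset.range (J + 1), wt k i * Real.exp (-ex s k i * ‖ξ‖ ^ 2) +
        Real.exp (-(2 ^ J * k / s) ^ 2 / (8 * b)) * Real.exp (-(1 / (8 * b)) * ‖ξ‖ ^ 2) := by
    intro i hi h1 h2
    have h3 := wt_ge hs hk i (norm_nonneg ξ) h1
    have h4 := Finset.single_le_sum hnn (Finset.mem_range.2 (Nat.lt_succ_of_le hi))
    have h5 : Real.exp (-‖ξ‖ ^ 2 / (4 * b)) * chi X ξ ≤ chi X ξ := mul_le_of_le_one_left hc0 he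
    have h6 : 0 ≤ Real.exp (-(2 ^ J * k / s) ^ 2 / (8 * b)) *
      Real.exp (-(1 / (8 * b)) * ‖ξ‖ ^ 2) := by positivity
    linarith
  by_cases h0 : ‖ξ‖ ≤ 2 ^ 0 * k / s
  · exact key 0 (Nat.zero_le _) h0 (by simpa using hc1)
  by_cases hJ : ‖ξ‖ ≤ 2 ^ J * k / s
  · rcases shell_find J (not_le.1 h0).le hJ with h | ⟨j, hj, h1, h2⟩
    · exact absurd h h0
    · exact key (j + 1) hj h2 ((hD ξ).2 j hj h1 h2)
  · have h1 : (2 ^ J * k / s) ^ 2 ≤ ‖ξ‖ ^ 2 := pow_le_pow_left₀ (by positivity) (not_le.1 hJ).le 2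
    have h2 : Real.exp (-‖ξ‖ ^ 2 / (4 * b)) ≤ Real.exp (-(2 ^ J * k / s) ^ 2 / (8 * b)) *
        Real.exp (-(1 / (8 * b)) * ‖ξ‖ ^ 2) := by
      rw [← Real.exp_add, Real.exp_le_exp]
      have h3 : (2 ^ J * k / s) ^ 2 / (8 * b) ≤ ‖ξ‖ ^ 2 / (8 * b) :=
        div_le_div_of_nonneg_right h1 (by positivity)
      have h4 : -‖ξ‖ ^ 2 / (4 * b) = -(‖ξ‖ ^ 2 / (8 * b)) + -(1 / (8 * b)) * ‖ξ‖ ^ 2 := by
        field_simp; ring
      rw [h4, neg_div]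
      linarith
    have h5 : Real.exp (-‖ξ‖ ^ 2 / (4 * b)) * chi X ξ ≤ Real.exp (-‖ξ‖ ^ 2 / (4 * b)) :=
      mul_le_of_le_one_right (Real.exp_pos _).le hc1
    have h6 := Finset.sum_nonneg hnn
    linarith

end T75

open T75 in
theorem st_SHELL : St_SHELL := by
  intro s hs
  set B : ℝ := √(2 * Real.pi) * Real.exp (1 / 2) / s with hB
  have hB0 : 0 < B := by positivity
  refine ⟨3 * (B + 1), by positivity, fun k b hk hb => ?_⟩
  obtain ⟨J, hJ⟩ := exists_J (M := √(Real.pi / (1 / (8 * b))) ^ k) hs hb hk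
  refine ⟨J, fun d P X H hP hH hD => ?_⟩
  have hi1 : ∀ i ∈ Finset.range (J + 1),
      Integrable (fun ξ : H => wt k i * Real.exp (-ex s k i * ‖ξ‖ ^ 2)) :=
    fun i _ => (gauss_int (ex_pos hs hk i)).const_mul _
  have hb8 : 0 < 1 / (8 * b) := by positivity
  have hi2 : Integrable (fun ξ : H => Real.exp (-(2 ^ J * k / s) ^ 2 / (8 * b)) *
      Real.exp (-(1 / (8 * b)) * ‖ξ‖ ^ 2)) := (gauss_int hb8).const_mul _
  have hi3 : Integrable (fun ξ : H =>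
      ∑ i ∈ Finset.range (J + 1), wt k i * Real.exp (-ex s k i * ‖ξ‖ ^ 2) +
        Real.exp (-(2 ^ J * k / s) ^ 2 / (8 * b)) * Real.exp (-(1 / (8 * b)) * ‖ξ‖ ^ 2)) :=
    (integrable_finsetSum _ hi1).add hi2
  have hle : ∫⁻ ξ : H, ENNReal.ofReal (Real.exp (-‖(ξ : E d)‖ ^ 2 / (4 * b)) * chi X ξ) ≤
      ∫⁻ ξ : H, ENNReal.ofReal
        (∑ i ∈ Finset.range (J + 1), wt k i * Real.exp (-ex s k i * ‖ξ‖ ^ 2) +
        Real.exp (-(2 ^ J * k / s) ^ 2 / (8 * b)) * Real.exp (-(1 / (8 * b)) * ‖ξ‖ ^ 2)) :=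
    lintegral_mono fun ξ => ENNReal.ofReal_le_ofReal (point hs hb hk hP hD ξ)
  refine hle.trans ?_
  rw [← ofReal_integral_eq_lintegral_ofReal hi3 (Filter.Eventually.of_forall fun ξ => by
    refine add_nonneg (Finset.sum_nonneg fun i _ => ?_) (by positivity)
    unfold wt
    positivity)]
  refine ENNReal.ofReal_le_ofReal ?_
  rw [integral_add (integrable_finsetSum _ hi1) hi2, integral_finsetSum _ hi1, integral_const_mul,
    gauss_val hb8, hH]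
  have h1 : ∑ i ∈ Finset.range (J + 1), ∫ ξ : H, wt k i * Real.exp (-ex s k i * ‖ξ‖ ^ 2) ≤
      2 * (B * √k) ^ k := by
    calc _ ≤ ∑ i ∈ Finset.range (J + 1), (1 / 2 : ℝ) ^ i * (B * √k) ^ k := by
          refine Finset.sum_le_sum fun i _ => ?_
          rw [integral_const_mul, gauss_val (ex_pos hs hk i), hH]
          exact wt_int hs hk i
      _ ≤ _ := by
          rw [← Finset.sum_mul]
          exact mul_le_mul_of_nonneg_right (sum_geometric_two_le _) (by positivity)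
  have hk1 : (1 : ℝ) ≤ √k := Real.one_le_sqrt.2 (by exact_mod_cast hk)
  have h2 : (B * √k) ^ k ≤ ((B + 1) * √k) ^ k :=
    pow_le_pow_left₀ (by positivity) (by nlinarith) k
  have h3 : (1 : ℝ) ≤ ((B + 1) * √k) ^ k := one_le_pow₀ (by nlinarith)
  have h4 : (3 : ℝ) ≤ 3 ^ k := le_self_pow₀ (by norm_num) (by omega)
  rw [mul_assoc (3 : ℝ), mul_pow (3 : ℝ)]
  nlinarith

end Pool.Agent.Lib.VD
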