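import Pool.Agent.Lib.VD.Blue

open Finset
open scoped RealInnerProductSpace

namespace Pool.Agent.Lib.VD
namespace T17

lemma cos_add_ge (x y : ℝ) (hy : |y| ≤ 1) :
    Real.cos x - y * Real.sin x - y ^ 2 ≤ Real.cos (x + y) := by
  have h1 := Real.one_sub_sq_div_two_le_cos (x := y)
  have h2 := Real.cos_le_one y
  have h3 : |Real.sin y - y| ≤ y ^ 2 / 2 := by
    have h4 := Real.sin_bound hy
    have h0 := abs_nonneg y
    have e2 : |y| ^ 2 = y ^ 2 := sq_abs y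
    have h5 : |y| ^ 3 ≤ y ^ 2 := by rw [← e2]; exact pow_le_pow_of_le_one h0 hy (by norm_num)
    have h6 : |y| ^ 5 ≤ y ^ 2 := by rw [← e2]; exact pow_le_pow_of_le_one h0 hy (by norm_num)
    have h7 : |y ^ 3| ≤ y ^ 2 := by rwa [abs_pow]
    have h8 := abs_le.mp h4
    have h9 := abs_le.mp h7
    have := sq_nonneg y
    rw [abs_le]; constructor <;> linarith [h8.1, h8.2, h9.1, h9.2]
  have h4 : |Real.sin x * (Real.sin y - y)| ≤ y ^ 2 / 2 := by
    rw [abs_mul]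
    exact (mul_le_of_le_one_left (abs_nonneg _) (Real.abs_sin_le_one x)).trans h3
  have h5 : Real.cos x * (1 - Real.cos y) ≤ y ^ 2 / 2 :=
    (mul_le_of_le_one_left (by linarith) (Real.cos_le_one x)).trans (by linarith)
  have h6 := (abs_le.mp h4).2
  rw [Real.cos_add]; nlinarith

variable {N d : ℕ}

noncomputable def Fc (g : Fin N → Fin d → ℝ) (ξ : Fin d → ℝ) : ℝ :=
  ∑ i, Real.cos (∑ l, g i l * ξ l)

lemma step (g : Fin N → Fin d → ℝ) (hg : ∀ i l, g i l ^ 2 = 1) (ξ : Fin d → ℝ) (l : Fin d)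
    {y h : ℝ} (hy : |y| ≤ h) (h1 : h ≤ 1)
    (hs : y * ∑ i, g i l * Real.sin (∑ l, g i l * ξ l) ≤ 0) :
    Fc g ξ - N * h ^ 2 ≤ Fc g (Function.update ξ l (ξ l + y)) := by
  have e : ∀ i, ∑ j, g i j * Function.update ξ l (ξ l + y) j = ∑ j, g i j * ξ j + g i l * y := by
    intro i
    have : ∀ j, g i j * Function.update ξ l (ξ l + y) j =
        g i j * ξ j + if j = l then g i l * y else 0 := by
      intro j
      by_cases hj : j = l
      · subst hj; simp [mul_add]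
      · simp [hj]
    simp only [this, sum_add_distrib, sum_ite_eq', mem_univ, if_true]
  have hy2 : y ^ 2 ≤ h ^ 2 := by
    rw [← sq_abs y]; exact pow_le_pow_left₀ (abs_nonneg _) hy 2
  have hi : ∀ i, Real.cos (∑ j, g i j * ξ j) - y * (g i l * Real.sin (∑ j, g i j * ξ j)) - h ^ 2 ≤
      Real.cos (∑ j, g i j * Function.update ξ l (ξ l + y) j) := by
    intro i
    have h2 : (g i l * y) ^ 2 = y ^ 2 := by rw [mul_pow, hg, one_mul]
    have h3 : |g i l * y| ≤ 1 := by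
      rw [← sq_le_one_iff_abs_le_one, h2, sq_le_one_iff_abs_le_one]; exact hy.trans h1
    have := cos_add_ge (∑ j, g i j * ξ j) _ h3
    rw [e]; nlinarith
  have := sum_le_sum fun i (_ : i ∈ univ) => hi i
  simp only [sum_sub_distrib, ← mul_sum, sum_const, card_univ, Fintype.card_fin,
    nsmul_eq_mul] at this
  unfold Fc; linarith

lemma round (g : Fin N → Fin d → ℝ) (hg : ∀ i l, g i l ^ 2 = 1) (ξ : Fin d → ℝ) {h : ℝ}
    (h0 : 0 < h) (h1 : h ≤ 1) (S : Finset (Fin d)) :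
    ∃ η : Fin d → ℝ, (∀ l ∈ S, ∃ z : ℤ, η l = h * z) ∧ (∀ l, |η l - ξ l| ≤ h) ∧
      (∀ l ∉ S, η l = ξ l) ∧ Fc g ξ - S.card * (N * h ^ 2) ≤ Fc g η := by
  induction S using Finset.induction_on with
  | empty => exact ⟨ξ, by simp, by simp [h0.le], by simp, by simp⟩
  | insert l S hl ih =>
    obtain ⟨η, a1, a2, a3, a4⟩ := ih
    have f1 : h * ⌊η l / h⌋ ≤ η l := by
      have := Int.floor_le (η l / h); rwa [le_div_iff₀ h0, mul_comm] at this
    have f2 : η l ≤ h * (⌊η l / h⌋ + 1) := by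
      have := (Int.lt_floor_add_one (η l / h)).le; rwa [div_le_iff₀ h0, mul_comm] at this
    obtain ⟨z, hz1, hz2⟩ : ∃ z : ℤ, |h * z - η l| ≤ h ∧
        (h * z - η l) * ∑ i, g i l * Real.sin (∑ l, g i l * η l) ≤ 0 := by
      rcases le_total 0 (∑ i, g i l * Real.sin (∑ l, g i l * η l)) with hs | hs
      · exact ⟨⌊η l / h⌋, abs_le.mpr ⟨by linarith, by linarith⟩,
          mul_nonpos_of_nonpos_of_nonneg (by linarith) hs⟩
      · refine ⟨⌊η l / h⌋ + 1, abs_le.mpr ⟨?_, ?_⟩, mul_nonpos_of_nonneg_of_nonpos ?_ hs⟩ <;>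
          push_cast <;> linarith
    have h2 := step g hg η l hz1 h1 hz2
    refine ⟨Function.update η l (η l + (h * z - η l)), fun j hj => ?_, fun j => ?_,
      fun j hj => ?_, ?_⟩
    · by_cases e : j = l
      · subst e; exact ⟨z, by simp⟩
      · rw [Function.update_of_ne e]; exact a1 j ((mem_insert.mp hj).resolve_left e)
    · by_cases e : j = l
      · subst e; rw [Function.update_self, ← a3 j hl, add_sub_cancel_left]; exact hz1
      · rw [Function.update_of_ne e]; exact a2 j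
    · rw [mem_insert, not_or] at hj
      rw [Function.update_of_ne hj.1]; exact a3 j hj.2
    · rw [card_insert_of_notMem hl]; push_cast; linarith

def sg (b : Bool) : ℝ := if b then 1 else -1

lemma sg_sq (b : Bool) : sg b ^ 2 = 1 := by cases b <;> simp [sg]

lemma sum_cos (ξ : Fin d → ℝ) :
    ∑ σ : Fin d → Bool, Real.cos (∑ l, sg (σ l) * ξ l) = 2 ^ d * ∏ l, Real.cos (ξ l) := by
  have h1 : ∀ t : ℝ, ∑ b : Bool, Complex.exp (((sg b * t : ℝ) : ℂ) * Complex.I) =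
      ((2 * Real.cos t : ℝ) : ℂ) := by
    intro t
    rw [Fintype.sum_bool]
    push_cast
    rw [Complex.two_cos]
    simp [sg]
  have h2 := Fintype.prod_sum (fun (l : Fin d) (b : Bool) =>
    Complex.exp (((sg b * ξ l : ℝ) : ℂ) * Complex.I))
  simp only [h1, ← Complex.exp_sum, ← sum_mul, ← Complex.ofReal_sum, ← Complex.ofReal_prod] at h2
  have h3 := congrArg Complex.re h2
  rw [Complex.ofReal_re, Complex.re_sum] at h3
  simp only [Complex.exp_ofReal_mul_I_re] at h3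
  rw [← h3, prod_mul_distrib]; simp

lemma prod_cos (ξ : Fin d → ℝ) (h1 : 1 / 5 ≤ ∑ l, ξ l ^ 2) (h2 : ∑ l, ξ l ^ 2 ≤ 9 / 4) :
    ∏ l, Real.cos (ξ l) ≤ 25 / 26 := by
  have hp := Real.pi_gt_three
  have hp2 := Real.pi_lt_d2
  have ha : ∀ l, |ξ l| ≤ 3 / 2 := fun l => by
    have := single_le_sum (f := fun l => ξ l ^ 2) (fun i _ => sq_nonneg _) (mem_univ l)
    exact abs_le_of_sq_le_sq' (by linarith) (by norm_num) |> abs_le.mpr
  have h3 : ∏ l, Real.cos (ξ l) ≤ ∏ l, Real.exp (-(ξ l ^ 2 / 5)) := by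
    refine prod_le_prod (fun l _ => ?_) fun l _ => ?_
    · have := abs_le.mp (ha l)
      exact Real.cos_nonneg_of_neg_pi_div_two_le_of_le (by linarith) (by linarith)
    · have h4 := Real.cos_le_one_sub_mul_cos_sq (x := ξ l) (by linarith [ha l])
      have h5 := Real.add_one_le_exp (-(ξ l ^ 2 / 5))
      have h6 : 1 / 5 ≤ 2 / Real.pi ^ 2 := by
        rw [le_div_iff₀ (by positivity)]; nlinarith
      nlinarith [sq_nonneg (ξ l)]
  rw [← Real.exp_sum, sum_neg_distrib, ← sum_div] at h3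
  refine h3.trans ((Real.exp_le_exp.mpr (show _ ≤ -(1 / 25 : ℝ) by linarith)).trans ?_)
  have := Real.add_one_le_exp (1 / 25 : ℝ)
  rw [Real.exp_neg, inv_le_comm₀ (Real.exp_pos _) (by norm_num)]
  linarith

lemma mgf (ξ : Fin d → ℝ) (h1 : 1 / 5 ≤ ∑ l, ξ l ^ 2) (h2 : ∑ l, ξ l ^ 2 ≤ 9 / 4) :
    ∑ σ : Fin d → Bool, Real.exp (Real.cos (∑ l, sg (σ l) * ξ l) - 1) ≤
      2 ^ d * Real.exp (-(1 / 78)) := by
  have h3 : ∀ t : ℝ, Real.exp (Real.cos t - 1) ≤ 2 / 3 + Real.cos t / 3 := by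
    intro t
    have a := Real.cos_le_one t
    have b := Real.neg_one_le_cos t
    have c := Real.add_one_le_exp (1 - Real.cos t)
    have e : Real.exp (Real.cos t - 1) * Real.exp (1 - Real.cos t) = 1 := by
      rw [← Real.exp_add]; simp
    have p := Real.exp_pos (Real.cos t - 1)
    have q : Real.exp (Real.cos t - 1) * (2 - Real.cos t) ≤ 1 := by nlinarith
    by_contra hc
    have := mul_lt_mul_of_pos_right (not_le.mp hc) (show 0 < 2 - Real.cos t by linarith)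
    nlinarith
  refine (sum_le_sum fun σ _ => h3 _).trans ?_
  rw [sum_add_distrib, sum_const, ← sum_div, sum_cos]
  simp only [ card_univ, Fintype.card_fun, Fintype.card_bool, Fintype.card_fin,
    nsmul_eq_mul]
  push_cast
  have h4 := prod_cos ξ h1 h2
  have h5 := Real.add_one_le_exp (-(1 / 78 : ℝ))
  have h6 : (0 : ℝ) < 2 ^ d := by positivity
  nlinarith

/-- a good sign matrix for a finite set of frequencies -/
lemma exists_sign (T : Finset (Fin d → ℝ))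
    (hT : ∀ ξ ∈ T, 1 / 5 ≤ ∑ l, ξ l ^ 2 ∧ ∑ l, ξ l ^ 2 ≤ 9 / 4)
    (hc : (T.card : ℝ) < Real.exp (N / 312)) :
    ∃ ω : Fin N → Fin d → Bool, ∀ ξ ∈ T, Fc (fun i l => sg (ω i l)) ξ ≤ N - N / 104 := by
  have h1 : ∀ ξ ∈ T, ∑ ω : Fin N → Fin d → Bool,
      Real.exp (Fc (fun i l => sg (ω i l)) ξ - (N - N / 104)) ≤
        (2 ^ d) ^ N * Real.exp (-(N / 312)) := by
    intro ξ hξ
    have e : ∀ ω : Fin N → Fin d → Bool,
        Real.exp (Fc (fun i l => sg (ω i l)) ξ - (N - N / 104)) =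
          Real.exp (N / 104) * ∏ i, Real.exp (Real.cos (∑ l, sg (ω i l) * ξ l) - 1) := by
      intro ω
      rw [← Real.exp_sum, ← Real.exp_add, sum_sub_distrib, Fc]
      congr 1
      simp only [sum_const, card_univ, Fintype.card_fin, nsmul_eq_mul]; ring
    simp only [e, ← mul_sum]
    rw [← Fintype.prod_sum (fun (_ : Fin N) (σ : Fin d → Bool) =>
      Real.exp (Real.cos (∑ l, sg (σ l) * ξ l) - 1)), prod_const, card_univ, Fintype.card_fin]
    have h2 := pow_le_pow_left₀ (sum_nonneg fun σ _ => (Real.exp_pos _).le)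
      (mgf ξ (hT ξ hξ).1 (hT ξ hξ).2) N
    refine (mul_le_mul_of_nonneg_left h2 (Real.exp_pos _).le).trans (le_of_eq ?_)
    rw [mul_pow, ← Real.exp_nat_mul, mul_left_comm, ← Real.exp_add]
    congr 2; ring
  have h2 : ∑ ω : Fin N → Fin d → Bool, ∑ ξ ∈ T,
      Real.exp (Fc (fun i l => sg (ω i l)) ξ - (N - N / 104)) <
        ∑ _ω : Fin N → Fin d → Bool, (1 : ℝ) := by
    rw [sum_comm]
    refine (sum_le_sum h1).trans_lt ?_
    simp only [sum_const, card_univ, Fintype.card_fun, Fintype.card_bool, Fintype.card_fin,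
      nsmul_eq_mul]
    push_cast
    rw [mul_left_comm]
    refine mul_lt_mul_of_pos_left ?_ (by positivity)
    rwa [Real.exp_neg, mul_inv_lt_iff₀ (Real.exp_pos _), one_mul]
  obtain ⟨ω, -, hω⟩ := exists_lt_of_sum_lt h2
  refine ⟨ω, fun ξ hξ => ?_⟩
  have h3 := (single_le_sum (f := fun ξ =>
    Real.exp (Fc (fun i l => sg (ω i l)) ξ - (N - N / 104)))
    (fun i _ => (Real.exp_pos _).le) hξ).trans_lt hω
  have := Real.exp_lt_one_iff.mp h3
  linarith

lemma chi_eq (g : Fin N → Fin d → ℝ) (ξ : E d) :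
    chi (fun i => (WithLp.toLp 2 (g i) : E d)) ξ = Fc g (fun l => ξ l) / N := by
  have : ∀ i, ⟪(WithLp.toLp 2 (g i) : E d), ξ⟫ = ∑ l, g i l * ξ l := fun i => by
    simp [PiLp.inner_apply, mul_comm]
  simp only [chi, avg, Fc, this]

lemma main (hC : St_CNT) (hd : 1 ≤ d) (hN : (N : ℝ) = 300000 * d) : ∃ g : Fin N → E d,
    (∀ i, ‖g i‖ ^ 2 = d) ∧ ∀ ξ : E d, 1 / 2 ≤ ‖ξ‖ → ‖ξ‖ ≤ 1 → chi g ξ ≤ 1 - 1 / 200 := by
  classical
  have hd0 : (0 : ℝ) < d := by exact_mod_cast hd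
  have hd1 : (1 : ℝ) ≤ d := by exact_mod_cast hd
  obtain ⟨h, h0, hh⟩ : ∃ h : ℝ, 0 < h ∧ d * h ^ 2 = 1 / 400 :=
    ⟨√(1 / (400 * d)), Real.sqrt_pos.mpr (by positivity), by
      rw [Real.sq_sqrt (by positivity)]; field_simp⟩
  have h1 : h ≤ 1 := by nlinarith
  obtain ⟨S, hS, hm⟩ := hC d (802 * d)
  obtain ⟨ω, hω⟩ := exists_sign (N := N)
    ((S.image fun z l => h * (z l : ℝ)).filter fun ξ => 1 / 5 ≤ ∑ l, ξ l ^ 2 ∧ ∑ l, ξ l ^ 2 ≤ 9 / 4)
    (fun ξ hξ => (mem_filter.mp hξ).2) (by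
      have a1 : (2 : ℝ) ≤ Real.exp 1 := by linarith [Real.add_one_le_exp (1 : ℝ)]
      have a2 : (3 : ℝ) ≤ Real.exp 2 := by linarith [Real.add_one_le_exp (2 : ℝ)]
      have a3 : (3 : ℝ) ^ d * 2 ^ (802 * d) ≤ Real.exp 2 ^ d * Real.exp 1 ^ (802 * d) := by gcongr
      rw [← Real.exp_nat_mul, ← Real.exp_nat_mul, ← Real.exp_add] at a3
      have a4 := ((card_filter_le _ (fun ξ : Fin d → ℝ =>
        1 / 5 ≤ ∑ l, ξ l ^ 2 ∧ ∑ l, ξ l ^ 2 ≤ 9 / 4)).trans
        (card_image_le (f := fun (z : Fin d → ℤ) l => h * (z l : ℝ)))).trans hS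
      refine lt_of_le_of_lt (le_trans (by exact_mod_cast a4) a3) (Real.exp_lt_exp.mpr ?_)
      rw [hN]; push_cast; linarith)
  refine ⟨fun i => WithLp.toLp 2 fun l => sg (ω i l), fun i => ?_, fun ξ b1 b2 => ?_⟩
  · rw [EuclideanSpace.real_norm_sq_eq]; simp [sg_sq]
  obtain ⟨η, c1, c2, -, c4⟩ := round (fun i l => sg (ω i l)) (fun i l => sg_sq _) (fun l => ξ l)
    h0 h1 univ
  choose z hz using fun l => c1 l (mem_univ l)
  have q0 : ‖ξ‖ ^ 2 = ∑ l, ξ l ^ 2 := EuclideanSpace.real_norm_sq_eq ξ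
  have q1 : ∑ l, (η l - ξ l) ^ 2 ≤ 1 / 400 := by
    rw [← hh]
    refine (sum_le_sum fun l _ => (sq_le_sq' (abs_le.mp (c2 l)).1 (abs_le.mp (c2 l)).2)).trans ?_
    simp
  have q2 : ∑ l, ξ l ^ 2 ≤ 11 / 10 * ∑ l, η l ^ 2 + 11 * ∑ l, (η l - ξ l) ^ 2 := by
    rw [mul_sum, mul_sum, ← sum_add_distrib]
    exact sum_le_sum fun l _ => by nlinarith [sq_nonneg (η l + 10 * (η l - ξ l))]
  have q3 : ∑ l, η l ^ 2 ≤ 2 * ∑ l, ξ l ^ 2 + 2 * ∑ l, (η l - ξ l) ^ 2 := by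
    rw [mul_sum, mul_sum, ← sum_add_distrib]
    exact sum_le_sum fun l _ => by nlinarith [sq_nonneg (η l - 2 * ξ l)]
  have q4 : 1 / 4 ≤ ∑ l, ξ l ^ 2 := by nlinarith
  have q5 : ∑ l, ξ l ^ 2 ≤ 1 := by nlinarith [norm_nonneg ξ]
  have q6 : ∑ l, η l ^ 2 = h ^ 2 * ∑ l, (z l : ℝ) ^ 2 := by
    rw [mul_sum]; exact sum_congr rfl fun l _ => by rw [hz, mul_pow]
  have q7 : ∑ l, (z l : ℝ) ^ 2 ≤ 802 * d := by
    have : ∑ l, (z l : ℝ) ^ 2 = 400 * d * ∑ l, η l ^ 2 := by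
      rw [q6]; linear_combination (-400 * ∑ l, (z l : ℝ) ^ 2) * hh
    rw [this]; nlinarith
  have q8 : z ∈ S := hm z (by
    have : ∑ l, |z l| ≤ ∑ l, z l ^ 2 := sum_le_sum fun l _ => by
      rw [← sq_abs]; exact Int.le_self_sq _
    refine this.trans ?_
    exact_mod_cast q7)
  have c5 := hω η (mem_filter.mpr ⟨mem_image.mpr ⟨z, q8, (funext hz).symm⟩,
    by linarith, by linarith⟩)
  rw [chi_eq (fun i l => sg (ω i l)), div_le_iff₀ (by rw [hN]; positivity)]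
  simp only [card_univ, Fintype.card_fin] at c4
  have c6 : (d : ℝ) * (N * h ^ 2) = N / 400 := by linear_combination (N : ℝ) * hh
  have c7 : (0 : ℝ) ≤ N := Nat.cast_nonneg _
  linarith

end T17

theorem st_SIGN (hC : St_CNT) : St_SIGN :=
  ⟨300000, 1 / 200, by norm_num, by norm_num, fun _ hd => T17.main hC hd (by push_cast; rfl)⟩

end Pool.Agent.Lib.VD
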