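import Pool.Agent.Lib.VD.Gau

open MeasureTheory Set Module Metric
open scoped RealInnerProductSpace ENNReal Pointwise

namespace Pool.Agent.Lib.VD

namespace S28

theorem pointwise {n k : ℕ} (hk : 1 ≤ k) {t : ℝ} (ht : 0 < t) (x : E n) {g : ℝ} (hg : 0 ≤ g)
    (hg1 : g ≤ 1) :
    ENNReal.ofReal g * ENNReal.ofReal ((‖x‖ ^ k)⁻¹) ≤
      ENNReal.ofReal (t ^ k) * ENNReal.ofReal g +
        ∑' j : ℕ, (closedBall (0 : E n) (t⁻¹ / 2 ^ j)).indicator
          (fun _ => ENNReal.ofReal ((2 ^ (j + 1) * t) ^ k)) x := by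
  rcases eq_or_lt_of_le (norm_nonneg x) with h0 | h0
  · rw [← h0, zero_pow (by omega), inv_zero, ENNReal.ofReal_zero, mul_zero]
    exact zero_le
  rcases le_total 1 (t * ‖x‖) with h1 | h1
  · refine le_trans ?_ le_self_add
    rw [mul_comm]
    refine mul_le_mul_left (ENNReal.ofReal_le_ofReal ?_) _
    rw [← inv_pow]
    refine pow_le_pow_left₀ (by positivity) ?_ k
    rw [inv_le_iff_one_le_mul₀ h0]
    exact h1
  · refine le_trans ?_ le_add_self
    have h2 : 1 ≤ (t * ‖x‖)⁻¹ := (one_le_inv₀ (by positivity)).mpr h1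
    obtain ⟨j, hj1, hj2⟩ := exists_nat_pow_near h2 (one_lt_two (α := ℝ))
    refine le_trans ?_ (ENNReal.le_tsum j)
    have hm : x ∈ closedBall (0 : E n) (t⁻¹ / 2 ^ j) := by
      rw [mem_closedBall_zero_iff, le_div_iff₀ (by positivity)]
      calc ‖x‖ * 2 ^ j ≤ ‖x‖ * (t * ‖x‖)⁻¹ := mul_le_mul_of_nonneg_left hj1 h0.le
        _ = t⁻¹ := by field_simp
    rw [indicator_of_mem hm, ← ENNReal.ofReal_mul hg]
    refine ENNReal.ofReal_le_ofReal ?_
    have h3 : ‖x‖⁻¹ ≤ 2 ^ (j + 1) * t := by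
      calc ‖x‖⁻¹ = (t * ‖x‖)⁻¹ * t := by field_simp
        _ ≤ 2 ^ (j + 1) * t := mul_le_mul_of_nonneg_right hj2.le ht.le
    calc g * (‖x‖ ^ k)⁻¹ ≤ 1 * (‖x‖ ^ k)⁻¹ := mul_le_mul_of_nonneg_right hg1 (by positivity)
      _ = ‖x‖⁻¹ ^ k := by rw [one_mul, inv_pow]
      _ ≤ _ := pow_le_pow_left₀ (by positivity) h3 k

theorem core {n k : ℕ} (hk : 1 ≤ k) (hkn : k < n) {t W : ℝ} (ht : 0 < t) (hW : 0 ≤ W)
    (g : E n → ℝ) (hm : Measurable g) (hg : ∀ x, 0 ≤ g x) (hg1 : ∀ x, g x ≤ 1)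
    (hG : ∫⁻ x, ENNReal.ofReal (g x) ≤ ENNReal.ofReal W)
    (hb : ∀ j : ℕ, volume (closedBall (0 : E n) (t⁻¹ / 2 ^ j)) ≤
      ENNReal.ofReal (W / (2 ^ j) ^ n)) :
    ∫⁻ x, ENNReal.ofReal (g x) * ENNReal.ofReal ((‖x‖ ^ k)⁻¹) ≤
      ENNReal.ofReal (t ^ k * W * (1 + 2 * 2 ^ k)) := by
  refine (lintegral_mono fun x => pointwise hk ht x (hg x) (hg1 x)).trans ?_
  rw [lintegral_add_left (by fun_prop), lintegral_const_mul _ (by fun_prop),
    lintegral_tsum fun j => (measurable_const.indicator measurableSet_closedBall).aemeasurable]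
  have h1 : ∀ j : ℕ, ∫⁻ x, (closedBall (0 : E n) (t⁻¹ / 2 ^ j)).indicator
      (fun _ => ENNReal.ofReal ((2 ^ (j + 1) * t) ^ k)) x ≤
        ENNReal.ofReal (t ^ k * W * 2 ^ k * (1 / 2) ^ j) := by
    intro j
    rw [lintegral_indicator_const measurableSet_closedBall]
    refine (mul_le_mul_right (hb j) _).trans ?_
    rw [← ENNReal.ofReal_mul (by positivity)]
    refine ENNReal.ofReal_le_ofReal ?_
    have h2 : ((2 : ℝ) ^ j) ^ (k + 1) ≤ (2 ^ j) ^ n :=
      pow_le_pow_right₀ (one_le_pow₀ one_le_two) hkn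
    calc (2 ^ (j + 1) * t) ^ k * (W / (2 ^ j) ^ n)
        ≤ (2 ^ (j + 1) * t) ^ k * (W / (2 ^ j) ^ (k + 1)) :=
          mul_le_mul_of_nonneg_left (div_le_div_of_nonneg_left hW (by positivity) h2)
            (by positivity)
      _ = t ^ k * W * 2 ^ k * (1 / 2) ^ j := by
          rw [pow_succ (2 : ℝ) j, mul_pow, mul_pow, pow_succ ((2 : ℝ) ^ j) k, one_div, inv_pow]
          field_simp
  have h3 : ∑' j : ℕ, ENNReal.ofReal (t ^ k * W * 2 ^ k * (1 / 2) ^ j) =
      ENNReal.ofReal (t ^ k * W * 2 ^ k * 2) := by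
    rw [← ENNReal.ofReal_tsum_of_nonneg (fun j => by positivity)
      (summable_geometric_two.mul_left _), tsum_mul_left, tsum_geometric_two]
  refine (add_le_add (mul_le_mul_right hG _) ((ENNReal.tsum_le_tsum h1).trans h3.le)).trans ?_
  rw [← ENNReal.ofReal_mul (by positivity), ← ENNReal.ofReal_add (by positivity) (by positivity)]
  refine ENNReal.ofReal_le_ofReal (le_of_eq ?_)
  ring

theorem five {k : ℕ} (hk : 1 ≤ k) : (1 : ℝ) + 2 * 2 ^ k ≤ 5 ^ k := by
  induction k, hk using Nat.le_induction with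
  | base => norm_num
  | succ m _ ih =>
    have : (0 : ℝ) < 2 ^ m := by positivity
    rw [pow_succ, pow_succ]; nlinarith

theorem nine : 5 * √(Real.exp 1) ≤ 9 := by
  have h : √(Real.exp 1) ≤ 9 / 5 := by
    rw [Real.sqrt_le_iff]
    refine ⟨by norm_num, ?_⟩
    have := Real.exp_one_lt_d9
    linarith
  linarith

end S28

open S28 in
theorem st_SING (hB : St_BALL) : St_SING := by
  intro n k U hk hkn
  set D := |LinearMap.det (U : E n →ₗ[ℝ] E n)| with hD
  have hD0 : 0 < D := abs_pos.mpr (LinearEquiv.isUnit_det' U).ne_zero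
  have hn1 : 1 ≤ n := by omega
  have hn0 : (0 : ℝ) < n := by exact_mod_cast hn1
  have hs : 0 < √(n : ℝ) := Real.sqrt_pos.mpr hn0
  have he : 0 < √(Real.exp 1) := Real.sqrt_pos.mpr (Real.exp_pos 1)
  set q := D ^ ((1 : ℝ) / n) with hq
  have hq0 : 0 < q := Real.rpow_pos_of_pos hD0 _
  have hqn : q ^ n = D := by
    rw [hq, ← Real.rpow_natCast, ← Real.rpow_mul hD0.le, one_div_mul_cancel hn0.ne',
      Real.rpow_one]
  have hqk : q ^ k = D ^ ((k : ℝ) / n) := by
    rw [hq, ← Real.rpow_natCast, ← Real.rpow_mul hD0.le]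
    congr 1; ring
  have hUc : Continuous U := (U : E n →ₗ[ℝ] E n).continuous_of_finiteDimensional
  have hc := core (n := n) hk hkn (t := √(Real.exp 1) / √n * q) (W := √(2 * Real.pi) ^ n / D)
    (by positivity) (by positivity) (fun x => Real.exp (-‖U x‖ ^ 2 / 2)) (by fun_prop)
    (fun x => (Real.exp_pos _).le)
    (fun x => Real.exp_le_one_iff.mpr (by have := sq_nonneg ‖U x‖; linarith))
    (by
      have h := Gau.lintegral_comp_equiv U
        (fun z => ENNReal.ofReal (Real.exp (-‖z‖ ^ 2 / 2))) (by fun_prop)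
      rw [h, Gau.lintegral_gauss_half, finrank_euclideanSpace_fin,
        ← ENNReal.ofReal_mul (by positivity), ← hD, mul_comm, div_eq_mul_inv])
    (by
      intro j
      refine (hB n _ hn1 (by positivity)).2.trans (ENNReal.ofReal_le_ofReal (le_of_eq ?_))
      have e1 : √(2 * Real.pi * Real.exp 1 / n) = √(2 * Real.pi) * √(Real.exp 1) / √n := by
        rw [Real.sqrt_div' _ hn0.le, Real.sqrt_mul (by positivity)]
      have e2 : (√(Real.exp 1) / √n * q)⁻¹ / 2 ^ j * (√(2 * Real.pi) * √(Real.exp 1) / √n) =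
          √(2 * Real.pi) / q / 2 ^ j := by
        field_simp
      rw [e1, e2, div_pow, div_pow, hqn])
  refine hc.trans (ENNReal.ofReal_le_ofReal ?_)
  have h1 : (√(Real.exp 1) / √n) ^ k * 5 ^ k ≤ (9 / √n) ^ k := by
    rw [← mul_pow]
    refine pow_le_pow_left₀ (by positivity) ?_ k
    rw [div_mul_eq_mul_div]
    exact div_le_div_of_nonneg_right (by linarith [nine]) hs.le
  calc (√(Real.exp 1) / √n * q) ^ k * (√(2 * Real.pi) ^ n / D) * (1 + 2 * 2 ^ k)
      ≤ (√(Real.exp 1) / √n * q) ^ k * (√(2 * Real.pi) ^ n / D) * 5 ^ k :=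
        mul_le_mul_of_nonneg_left (five hk) (by positivity)
    _ = ((√(Real.exp 1) / √n) ^ k * 5 ^ k) * (q ^ k * (√(2 * Real.pi) ^ n / D)) := by
        rw [mul_pow]; ring
    _ ≤ (9 / √n) ^ k * (q ^ k * (√(2 * Real.pi) ^ n / D)) :=
        mul_le_mul_of_nonneg_right h1 (by positivity)
    _ = _ := by rw [hqk]; ring

end Pool.Agent.Lib.VD
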