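import Pool.Agent.Lib.VD.Blue

open MeasureTheory Set Module Metric
open scoped RealInnerProductSpace ENNReal Pointwise

namespace Pool.Agent.Lib.VD

namespace T88

variable {d : ℕ}

theorem pt_zero (s : ℝ) (y : E d) : pt s y 0 = s := rfl

theorem pt_succ (s : ℝ) (y : E d) (i : Fin d) : pt s y i.succ = y i := rfl

theorem pt_hor (p : E (d + 1)) : pt (p 0) (hor p) = p := by
  ext i
  exact Fin.cases rfl (fun _ => rfl) i

theorem pt_add (s t : ℝ) (y z : E d) : pt (s + t) (y + z) = pt s y + pt t z := by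
  ext i
  exact Fin.cases rfl (fun _ => rfl) i

theorem pt_smul (c s : ℝ) (y : E d) : pt (c * s) (c • y) = c • pt s y := by
  ext i
  exact Fin.cases rfl (fun _ => rfl) i

theorem inner_pt (s t : ℝ) (y z : E d) : ⟪pt s y, pt t z⟫ = s * t + ⟪y, z⟫ := by
  simp only [PiLp.inner_apply, Fin.sum_univ_succ, pt_zero, pt_succ]
  simp [mul_comm]

theorem norm_pt (s : ℝ) (y : E d) : ‖pt s y‖ ^ 2 = s ^ 2 + ‖y‖ ^ 2 := by
  rw [← real_inner_self_eq_norm_sq, inner_pt, real_inner_self_eq_norm_sq, ← sq]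

/-- the horizontal embedding -/
noncomputable def emb (d : ℕ) : E d →ₗ[ℝ] E (d + 1) where
  toFun y := pt 0 y
  map_add' y z := by rw [← pt_add, add_zero]
  map_smul' c y := by rw [RingHom.id_apply, ← pt_smul, mul_zero]

theorem pt_split (s : ℝ) (y v : E d) : pt s (y + s • v) = emb d y + s • pt 1 v := by
  rw [← pt_smul, mul_one]
  exact (congrArg (pt · _) (zero_add s).symm).trans (pt_add 0 s y (s • v))

theorem exists_dir (F : Submodule ℝ (E (d + 1))) (h : ∃ p ∈ F, p 0 ≠ 0) :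
    ∃ v : E d, pt 1 v ∈ F ∧ ∀ y, emb d y ∈ F → ⟪v, y⟫ = 0 := by
  obtain ⟨p, hp, h0⟩ := h
  obtain ⟨q, hq, r, hr, e⟩ := F.exists_add_mem_mem_orthogonal (pt 1 0)
  have k : ∀ x ∈ F, ⟪x, q⟫ = x 0 := fun x hx => by
    have := inner_pt (x 0) 1 (hor x) 0
    rw [pt_hor, e, inner_add_right, hr x hx] at this
    simpa using this
  have q0 : q 0 ≠ 0 := fun h1 => h0 (by
    rw [← k p hp, inner_self_eq_zero.1 ((k q hq).trans h1), inner_zero_right])
  have e1 : pt 1 ((q 0)⁻¹ • hor q) = (q 0)⁻¹ • q := by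
    rw [← inv_mul_cancel₀ q0, pt_smul, pt_hor]
  refine ⟨(q 0)⁻¹ • hor q, e1 ▸ F.smul_mem _ hq, fun y hy => ?_⟩
  have k1 := k _ hy
  have k2 := inner_pt 0 (q 0) y (hor q)
  rw [pt_hor, zero_mul, zero_add] at k2
  rw [inner_smul_left, real_inner_comm, ← k2]
  exact mul_eq_zero_of_right _ k1

/-- the isometric parametrisation of the subspace -/
noncomputable def par (v : E d) (G : Submodule ℝ (E d)) (h : ∀ y ∈ G, ⟪v, y⟫ = 0) :
    WithLp 2 (G × ℝ) →ₗᵢ[ℝ] E (d + 1) where
  toFun x := emb d x.fst + ((√(1 + ‖v‖ ^ 2))⁻¹ * x.snd) • pt 1 v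
  map_add' x y := by
    simp only [WithLp.add_fst, WithLp.add_snd, Submodule.coe_add, map_add, mul_add, add_smul]
    abel
  map_smul' c x := by
    simp only [WithLp.smul_fst, WithLp.smul_snd, Submodule.coe_smul, map_smul, RingHom.id_apply,
      smul_add, smul_smul, smul_eq_mul, mul_left_comm]
  norm_map' x := by
    have c0 : 0 < 1 + ‖v‖ ^ 2 := by positivity
    rw [← sq_eq_sq₀ (norm_nonneg _) (norm_nonneg _), WithLp.prod_norm_sq_eq_of_L2]
    change ‖emb d x.fst + ((√(1 + ‖v‖ ^ 2))⁻¹ * x.snd) • pt 1 v‖ ^ 2 = _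
    rw [← pt_split, norm_pt, norm_add_sq_real, inner_smul_right, real_inner_comm, h _ x.fst.2,
      norm_smul, mul_pow ‖_‖, Real.norm_eq_abs, sq_abs, mul_pow, inv_pow, Real.sq_sqrt c0.le,
      Real.norm_eq_abs, sq_abs, Submodule.coe_norm]
    field_simp
    ring

end T88

open T88 in
theorem st_SLICE : St_SLICE := by
  intro d m F hF h
  obtain ⟨v, hv, ho⟩ := exists_dir F h
  have c0 : 0 < √(1 + ‖v‖ ^ 2) := by positivity
  set G := F.comap (emb d)
  set Φ := par v G ho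
  have hΦ : ∀ x, Φ x = emb d x.fst + ((√(1 + ‖v‖ ^ 2))⁻¹ * x.snd) • pt 1 v := fun _ => rfl
  have hr : LinearMap.range Φ.toLinearMap = F := by
    refine le_antisymm ?_ fun p hp => ?_
    · rintro _ ⟨x, rfl⟩
      exact F.add_mem x.fst.2 (F.smul_mem _ hv)
    · have e := pt_split (p 0) (hor p - p 0 • v) v
      rw [sub_add_cancel, pt_hor] at e
      refine ⟨WithLp.toLp 2 (⟨hor p - p 0 • v, ?_⟩, √(1 + ‖v‖ ^ 2) * p 0), ?_⟩
      · rw [Submodule.mem_comap, eq_sub_of_add_eq e.symm]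
        exact F.sub_mem hp (F.smul_mem _ hv)
      · refine (hΦ _).trans (Eq.trans ?_ e.symm)
        simp only [WithLp.toLp_fst, WithLp.toLp_snd, inv_mul_cancel_left₀ c0.ne']
  have hd : finrank ℝ (WithLp 2 (G × ℝ)) = m + 1 := by
    rw [← hF, ← hr, LinearMap.finrank_range_of_inj Φ.injective]
  refine ⟨v, G, ?_, ho, fun A hA => ?_⟩
  · rw [(WithLp.linearEquiv 2 ℝ (G × ℝ)).finrank_eq, finrank_prod, finrank_self] at hd
    omega
  · have m1 : MeasurableSet (Φ ⁻¹' A) := Φ.continuous.measurable hA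
    have e1 : (F : Set (E (d + 1))) = range Φ := by rw [← hr]; rfl
    rw [e1, ← Φ.isometry.euclideanHausdorffMeasure_preimage, ← hd,
      InnerProductSpace.euclideanHausdorffMeasure_eq_volume,
      ← (WithLp.volume_preserving_toLp G ℝ).measure_preimage m1.nullMeasurableSet,
      Measure.volume_eq_prod, Measure.prod_apply ((WithLp.volume_preserving_toLp G ℝ).measurable m1),
      ← lintegral_const_mul' _ _ ENNReal.ofReal_ne_top]
    refine lintegral_congr fun y => ?_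
    have := Real.volume_preimage_mul_left (inv_ne_zero c0.ne')
      {s : ℝ | pt s ((y : E d) + s • v) ∈ A}
    rw [inv_inv, abs_of_pos c0] at this
    rw [← this]
    congr 1
    ext t
    simp only [mem_preimage, mem_setOf_eq, pt_split, hΦ, WithLp.toLp_fst, WithLp.toLp_snd]

end Pool.Agent.Lib.VD
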