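import Pool.Agent.Lib.VD.Blue

open MeasureTheory Set Module Metric
open scoped RealInnerProductSpace ENNReal Pointwise

namespace Pool.Agent.Lib.VD

namespace T74

theorem exp_bound {k : ℝ} (hk : 1 ≤ k) : Real.exp (2 / k) - 1 + 1 / k ≤ 16 / k := by
  have hk0 : 0 < k := by linarith
  have ht : 2 / k ≤ 2 := by rw [div_le_iff₀ hk0]; linarith
  have ht0 : 0 ≤ 2 / k := by positivity
  have h1 : Real.exp (2 / k) - 1 ≤ 2 / k * Real.exp (2 / k) := by
    have h := Real.add_one_le_exp (-(2 / k))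
    have h2 : Real.exp (-(2 / k)) * Real.exp (2 / k) = 1 := by rw [← Real.exp_add]; simp
    have h3 := Real.exp_pos (2 / k)
    nlinarith
  have h2 : Real.exp (2 / k) ≤ 15 / 2 := by
    refine (Real.exp_le_exp.2 ht).trans ?_
    have h := Real.exp_one_lt_d9
    have h0 := Real.exp_pos 1
    have e : Real.exp 2 = Real.exp 1 * Real.exp 1 := by rw [← Real.exp_add]; norm_num
    rw [e]; nlinarith
  have h3 : 2 / k * Real.exp (2 / k) ≤ 2 / k * (15 / 2) := mul_le_mul_of_nonneg_left h2 ht0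
  have e : 16 / k = 2 / k * (15 / 2) + 1 / k := by field_simp; norm_num
  linarith

theorem arith (n k : ℕ) (hk : 1 ≤ k) (hkn : k < n) (M V D : ℝ) (hM : 0 < M) (hV : 0 ≤ V)
    (hD0 : 0 ≤ D) (hD : D ≤ (16 * Real.exp 7 * n) ^ n * V) :
    M * (27 * (4 / √k) / √n) ^ k * D ^ ((k : ℝ) / n) ≤
      M * (1728 * Real.exp 7 * √((n : ℝ) / k)) ^ k * V ^ ((k : ℝ) / n) := by
  have hn : (0 : ℝ) < n := by exact_mod_cast (by omega : 0 < n)
  have hk0 : (0 : ℝ) < k := by exact_mod_cast hk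
  have h1 : D ^ ((k : ℝ) / n) ≤ (16 * Real.exp 7 * n) ^ k * V ^ ((k : ℝ) / n) := by
    refine (Real.rpow_le_rpow hD0 hD (by positivity)).trans (le_of_eq ?_)
    rw [Real.mul_rpow (by positivity) hV, ← Real.rpow_natCast _ n, ← Real.rpow_mul (by positivity),
      mul_div_cancel₀ _ hn.ne', Real.rpow_natCast]
  have hs : 0 < √(n : ℝ) := Real.sqrt_pos.2 hn
  have hs' : 0 < √(k : ℝ) := Real.sqrt_pos.2 hk0
  have e : 27 * (4 / √k) / √n * (16 * Real.exp 7 * n) = 1728 * Real.exp 7 * √((n : ℝ) / k) := by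
    rw [Real.sqrt_div hn.le]
    have h := Real.mul_self_sqrt hn.le
    field_simp
    nlinarith
  calc M * (27 * (4 / √k) / √n) ^ k * D ^ ((k : ℝ) / n)
      ≤ M * (27 * (4 / √k) / √n) ^ k * ((16 * Real.exp 7 * n) ^ k * V ^ ((k : ℝ) / n)) :=
        mul_le_mul_of_nonneg_left h1 (by positivity)
    _ = _ := by rw [← e, mul_pow (27 * (4 / √k) / √n)]; simp only [mul_assoc]

/-- Tonelli step -/
theorem tonelli {n : ℕ} (A S : Set (E n)) (G : Set (E n × E n)) (c B : ℝ≥0∞)
    (hA : MeasurableSet A) (hS : MeasurableSet S) (hG : MeasurableSet G)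
    (h0 : volume S ≠ 0) (h1 : volume S ≠ ⊤) (hc : c ≠ ⊤)
    (hx : ∀ x ∈ A, volume S ≤ c * volume {ξ | (x, ξ) ∈ G})
    (hGS : ∀ p ∈ G, p.2 ∈ S) (hξ : ∀ ξ ∈ S, volume {x | (x, ξ) ∈ G} ≤ B) :
    volume A ≤ c * B := by
  have e1 : ∫⁻ x, volume {ξ | (x, ξ) ∈ G} = ∫⁻ ξ, volume {x | (x, ξ) ∈ G} :=
    (Measure.prod_apply hG).symm.trans (Measure.prod_apply_symm hG)
  have h2 : volume S * volume A ≤ c * ∫⁻ x, volume {ξ | (x, ξ) ∈ G} := by
    rw [← setLIntegral_const, ← lintegral_const_mul' _ _ hc]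
    exact (setLIntegral_mono' hA hx).trans (setLIntegral_le_lintegral _ _)
  have h3 : ∫⁻ ξ, volume {x | (x, ξ) ∈ G} ≤ B * volume S := by
    rw [← setLIntegral_const, ← lintegral_indicator hS]
    refine lintegral_mono fun ξ => ?_
    by_cases h : ξ ∈ S
    · rw [indicator_of_mem h]; exact hξ ξ h
    · have : {x | (x, ξ) ∈ G} = ∅ := eq_empty_of_forall_notMem fun x hx => h (hGS _ hx)
      simp [this]
  rw [e1] at h2
  have h4 : volume S * volume A ≤ volume S * (c * B) := by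
    refine h2.trans ((mul_le_mul_right h3 c).trans (le_of_eq ?_))
    ring
  exact (ENNReal.mul_le_mul_iff_right h0 h1).1 h4

end T74

open T74 in
theorem st_UMAIN (hP : St_POL) (hE : St_ELL) (hD : St_DET) (hG : St_GOOD) : St_UMAIN := by
  refine ⟨Real.exp 2 * (1728 * Real.exp 7), by positivity,
    fun n k K A M hk hkn hK hA hAK hM hsec => ?_⟩
  have hn : (0 : ℝ) < n := by exact_mod_cast (by omega : 0 < n)
  have hk1 : (1 : ℝ) ≤ k := by exact_mod_cast hk
  have hk0 : (0 : ℝ) < k := by linarith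
  have hkn' : (k : ℝ) ≤ n := by exact_mod_cast hkn.le
  obtain ⟨-, hvK, -, -, hin, hZc, hZp⟩ := hP n K hK
  obtain ⟨R, hR, hKR⟩ := hK.1.isBounded.subset_closedBall_lt 0 (0 : E n)
  set S : Set (E n) := ((n : ℝ) + k) • K with hS
  have hSc : IsCompact S := hK.1.smul _
  have hS0 : volume S ≠ 0 := by
    rw [hS, Measure.addHaar_smul]
    refine mul_ne_zero ?_ hvK.ne'
    rw [Ne, ENNReal.ofReal_eq_zero, not_le]
    positivity
  set G : Set (E n × E n) := {p | p.1 ∈ A ∧ p.2 ∈ S ∧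
    Z (pol K) (p.2 + p.1) * Z (pol K) (p.2 - p.1) ≤ Real.exp (2 / k) * Z (pol K) p.2 ^ 2} with hGd
  have hGm : MeasurableSet G := by
    refine (measurable_fst hA).inter ((measurable_snd hSc.measurableSet).inter ?_)
    have hc : IsClosed {p : E n × E n | Z (pol K) (p.2 + p.1) * Z (pol K) (p.2 - p.1) ≤
        Real.exp (2 / k) * Z (pol K) p.2 ^ 2} := isClosed_le (by fun_prop) (by fun_prop)
    exact hc.measurableSet
  have key := tonelli A S G (ENNReal.ofReal (k * Real.exp k))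
    (ENNReal.ofReal (M * (1728 * Real.exp 7 * √((n : ℝ) / k)) ^ k *
      (volume K).toReal ^ ((k : ℝ) / n))) hA hSc.measurableSet hGm hS0 hSc.measure_lt_top.ne
    ENNReal.ofReal_ne_top (fun x hx => by
      refine (hG n k K x (by omega) hk hK (hAK hx)).trans (le_of_eq ?_)
      congr 2
      ext ξ
      simp only [hGd, mem_ofPred_eq, hx, true_and, hS])
    (fun p hp => hp.2.1) (fun ξ hξ => by
      obtain ⟨x0, hx0, hξe⟩ := hξ
      obtain ⟨U, hU1, hU2⟩ := hD n K ξ (1 / (k * R ^ 2)) (by omega) hK (by positivity)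
        (fun y hy => by
          rw [← hξe]
          simp only [real_inner_smul_left, abs_mul]
          rw [abs_of_pos (by positivity : (0 : ℝ) < n + k)]
          have := hin x0 hx0 y hy
          nlinarith)
      have hm : MeasurableSet {x | (x, ξ) ∈ G} := measurable_prodMk_right hGm
      refine (hE n k U {x | (x, ξ) ∈ G} (4 / √k) M hk hkn hm (by positivity) hM
        (fun x hx => ?_) (fun F hF => ?_)).trans (ENNReal.ofReal_le_ofReal ?_)
      · have h1 := hU2 x
        have h2 : Z (pol K) (ξ + x) * Z (pol K) (ξ - x) ≤ Real.exp (2 / k) * Z (pol K) ξ ^ 2 :=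
          hx.2.2
        have h3 : ‖x‖ ≤ R := by simpa using hKR (hAK hx.1)
        have h4 : 1 / (k * R ^ 2) * ‖x‖ ^ 2 ≤ 1 / k := by
          have : ‖x‖ ^ 2 ≤ R ^ 2 := by gcongr
          calc 1 / (k * R ^ 2) * ‖x‖ ^ 2 ≤ 1 / (k * R ^ 2) * R ^ 2 := by gcongr
            _ = 1 / (k : ℝ) := by field_simp
        have hz : 0 < Z (pol K) ξ ^ 2 := pow_pos (hZp ξ) 2
        have h5 := mul_le_mul_of_nonneg_right h4 hz.le
        have h6 := mul_le_mul_of_nonneg_right (exp_bound hk1) hz.le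
        have h7 : ‖U.symm x‖ ^ 2 ≤ 16 / k := le_of_mul_le_mul_right (by nlinarith) hz
        refine (pow_le_pow_iff_left₀ (norm_nonneg _) (by positivity) two_ne_zero).1 (h7.trans ?_)
        rw [div_pow, Real.sq_sqrt hk0.le]; norm_num
      · exact (measure_mono (inter_subset_inter_left _ fun x hx => hx.1)).trans (hsec F hF)
      · exact arith n k hk hkn M _ _ hM ENNReal.toReal_nonneg (abs_nonneg _) hU1)
  rw [← ENNReal.ofReal_mul (by positivity)] at key
  refine (ENNReal.toReal_le_of_le_ofReal (by positivity) key).trans ?_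
  have h1 : (k : ℝ) * Real.exp k ≤ Real.exp 2 ^ k := by
    have h := Real.add_one_le_exp (k : ℝ)
    have e : Real.exp 2 ^ k = Real.exp k * Real.exp k := by
      rw [← Real.exp_nat_mul, ← Real.exp_add]; congr 1; ring
    rw [e]
    exact mul_le_mul_of_nonneg_right (by linarith) (Real.exp_pos _).le
  calc _ ≤ Real.exp 2 ^ k * (M * (1728 * Real.exp 7 * √((n : ℝ) / k)) ^ k *
        (volume K).toReal ^ ((k : ℝ) / n)) := mul_le_mul_of_nonneg_right h1 (by positivity)
    _ = _ := by rw [mul_assoc (Real.exp 2), mul_pow (Real.exp 2)]; ring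

end Pool.Agent.Lib.VD
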