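import Pool.Agent.Lib.VD.H77

open MeasureTheory Set Module Metric
open scoped RealInnerProductSpace ENNReal Pointwise

namespace Pool.Agent.Lib.VD

open T77 in
theorem st_UP (hF : St_FIN) (hP : St_POL) (hU : St_UMAIN) : St_UP := by
  obtain ⟨C, hC, h⟩ := hU
  refine ⟨C, hC, fun n k hk hkn K L hK hL hLK M hM => ?_⟩
  have hn : (0 : ℝ) < n := by exact_mod_cast (by omega : 0 < n)
  obtain ⟨F0, hF0⟩ := exists_sub (n := n) (m := n - k) (by omega)
  have hM0 : 0 ≤ M := by
    have := (sec_diff hF hK.1 hL.1 hLK F0 hF0).2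
    have h2 := hM F0 hF0
    rw [← this] at h2
    exact ENNReal.toReal_nonneg.trans h2
  have hb : 0 < (volume L).toReal :=
    ENNReal.toReal_pos (hP n L hL).2.1.ne' hL.1.measure_lt_top.ne
  have hba : (volume L).toReal ≤ (volume K).toReal :=
    ENNReal.toReal_mono hK.1.measure_lt_top.ne (measure_mono hLK)
  have ha := hb.trans_le hba
  have e : ((n : ℝ) - k) / n = 1 - k / n := by field_simp
  have h1 := rpow_up (q := (k : ℝ) / n) hb hba (by positivity)
  have hq : 0 < (volume K).toReal ^ ((k : ℝ) / n) := Real.rpow_pos_of_pos ha _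
  have hk0 : (0 : ℝ) < k := by exact_mod_cast hk
  have hg : 0 < (C * √((n : ℝ) / k)) ^ k := by positivity
  rw [e]
  refine le_of_forall_pos_le_add fun η hη => ?_
  have h2 := h n k K (K \ L) (M + η / (C * √((n : ℝ) / k)) ^ k) hk hkn hK
    (hK.1.measurableSet.diff hL.1.measurableSet) sdiff_subset (by positivity) (by
      intro F hFr
      obtain ⟨h3, h4⟩ := sec_diff hF hK.1 hL.1 hLK F hFr
      rw [ENNReal.le_ofReal_iff_toReal_le h3 (by positivity), h4]
      exact (hM F hFr).trans (le_add_of_nonneg_right (by positivity)))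
  rw [vol_diff hK.1 hL.1 hLK] at h2
  have h5 := le_of_mul_le_mul_right (h1.trans h2) hq
  rw [add_mul, div_mul_cancel₀ _ hg.ne'] at h5
  linarith

end Pool.Agent.Lib.VD
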