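import Pool.Agent.Lib.VD.B_FIN
import Pool.Agent.Lib.VD.B_BALL
import Pool.Agent.Lib.VD.B_POL
import Pool.Agent.Lib.VD.B_SEC
import Pool.Agent.Lib.VD.B_KER
import Pool.Agent.Lib.VD.B_SING
import Pool.Agent.Lib.VD.B_ELL
import Pool.Agent.Lib.VD.B_PACK
import Pool.Agent.Lib.VD.B_DUAL
import Pool.Agent.Lib.VD.B_COV
import Pool.Agent.Lib.VD.B_DET
import Pool.Agent.Lib.VD.B_GOOD
import Pool.Agent.Lib.VD.B_UMAIN
import Pool.Agent.Lib.VD.B_UP
import Pool.Agent.Lib.VD.B_CNT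
import Pool.Agent.Lib.VD.B_SIGN
import Pool.Agent.Lib.VD.B_FRAME
import Pool.Agent.Lib.VD.B_CHAR
import Pool.Agent.Lib.VD.B_FOUR
import Pool.Agent.Lib.VD.B_SHELL
import Pool.Agent.Lib.VD.B_BASE
import Pool.Agent.Lib.VD.B_MASS
import Pool.Agent.Lib.VD.B_CONC
import Pool.Agent.Lib.VD.B_BODY
import Pool.Agent.Lib.VD.B_SLICE
import Pool.Agent.Lib.VD.B_SECT
import Pool.Agent.Lib.VD.B_PAIR
import Pool.Agent.Lib.VD.B_LOW

open MeasureTheory Set Module Metric Filter Topology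
open scoped RealInnerProductSpace ENNReal Pointwise

namespace Pool.Agent.Lib.VD

theorem umain : St_UMAIN :=
  st_UMAIN st_POL (st_ELL st_SEC st_KER (st_SING st_BALL))
    (st_DET st_POL st_PACK (st_DUAL st_BALL) st_COV) (st_GOOD st_POL)

theorem upper : St_UP := st_UP st_FIN st_POL umain

theorem lower : St_LOW :=
  st_LOW st_FIN st_POL (st_PAIR (st_FRAME (st_SIGN st_CNT)) st_CHAR st_FOUR st_SHELL
    (st_BASE st_CNT st_BALL) st_MASS st_CONC st_BODY (st_SECT st_SLICE))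

theorem closed_volDiff (n k : ℕ) : IsClosed {γ : ℝ | VolDiff n k γ} := by
  refine isClosed_of_closure_subset fun γ hγ K L hK hL hLK M hM => ?_
  have hc : IsClosed {g : ℝ | (volume K).toReal ^ (((n : ℝ) - k) / n) -
      (volume L).toReal ^ (((n : ℝ) - k) / n) ≤ g ^ k * M} :=
    isClosed_le continuous_const (by fun_prop)
  exact hc.closure_subset_iff.2 (fun g (hg : VolDiff n k g) => hg K L hK hL hLK M hM) hγ

theorem sharp : ∃ c C : ℝ, 0 < c ∧ 0 < C ∧ ∀ n k : ℕ, 1 ≤ k → k < n →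
    ∃ γ : ℝ, IsLeast {g : ℝ | 0 < g ∧ VolDiff n k g} γ ∧
      c * √((n : ℝ) / k) ≤ γ ∧ γ ≤ C * √((n : ℝ) / k) := by
  obtain ⟨C, hC, hU⟩ := upper
  obtain ⟨c, hc, hL⟩ := lower
  refine ⟨c, C, hc, hC, fun n k hk hkn => ?_⟩
  have hk0 : (0 : ℝ) < k := by exact_mod_cast hk
  have hn0 : (0 : ℝ) < n := by exact_mod_cast (by omega : 0 < n)
  have hs : 0 < √((n : ℝ) / k) := Real.sqrt_pos.2 (by positivity)
  have e : {g : ℝ | 0 < g ∧ VolDiff n k g} = Ici (c * √((n : ℝ) / k)) ∩ {g | VolDiff n k g} := by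
    ext g
    exact ⟨fun h => ⟨hL n k g hk hkn h.1 h.2, h.2⟩, fun h => ⟨lt_of_lt_of_le (by positivity) h.1, h.2⟩⟩
  have hm : C * √((n : ℝ) / k) ∈ {g : ℝ | 0 < g ∧ VolDiff n k g} := ⟨by positivity, hU n k hk hkn⟩
  have hcl : IsClosed {g : ℝ | 0 < g ∧ VolDiff n k g} :=
    e ▸ isClosed_Ici.inter (closed_volDiff n k)
  have hl := hcl.isLeast_csInf ⟨_, hm⟩ ⟨0, fun g hg => hg.1.le⟩
  exact ⟨_, hl, hL n k _ hk hkn hl.1.1 hl.1.2, hl.2 hm⟩

end Pool.Agent.Lib.VD
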