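import Pool.Agent.Lib.VD.Blue

/-! The number of integer points in an `ℓ¹` ball. -/

namespace Pool.Agent.Lib.VD

namespace T18

lemma geo (m : ℕ) :
    ∑ j ∈ Finset.Icc (-(m : ℤ)) m, (1 / 2 : ℝ) ^ j.natAbs = 3 - 2 * (1 / 2 : ℝ) ^ m := by
  induction m with
  | zero => norm_num
  | succ m ih =>
    have e : Finset.Icc (-((m + 1 : ℕ) : ℤ)) ((m + 1 : ℕ) : ℤ)
        = insert (-((m + 1 : ℕ) : ℤ)) (insert ((m + 1 : ℕ) : ℤ) (Finset.Icc (-(m : ℤ)) m)) := by
      ext j
      simp only [Finset.mem_Icc, Finset.mem_insert]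
      push_cast
      omega
    rw [e, Finset.sum_insert, Finset.sum_insert, ih, Int.natAbs_neg, Int.natAbs_natCast]
    · ring
    · simp only [Finset.mem_Icc]; push_cast; omega
    · simp only [Finset.mem_Icc, Finset.mem_insert]; push_cast; omega

end T18

theorem st_CNT : St_CNT := by
  classical
  intro N m
  set B := Fintype.piFinset fun _ : Fin N => Finset.Icc (-(m : ℤ)) m with hB
  refine ⟨B.filter fun z => ∑ i, |z i| ≤ (m : ℤ), ?_, fun z hz => ?_⟩
  · have h1 : ((B.filter fun z => ∑ i, |z i| ≤ (m : ℤ)).card : ℝ)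
        ≤ ∑ z ∈ B, 2 ^ m * ∏ i, (1 / 2 : ℝ) ^ (z i).natAbs := by
      rw [Finset.card_eq_sum_ones, Nat.cast_sum]
      refine le_trans (Finset.sum_le_sum fun z hz => ?_)
        (Finset.sum_le_sum_of_subset_of_nonneg (Finset.filter_subset _ B)
          fun z _ _ => by positivity)
      have h2 : ∑ i, (z i).natAbs ≤ m := by
        have h3 := (Finset.mem_filter.1 hz).2
        have h4 : ((∑ i, (z i).natAbs : ℕ) : ℤ) = ∑ i, |z i| := by
          push_cast; rfl
        omega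
      rw [Finset.prod_pow_eq_pow_sum]
      have h5 : (1 / 2 : ℝ) ^ m ≤ (1 / 2 : ℝ) ^ ∑ i, (z i).natAbs :=
        pow_le_pow_of_le_one (by norm_num) (by norm_num) h2
      calc ((1 : ℕ) : ℝ) = 2 ^ m * (1 / 2 : ℝ) ^ m := by rw [← mul_pow]; norm_num
        _ ≤ _ := by gcongr
    rw [← Finset.mul_sum, hB, ← Finset.prod_univ_sum (fun _ : Fin N => Finset.Icc (-(m : ℤ)) m)
      (fun _ j => (1 / 2 : ℝ) ^ j.natAbs), Finset.prod_const, T18.geo, Finset.card_univ,
      Fintype.card_fin] at h1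
    have h6 : (0 : ℝ) < (1 / 2 : ℝ) ^ m := by positivity
    have h7 : (1 / 2 : ℝ) ^ m ≤ 1 := pow_le_one₀ (by norm_num) (by norm_num)
    have h8 : (3 - 2 * (1 / 2 : ℝ) ^ m) ^ N ≤ 3 ^ N :=
      pow_le_pow_left₀ (by linarith) (by linarith) N
    have h9 : ((B.filter fun z => ∑ i, |z i| ≤ (m : ℤ)).card : ℝ) ≤ ((3 ^ N * 2 ^ m : ℕ) : ℝ) := by
      push_cast
      refine h1.trans ?_
      rw [mul_comm]
      gcongr
    exact_mod_cast h9
  · refine Finset.mem_filter.2 ⟨Fintype.mem_piFinset.2 fun i => ?_, hz⟩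
    have : |z i| ≤ m :=
      (Finset.single_le_sum (f := fun i => |z i|) (fun j _ => abs_nonneg _)
        (Finset.mem_univ i)).trans hz
    exact Finset.mem_Icc.2 (abs_le.1 this)

end Pool.Agent.Lib.VD
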