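import Pool.Agent.Lib.VD.Gau

open MeasureTheory Set Module Metric
open scoped RealInnerProductSpace ENNReal Pointwise

namespace Pool.Agent.Lib.VD

theorem st_FIN : St_FIN := by
  intro n m K F hK h
  rw [Gau.sec_eq F h]
  exact (F.closed_of_finiteDimensional.isClosedEmbedding_subtypeVal.isCompact_preimage
    hK).measure_lt_top

end Pool.Agent.Lib.VD
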