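import Pool.Agent.Lib.VD.Defs

open MeasureTheory Set Module Metric
open scoped RealInnerProductSpace ENNReal Pointwise

namespace Pool.Agent.Lib.VD

abbrev E (n : ℕ) := EuclideanSpace ℝ (Fin n)

/-- polar set -/
def pol {n : ℕ} (K : Set (E n)) : Set (E n) := {y | ∀ x ∈ K, ⟪x, y⟫ ≤ 1}

/-- Laplace transform of Lebesgue measure on `T` -/
noncomputable def Z {n : ℕ} (T : Set (E n)) (ξ : E n) : ℝ := ∫ y in T, Real.exp ⟪ξ, y⟫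

/-- all `m`-dimensional central sections of `A` have measure at most `M` -/
def SecLe {n : ℕ} (m : ℕ) (A : Set (E n)) (M : ℝ≥0∞) : Prop :=
  ∀ F : Submodule ℝ (E n), finrank ℝ F = m → μHE[m] (A ∩ F) ≤ M

/-! ### common -/

def St_FIN : Prop :=
  ∀ (n m : ℕ) (K : Set (E n)) (F : Submodule ℝ (E n)), IsCompact K → finrank ℝ F = m →
    μHE[m] (K ∩ F) < ⊤

def St_BALL : Prop :=
  ∀ (n : ℕ) (r : ℝ), 1 ≤ n → 0 ≤ r →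
    ENNReal.ofReal ((2 * r / √n) ^ n) ≤ volume (closedBall (0 : E n) r) ∧
    volume (closedBall (0 : E n) r) ≤ ENNReal.ofReal ((r * √(2 * Real.pi * Real.exp 1 / n)) ^ n)

def St_POL : Prop :=
  ∀ (n : ℕ) (K : Set (E n)), IsSymBody K →
    (∃ r > 0, closedBall (0 : E n) r ⊆ K) ∧ 0 < volume K ∧ IsSymBody (pol K) ∧
    0 < volume (pol K) ∧ (∀ x ∈ K, ∀ y ∈ pol K, |⟪x, y⟫| ≤ 1) ∧
    Continuous (Z (pol K)) ∧ ∀ ξ, 0 < Z (pol K) ξ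

/-! ### upper bound -/

def St_SEC : Prop :=
  ∀ (n m : ℕ) (Y : E m →ₗ[ℝ] E n) (A : Set (E n)) (M : ℝ≥0∞), MeasurableSet A → M ≠ 0 →
    SecLe m A M →
    ENNReal.ofReal (√(2 * Real.pi) ^ m) * volume (Y ⁻¹' A) ≤
      M * ∫⁻ u, ENNReal.ofReal (Real.exp (-‖Y u‖ ^ 2 / 2))

def St_KER : Prop :=
  ∀ (n m : ℕ) (F G : E n → ℝ≥0∞) (a c : ℝ≥0∞), 1 ≤ m → m < n → Measurable F → Measurable G →
    (∀ Y : E m →ₗ[ℝ] E n, a * ∫⁻ u, F (Y u) ≤ c * ∫⁻ u, G (Y u)) →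
    a * ∫⁻ x, F x * ENNReal.ofReal ((‖x‖ ^ (n - m))⁻¹) ≤
      c * ∫⁻ x, G x * ENNReal.ofReal ((‖x‖ ^ (n - m))⁻¹)

def St_SING : Prop :=
  ∀ (n k : ℕ) (U : E n ≃ₗ[ℝ] E n), 1 ≤ k → k < n →
    ∫⁻ x, ENNReal.ofReal (Real.exp (-‖U x‖ ^ 2 / 2)) * ENNReal.ofReal ((‖x‖ ^ k)⁻¹) ≤
      ENNReal.ofReal (√(2 * Real.pi) ^ n * (9 / √n) ^ k *
        |LinearMap.det (U : E n →ₗ[ℝ] E n)| ^ ((k : ℝ) / n) /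
          |LinearMap.det (U : E n →ₗ[ℝ] E n)|)

def St_ELL : Prop :=
  ∀ (n k : ℕ) (U : E n ≃ₗ[ℝ] E n) (A : Set (E n)) (ρ M : ℝ), 1 ≤ k → k < n → MeasurableSet A →
    0 < ρ → 0 < M → (∀ x ∈ A, ‖U.symm x‖ ≤ ρ) → SecLe (n - k) A (ENNReal.ofReal M) →
    volume A ≤ ENNReal.ofReal (M * (27 * ρ / √n) ^ k *
      |LinearMap.det (U : E n →ₗ[ℝ] E n)| ^ ((k : ℝ) / n))

def St_PACK : Prop :=
  ∀ (n : ℕ) (T : Set (E n)) (ξ : E n) (Φ : E n →ₗ[ℝ] E n) (b : E n) (δ α : ℝ), 1 ≤ n →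
    IsCompact T → Convex ℝ T → 0 < volume T → (∀ y ∈ T, |⟪ξ, y⟫| ≤ 2 * n) →
    ∫ y in T, ‖Φ y - b‖ ^ 2 * Real.exp ⟪ξ, y⟫ ≤ n * Z T ξ →
    0 < δ → δ ≤ 1 / 2 → 0 < α → 2 ≤ α ^ 2 →
    ∃ P : Finset (E n), (P.card : ℝ) ≤ Real.exp (6 * δ * n + 2 / α ^ 2) ∧
      ∀ y ∈ T, ∃ p ∈ P, ‖Φ y - p‖ ≤ 2 * α * √n / δ

def St_DUAL : Prop :=
  ∀ (n : ℕ) (K : Set (E n)), 1 ≤ n → IsCompact K → Convex ℝ K →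
    (∃ r > 0, closedBall (0 : E n) r ⊆ K) →
    (∀ j : ℕ, ∃ P : Finset (E n), (P.card : ℝ) ≤ Real.exp (3 * n / 2 ^ j + 1 / (2 * 4 ^ j)) ∧
      ∀ y ∈ pol K, ∃ p ∈ P, ‖y - p‖ ≤ 8 * 4 ^ j * √n) →
    ENNReal.ofReal ((1 / (16 * Real.exp 7 * n)) ^ n) ≤ volume K

def St_COV : Prop :=
  ∀ (n : ℕ) (T : Set (E n)) (ξ : E n) (ε : ℝ), IsCompact T → 0 < volume T → 0 < ε →
    ∃ (U : E n ≃ₗ[ℝ] E n) (b : E n),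
      ∫ y in T, ‖LinearMap.adjoint (U : E n →ₗ[ℝ] E n) y - b‖ ^ 2 * Real.exp ⟪ξ, y⟫ ≤ n * Z T ξ ∧
      ∀ x, ‖U.symm x‖ ^ 2 * Z T ξ ^ 2 ≤
        Z T (ξ + x) * Z T (ξ - x) - Z T ξ ^ 2 + ε * ‖x‖ ^ 2 * Z T ξ ^ 2

def St_DET : Prop :=
  ∀ (n : ℕ) (K : Set (E n)) (ξ : E n) (ε : ℝ), 1 ≤ n → IsSymBody K → 0 < ε →
    (∀ y ∈ pol K, |⟪ξ, y⟫| ≤ 2 * n) →
    ∃ U : E n ≃ₗ[ℝ] E n,
      |LinearMap.det (U : E n →ₗ[ℝ] E n)| ≤ (16 * Real.exp 7 * n) ^ n * (volume K).toReal ∧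
      ∀ x, ‖U.symm x‖ ^ 2 * Z (pol K) ξ ^ 2 ≤
        Z (pol K) (ξ + x) * Z (pol K) (ξ - x) - Z (pol K) ξ ^ 2 + ε * ‖x‖ ^ 2 * Z (pol K) ξ ^ 2

def St_GOOD : Prop :=
  ∀ (n k : ℕ) (K : Set (E n)) (x : E n), 1 ≤ n → 1 ≤ k → IsSymBody K → x ∈ K →
    volume (((n : ℝ) + k) • K) ≤ ENNReal.ofReal (k * Real.exp k) *
      volume {ξ | ξ ∈ ((n : ℝ) + k) • K ∧
        Z (pol K) (ξ + x) * Z (pol K) (ξ - x) ≤ Real.exp (2 / k) * Z (pol K) ξ ^ 2}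

def St_UMAIN : Prop :=
  ∃ C > 0, ∀ (n k : ℕ) (K A : Set (E n)) (M : ℝ), 1 ≤ k → k < n → IsSymBody K →
    MeasurableSet A → A ⊆ K → 0 < M → SecLe (n - k) A (ENNReal.ofReal M) →
    (volume A).toReal ≤ M * (C * √((n : ℝ) / k)) ^ k * (volume K).toReal ^ ((k : ℝ) / n)

def St_UP : Prop :=
  ∃ C > 0, ∀ n k : ℕ, 1 ≤ k → k < n → VolDiff n k (C * √((n : ℝ) / k))

/-! ### lower bound -/

noncomputable def avg {P : ℕ} (f : Fin P → ℝ) : ℝ := (∑ i, f i) / P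

def Sym {P d : ℕ} (X : Fin P → E d) : Prop := ∃ σ : Equiv.Perm (Fin P), ∀ i, X (σ i) = -X i

noncomputable def chi {P d : ℕ} (X : Fin P → E d) (ξ : E d) : ℝ := avg fun i => Real.cos ⟪X i, ξ⟫

noncomputable def bump {P d : ℕ} (b : ℝ) (X : Fin P → E d) (x : E d) : ℝ :=
  avg fun i => Real.exp (-b * ‖x - X i‖ ^ 2)

def absc {N d : ℕ} (w : Fin N → E d) : Set (E d) :=
  {x | ∃ l : Fin N → ℝ, ∑ i, |l i| ≤ 1 ∧ x = ∑ i, l i • w i}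

def base {N d : ℕ} (w : Fin N → E d) : Set (E d) := {x | ∃ a ∈ absc w, ‖x - a‖ ≤ 3}

/-- horizontal part of a point -/
noncomputable def hor {d : ℕ} (p : E (d + 1)) : E d := WithLp.toLp 2 fun i => p i.succ

/-- the point with height `s` and horizontal part `y` -/
noncomputable def pt {d : ℕ} (s : ℝ) (y : E d) : E (d + 1) :=
  WithLp.toLp 2 (Fin.cons s fun i => y i : Fin (d + 1) → ℝ)

def lay {d : ℕ} (K : Set (E d)) (ψ : E d → ℝ) : Set (E (d + 1)) :=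
  {p | hor p ∈ K ∧ |p 0| ≤ ψ (hor p)}

def St_CNT : Prop :=
  ∀ N m : ℕ, ∃ S : Finset (Fin N → ℤ), S.card ≤ 3 ^ N * 2 ^ m ∧
    ∀ z : Fin N → ℤ, ∑ i, |z i| ≤ m → z ∈ S

def St_SIGN : Prop :=
  ∃ (A : ℕ) (κ : ℝ), 1 ≤ A ∧ 0 < κ ∧ ∀ d : ℕ, 1 ≤ d → ∃ g : Fin (A * d) → E d,
    (∀ i, ‖g i‖ ^ 2 = d) ∧ ∀ ξ : E d, 1 / 2 ≤ ‖ξ‖ → ‖ξ‖ ≤ 1 → chi g ξ ≤ 1 - κ

def St_FRAME : Prop :=
  ∃ (A : ℕ) (κ : ℝ), 0 < κ ∧ ∀ d : ℕ, 1 ≤ d → ∃ (N : ℕ) (w : Fin N → E d),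
    1 ≤ N ∧ N ≤ A * d ∧ Sym w ∧ (∀ i, ‖w i‖ ^ 2 ≤ d) ∧ (∀ ξ, 0 ≤ chi w ξ) ∧
    ∀ ξ : E d, 1 / 2 ≤ ‖ξ‖ → ‖ξ‖ ≤ 1 → chi w ξ ≤ 1 - κ

/-- decay of the characteristic function on the dyadic shells up to `2^J k / s` -/
def Decay {P d : ℕ} (s : ℝ) (k J : ℕ) (X : Fin P → E d) : Prop :=
  ∀ ξ : E d, 0 ≤ chi X ξ ∧ ∀ j : ℕ, j < J → 2 ^ j * k / s ≤ ‖ξ‖ → ‖ξ‖ ≤ 2 ^ (j + 1) * k / s →
    chi X ξ ≤ (1 / 4 : ℝ) ^ (k * (j + 1))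

def St_CHAR : Prop :=
  ∀ κ : ℝ, 0 < κ → ∃ s > 0, ∀ (d N k J : ℕ) (w : Fin N → E d), 1 ≤ N → 1 ≤ k → Sym w →
    (∀ ξ, 0 ≤ chi w ξ) → (∀ ξ : E d, 1 / 2 ≤ ‖ξ‖ → ‖ξ‖ ≤ 1 → chi w ξ ≤ 1 - κ) →
    ∃ (P : ℕ) (X : Fin P → E d), 1 ≤ P ∧ Sym X ∧ (∀ i, X i ∈ absc w) ∧ Decay s k J X

/-- all affine sections of codimension `k` of the bump have integral at most `D` -/
def AffLe {P d : ℕ} (k : ℕ) (b : ℝ) (X : Fin P → E d) (D : ℝ) : Prop :=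
  ∀ (F : Submodule ℝ (E d)) (z : E d), finrank ℝ F = d - k →
    ∫⁻ y : F, ENNReal.ofReal (bump b X ((y : E d) + z)) ≤ ENNReal.ofReal D

def St_FOUR : Prop :=
  ∀ (d k P : ℕ) (b : ℝ) (X : Fin P → E d) (F : Submodule ℝ (E d)) (z : E d), 1 ≤ P → k ≤ d →
    0 < b → Sym X → (∀ ξ, 0 ≤ chi X ξ) → finrank ℝ F = d - k →
    ∫⁻ y : F, ENNReal.ofReal (bump b X ((y : E d) + z)) ≤
      ENNReal.ofReal (√(Real.pi / b) ^ d / (2 * Real.pi) ^ k) *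
        ∫⁻ ξ : Fᗮ, ENNReal.ofReal (Real.exp (-‖(ξ : E d)‖ ^ 2 / (4 * b)) * chi X ξ)

def St_SHELL : Prop :=
  ∀ s : ℝ, 0 < s → ∃ C > 0, ∀ (k : ℕ) (b : ℝ), 1 ≤ k → 0 < b → ∃ J : ℕ,
    ∀ (d P : ℕ) (X : Fin P → E d) (H : Submodule ℝ (E d)), 1 ≤ P → finrank ℝ H = k →
      Decay s k J X →
      ∫⁻ ξ : H, ENNReal.ofReal (Real.exp (-‖(ξ : E d)‖ ^ 2 / (4 * b)) * chi X ξ) ≤
        ENNReal.ofReal ((C * √k) ^ k)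

def St_BASE : Prop :=
  ∀ A : ℕ, ∃ C > 0, ∀ (d N : ℕ) (w : Fin N → E d), 1 ≤ d → N ≤ A * d → (∀ i, ‖w i‖ ^ 2 ≤ d) →
    IsSymBody (base w) ∧ base w ⊆ closedBall 0 (4 * √d) ∧ absc w ⊆ closedBall 0 (4 * √d) ∧
    volume (base w) ≤ ENNReal.ofReal ((C / √d) ^ d)

def St_MASS : Prop :=
  ∀ (d N P : ℕ) (w : Fin N → E d) (X : Fin P → E d), 1 ≤ d → 1 ≤ P → MeasurableSet (base w) →
    (∀ i, X i ∈ absc w) →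
    ENNReal.ofReal (√(Real.pi / d) ^ d / 2) ≤ ∫⁻ x in base w, ENNReal.ofReal (bump d X x)

def St_CONC : Prop :=
  ∀ (d P : ℕ) (b : ℝ) (X : Fin P → E d), 1 ≤ P → 0 < b → Sym X →
    ConvexOn ℝ univ (fun x => b * ‖x‖ ^ 2 + bump b X x) ∧ Continuous (bump b X) ∧
    (∀ x, bump b X (-x) = bump b X x) ∧ (∀ x, 0 < bump b X x ∧ bump b X x ≤ 1) ∧
    ∀ R : ℝ, 0 < R → (∀ i, ‖X i‖ ≤ R) → ∃ η > 0, ∀ x x' : E d, ‖x‖ ≤ R → ‖x - x'‖ ≤ η →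
      bump b X x ≤ 2 * bump b X x'

def St_BODY : Prop :=
  ∀ (d : ℕ) (K : Set (E d)) (ψ : E d → ℝ), IsSymBody K → Continuous ψ → ConcaveOn ℝ K ψ →
    (∀ x, ψ (-x) = ψ x) → (∀ x ∈ K, 0 < ψ x) →
    IsSymBody (lay K ψ) ∧ volume (lay K ψ) = ∫⁻ x in K, ENNReal.ofReal (2 * ψ x)

def St_SLICE : Prop :=
  ∀ (d m : ℕ) (F : Submodule ℝ (E (d + 1))), finrank ℝ F = m + 1 → (∃ p ∈ F, p 0 ≠ 0) →
    ∃ (v : E d) (F₀ : Submodule ℝ (E d)), finrank ℝ F₀ = m ∧ (∀ y ∈ F₀, ⟪v, y⟫ = 0) ∧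
      ∀ A : Set (E (d + 1)), MeasurableSet A →
        μHE[m + 1] (A ∩ F) = ENNReal.ofReal (√(1 + ‖v‖ ^ 2)) *
          ∫⁻ y : F₀, volume {s : ℝ | pt s ((y : E d) + s • v) ∈ A}

def St_SECT : Prop :=
  ∀ (d k : ℕ) (K : Set (E d)) (f : E d → ℝ) (R b D η : ℝ), 1 ≤ k → k ≤ d → IsSymBody K →
    0 < R → K ⊆ closedBall 0 R → 0 < b → 0 < η → Continuous f → (∀ x, f (-x) = f x) →
    (∀ x, 0 < f x ∧ f x ≤ 1) → (∀ x x' : E d, ‖x‖ ≤ R → ‖x - x'‖ ≤ η → f x ≤ 2 * f x') →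
    (∀ (F : Submodule ℝ (E d)) (z : E d), finrank ℝ F = d - k →
      ∫⁻ y : F, ENNReal.ofReal (f ((y : E d) + z)) ≤ ENNReal.ofReal D) →
    ∃ ε > 0, ε * (b * R ^ 2 + 1) ≤ R ∧
      SecLe (d + 1 - k) (lay K (fun x => 2 * R - ε * (b * ‖x‖ ^ 2)) \
        lay K (fun x => 2 * R - ε * (b * ‖x‖ ^ 2 + f x))) (ENNReal.ofReal (16 * ε * D))

/-- the pair of bodies, before the final arithmetic -/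
def St_PAIR : Prop :=
  ∃ C > 0, ∀ d k : ℕ, 1 ≤ k → k ≤ d → ∃ (K L : Set (E (d + 1))) (t : ℝ), IsSymBody K ∧
    IsSymBody L ∧ L ⊆ K ∧ 0 < t ∧ (volume K).toReal ≤ √d * (C / √d) ^ d ∧
    t ≤ (volume K).toReal - (volume L).toReal ∧
    SecLe (d + 1 - k) (K \ L) (ENNReal.ofReal (t * (C * √k) ^ k))

def St_LOW : Prop :=
  ∃ c > 0, ∀ (n k : ℕ) (γ : ℝ), 1 ≤ k → k < n → 0 < γ → VolDiff n k γ → c * √((n : ℝ) / k) ≤ γ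

end Pool.Agent.Lib.VD
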