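import Pool.Agent.Lib.VD.Blue

open MeasureTheory Set Module Metric
open scoped RealInnerProductSpace ENNReal Pointwise

namespace Pool.Agent.Lib.VD.Gau

variable {V : Type*} [NormedAddCommGroup V] [InnerProductSpace ℝ V] [FiniteDimensional ℝ V]
  [MeasurableSpace V] [BorelSpace V]

theorem integrable_gauss {b : ℝ} (hb : 0 < b) : Integrable fun z : V => Real.exp (-b * ‖z‖ ^ 2) := by
  have h := (GaussianFourier.integrable_cexp_neg_mul_sq_norm_add (V := V) (b := (b : ℂ))
    (by simpa using hb) 0 0).norm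
  refine h.congr (Filter.Eventually.of_forall fun z => ?_)
  simp only [zero_mul, add_zero, Complex.norm_exp]
  congr 1
  have : (-(b : ℂ) * (‖z‖ : ℂ) ^ 2) = ((-b * ‖z‖ ^ 2 : ℝ) : ℂ) := by push_cast; ring
  rw [this, Complex.ofReal_re]

theorem integral_gauss {b : ℝ} (hb : 0 < b) :
    ∫ z : V, Real.exp (-b * ‖z‖ ^ 2) = √(Real.pi / b) ^ finrank ℝ V := by
  rw [GaussianFourier.integral_rexp_neg_mul_sq_norm hb, Real.sqrt_eq_rpow,
    ← Real.rpow_natCast, ← Real.rpow_mul (by positivity)]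
  congr 1; ring

theorem lintegral_gauss {b : ℝ} (hb : 0 < b) :
    ∫⁻ z : V, ENNReal.ofReal (Real.exp (-b * ‖z‖ ^ 2)) =
      ENNReal.ofReal (√(Real.pi / b) ^ finrank ℝ V) := by
  rw [← integral_gauss hb, ofReal_integral_eq_lintegral_ofReal (integrable_gauss hb)
    (Filter.Eventually.of_forall fun _ => (Real.exp_pos _).le)]

theorem lintegral_gauss_half :
    ∫⁻ z : V, ENNReal.ofReal (Real.exp (-‖z‖ ^ 2 / 2)) =
      ENNReal.ofReal (√(2 * Real.pi) ^ finrank ℝ V) := by
  have h := lintegral_gauss (V := V) (b := 1 / 2) (by norm_num)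
  rw [show Real.pi / (1 / 2) = 2 * Real.pi by ring] at h
  rw [← h]
  refine lintegral_congr fun z => ?_
  congr 2; ring

/-- change of variables by a linear equivalence -/
theorem lintegral_comp_equiv (U : V ≃ₗ[ℝ] V) (f : V → ℝ≥0∞) (hf : Measurable f) :
    ∫⁻ x, f (U x) = ENNReal.ofReal (|LinearMap.det (U : V →ₗ[ℝ] V)|⁻¹) * ∫⁻ x, f x := by
  have hd : LinearMap.det (U : V →ₗ[ℝ] V) ≠ 0 := (LinearEquiv.isUnit_det' U).ne_zero
  have h := Measure.map_linearMap_addHaar_eq_smul_addHaar (volume : Measure V) hd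
  have hm : Measurable (U : V →ₗ[ℝ] V) := (LinearMap.continuous_of_finiteDimensional _).measurable
  rw [← abs_inv, ← smul_eq_mul, ← lintegral_smul_measure, ← h, lintegral_map hf hm]
  rfl

/-- the section measure is the volume of the preimage in the subspace -/
theorem sec_eq {n m : ℕ} (F : Submodule ℝ (E n)) (h : finrank ℝ F = m) (A : Set (E n)) :
    μHE[m] (A ∩ F) = volume ((↑) ⁻¹' A : Set F) := by
  rw [← InnerProductSpace.euclideanHausdorffMeasure_eq_volume, h,
    isometry_subtype_coe.euclideanHausdorffMeasure_preimage, Subtype.range_coe_subtype]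
  rfl

end Pool.Agent.Lib.VD.Gau
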