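import Pool.Agent.Lib.VD.Blue

open MeasureTheory Set Module Metric
open scoped RealInnerProductSpace ENNReal Pointwise

namespace Pool.Agent.Lib.VD.T77

theorem sec_diff (hF : St_FIN) {n m : ℕ} {K L : Set (E n)} (hK : IsCompact K) (hL : IsCompact L)
    (hLK : L ⊆ K) (F : Submodule ℝ (E n)) (h : finrank ℝ F = m) :
    μHE[m] ((K \ L) ∩ F) ≠ ⊤ ∧
    (μHE[m] ((K \ L) ∩ F)).toReal = (μHE[m] (K ∩ F)).toReal - (μHE[m] (L ∩ F)).toReal := by
  have e : (K \ L) ∩ (F : Set (E n)) = (K ∩ F) \ (L ∩ F) := by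
    ext x; simp only [mem_inter_iff, mem_sdiff]; tauto
  have h1 := hF n m K F hK h
  have h2 := hF n m L F hL h
  have hs : L ∩ (F : Set (E n)) ⊆ K ∩ F := inter_subset_inter_left _ hLK
  have hm : MeasurableSet (L ∩ (F : Set (E n))) :=
    (hL.isClosed.inter F.closed_of_finiteDimensional).measurableSet
  rw [e, measure_sdiff hs hm.nullMeasurableSet h2.ne]
  exact ⟨ne_top_of_le_ne_top h1.ne tsub_le_self,
    ENNReal.toReal_sub_of_le (measure_mono hs) h1.ne⟩

theorem vol_diff {n : ℕ} {K L : Set (E n)} (hK : IsCompact K) (hL : IsCompact L) (hLK : L ⊆ K) :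
    (volume (K \ L)).toReal = (volume K).toReal - (volume L).toReal := by
  rw [measure_sdiff hLK hL.measurableSet.nullMeasurableSet hL.measure_lt_top.ne]
  exact ENNReal.toReal_sub_of_le (measure_mono hLK) hK.measure_lt_top.ne

theorem exists_sub {n m : ℕ} (h : m ≤ n) : ∃ F : Submodule ℝ (E n), finrank ℝ F = m := by
  obtain ⟨f, hf⟩ := exists_linearIndependent_of_le_finrank (R := ℝ) (M := E n) (n := m)
    (by rw [finrank_euclideanSpace_fin]; exact h)
  exact ⟨Submodule.span ℝ (range f), by rw [finrank_span_eq_card hf, Fintype.card_fin]⟩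

/-- `a^(1-q) - b^(1-q) ≤ (a - b) / a^q` -/
theorem rpow_up {a b q : ℝ} (hb : 0 < b) (hba : b ≤ a) (hq : 0 ≤ q) :
    (a ^ (1 - q) - b ^ (1 - q)) * a ^ q ≤ a - b := by
  have ha : 0 < a := hb.trans_le hba
  have h1 : a ^ (1 - q) * a ^ q = a := by rw [← Real.rpow_add ha]; simp
  have h2 : b ^ (1 - q) * b ^ q = b := by rw [← Real.rpow_add hb]; simp
  have h3 : b ^ q ≤ a ^ q := Real.rpow_le_rpow hb.le hba hq
  have h4 := mul_le_mul_of_nonneg_left h3 (Real.rpow_nonneg hb.le (1 - q))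
  nlinarith

/-- `(1-q)(a - b) / a^q ≤ a^(1-q) - b^(1-q)` -/
theorem rpow_low {a b q : ℝ} (hb : 0 < b) (hba : b ≤ a) (hq : 0 ≤ q) (hq1 : q ≤ 1) :
    (1 - q) * (a - b) ≤ (a ^ (1 - q) - b ^ (1 - q)) * a ^ q := by
  have ha : 0 < a := hb.trans_le hba
  have h1 : a ^ (1 - q) * a ^ q = a := by rw [← Real.rpow_add ha]; simp
  have h2 := Real.geom_mean_le_arith_mean2_weighted (w₁ := 1 - q) (w₂ := q) (p₁ := b) (p₂ := a)
    (by linarith) hq hb.le ha.le (by ring)
  nlinarith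

end Pool.Agent.Lib.VD.T77
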