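import Pool.Agent.Lib.VD.All

open MeasureTheory Set Module Metric
open scoped RealInnerProductSpace ENNReal Pointwise

namespace Pool.Agent.Lib.VD

/-- the upper bound for an arbitrary measurable subset `L` of `K` -/
theorem upper_any : ∃ C > 0, ∀ n k : ℕ, 1 ≤ k → k < n → ∀ K L : Set (E n), IsSymBody K →
    MeasurableSet L → L ⊆ K → ∀ M : ℝ,
    (∀ F : Submodule ℝ (E n), finrank ℝ F = n - k →
      (μHE[n - k] (K ∩ F)).toReal - (μHE[n - k] (L ∩ F)).toReal ≤ M) →
    (volume K).toReal ^ (((n : ℝ) - k) / n) - (volume L).toReal ^ (((n : ℝ) - k) / n) ≤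
      (C * √((n : ℝ) / k)) ^ k * M := by
  obtain ⟨C, hC, h⟩ := umain
  refine ⟨C, hC, fun n k hk hkn K L hK hL hLK M hM => ?_⟩
  have hn : (0 : ℝ) < n := by exact_mod_cast (by omega : 0 < n)
  have hkn' : (k : ℝ) < n := by exact_mod_cast hkn
  have sec : ∀ F : Submodule ℝ (E n), finrank ℝ F = n - k → μHE[n - k] ((K \ L) ∩ F) ≠ ⊤ ∧
      (μHE[n - k] ((K \ L) ∩ F)).toReal =
        (μHE[n - k] (K ∩ F)).toReal - (μHE[n - k] (L ∩ F)).toReal := by
    intro F hF
    have e : (K \ L) ∩ (F : Set (E n)) = (K ∩ F) \ (L ∩ F) := by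
      ext x; simp only [mem_inter_iff, mem_sdiff]; tauto
    have h1 := st_FIN n _ K F hK.1 hF
    have hs : L ∩ (F : Set (E n)) ⊆ K ∩ F := inter_subset_inter_left _ hLK
    have h2 := (measure_mono hs).trans_lt h1
    have hm : MeasurableSet (L ∩ (F : Set (E n))) :=
      hL.inter F.closed_of_finiteDimensional.measurableSet
    rw [e, measure_sdiff hs hm.nullMeasurableSet h2.ne]
    exact ⟨ne_top_of_le_ne_top h1.ne tsub_le_self,
      ENNReal.toReal_sub_of_le (measure_mono hs) h1.ne⟩
  obtain ⟨F0, hF0⟩ := T77.exists_sub (n := n) (m := n - k) (by omega)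
  have hM0 : 0 ≤ M := by
    have h2 := hM F0 hF0
    rw [← (sec F0 hF0).2] at h2
    exact ENNReal.toReal_nonneg.trans h2
  have hKf := hK.1.measure_lt_top (μ := volume)
  have hba : (volume L).toReal ≤ (volume K).toReal := ENNReal.toReal_mono hKf.ne (measure_mono hLK)
  have ha : 0 < (volume K).toReal := ENNReal.toReal_pos (st_POL n K hK).2.1.ne' hKf.ne
  have e : ((n : ℝ) - k) / n = 1 - k / n := by field_simp
  have h1 : ((volume K).toReal ^ (1 - (k : ℝ) / n) - (volume L).toReal ^ (1 - (k : ℝ) / n)) *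
      (volume K).toReal ^ ((k : ℝ) / n) ≤ (volume K).toReal - (volume L).toReal := by
    rcases (ENNReal.toReal_nonneg (a := volume L)).eq_or_lt with hb | hb
    · have hq : 1 - (k : ℝ) / n ≠ 0 := by
        rw [← e]; exact (div_pos (by linarith) hn).ne'
      rw [← hb, Real.zero_rpow hq, sub_zero, sub_zero, ← Real.rpow_add ha]
      simp
    · exact T77.rpow_up hb hba (by positivity)
  have hq : 0 < (volume K).toReal ^ ((k : ℝ) / n) := Real.rpow_pos_of_pos ha _
  have hk0 : (0 : ℝ) < k := by exact_mod_cast hk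
  have hg : 0 < (C * √((n : ℝ) / k)) ^ k := by positivity
  rw [e]
  refine le_of_forall_pos_le_add fun η hη => ?_
  have h2 := h n k K (K \ L) (M + η / (C * √((n : ℝ) / k)) ^ k) hk hkn hK
    (hK.1.measurableSet.diff hL) sdiff_subset (by positivity) (by
      intro F hFr
      obtain ⟨h3, h4⟩ := sec F hFr
      rw [ENNReal.le_ofReal_iff_toReal_le h3 (by positivity), h4]
      exact (hM F hFr).trans (le_add_of_nonneg_right (by positivity)))
  rw [measure_sdiff hLK hL.nullMeasurableSet ((measure_mono hLK).trans_lt hKf).ne,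
    ENNReal.toReal_sub_of_le (measure_mono hLK) hKf.ne] at h2
  have h5 := le_of_mul_le_mul_right (h1.trans h2) hq
  rw [add_mul, div_mul_cancel₀ _ hg.ne'] at h5
  linarith

end Pool.Agent.Lib.VD
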